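import Pool.Agent.R468.LL.Cent

/-!
Local limit law of the heights, part 3: the decomposition according to the first value at most `Y`, and
the two-sided estimates for the numbers with a given number of odd terms.
-/

set_option autoImplicit false

namespace Pool.Agent.R468.LL

open Filter Topology Finset
open Pool.Agent.H499R2.LT
open Pool.Agent.H499R2.ND (Td HD G pos mem_pos)

/-- the target -/
def F1 : Finset ℤ := {1}

/-- the integers whose trajectory reaches `1` -/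
def P1 : Set ℤ := PF 1 F1 1

/-- the number of steps -/
noncomputable def hT (n : ℤ) : ℕ := hi 1 F1 1 n

/-- the number of odd terms -/
noncomputable def hO (n : ℤ) : ℤ := od 1 (hT n) n

/-- the logarithm of `n 3^o / 2^k` -/
noncomputable def lV (n : ℤ) : ℝ := Real.log n + hO n * Real.log 3 - hT n * Real.log 2

theorem hT_eq {n : ℤ} {k : ℕ} (h : Hit 1 F1 1 n k) : hT n = k := hi_spec h

theorem Td_pos {n : ℤ} (hn : 0 < n) : 0 < Td 1 n := by
  unfold Td
  split_ifs <;> omega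

theorem iter_pos {n : ℤ} (hn : 0 < n) (i : ℕ) : 0 < (Td 1)^[i] n := by
  induction i with
  | zero => exact hn
  | succ i ih => rw [Function.iterate_succ_apply']; exact Td_pos ih

open Classical in
/-- the elements of `P1` up to `Y` -/
noncomputable def GG (Y : ℕ) : Finset ℤ := (Icc (1 : ℤ) Y).filter (fun g => g ∈ P1)

theorem mem_GG {Y : ℕ} {g : ℤ} : g ∈ GG Y ↔ (1 ≤ g ∧ g ≤ Y) ∧ g ∈ P1 := by
  classical
  unfold GG
  rw [mem_filter, mem_Icc]

open Classical in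
/-- the number of `n ≤ x` which reach `1` and have `h` odd terms before -/
noncomputable def FC (x : ℝ) (h : ℤ) : ℝ :=
  (((Icc (1 : ℤ) ⌊x⌋).filter (fun n => n ∈ P1 ∧ hO n = h)).card : ℝ)

open Classical in
/-- the number of `n ≤ x` with first value at most `Y` equal to `g`, after `o` odd terms -/
noncomputable def FG (Y : ℕ) (g : ℤ) (x : ℝ) (o : ℤ) : ℝ :=
  (((Icc (1 : ℤ) ⌊x⌋).filter (fun n => ∃ i, Hit 1 (FY Y) g n i ∧ od 1 i n = o)).card : ℝ)

theorem one_mem_FY {Y : ℕ} (hY : 1 ≤ Y) : F1 ⊆ FY Y := by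
  intro x hx
  unfold F1 at hx
  rw [mem_singleton] at hx
  unfold FY
  rw [mem_Icc]
  omega

theorem mem_FY {Y : ℕ} {x : ℤ} : x ∈ FY Y ↔ -(Y : ℤ) ≤ x ∧ x ≤ Y := by
  unfold FY
  rw [mem_Icc]

/-- the decomposition -/
theorem split_count {Y : ℕ} (hY : 1 ≤ Y) (x : ℝ) (h : ℤ) :
    FC x h = ∑ g ∈ GG Y, FG Y g x (h - hO g) := by
  classical
  unfold FC FG
  have h1 : (Icc (1 : ℤ) ⌊x⌋).filter (fun n => n ∈ P1 ∧ hO n = h) =
      (GG Y).biUnion (fun g => (Icc (1 : ℤ) ⌊x⌋).filter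
        (fun n => ∃ i, Hit 1 (FY Y) g n i ∧ od 1 i n = h - hO g)) := by
    ext n
    rw [mem_biUnion, mem_filter, mem_Icc]
    constructor
    · rintro ⟨hn, hP, hh⟩
      obtain ⟨k, hk⟩ := hP
      have hT' := hT_eq hk
      have hmem : n ∈ SF 1 F1 1 (k : ℤ) h := ⟨k, rfl, hk, by rw [← hh]; unfold hO; rw [hT']⟩
      obtain ⟨j, g, h2, h3, h4, h5⟩ := SF_split (one_mem_FY hY) hmem
      refine ⟨g, ?_, ?_⟩
      · rw [mem_GG]
        have hg := h2.2.1
        rw [mem_FY] at hg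
        have hg0 : 0 < g := by rw [← h2.1]; exact iter_pos (by omega) j
        exact ⟨⟨by omega, hg.2⟩, h3⟩
      · rw [mem_filter, mem_Icc]
        refine ⟨hn, j, h2, ?_⟩
        unfold hO hT
        rw [h5]; ring
    · rintro ⟨g, hg, hn⟩
      rw [mem_filter, mem_Icc] at hn
      obtain ⟨hn, i, h2, h3⟩ := hn
      rw [mem_GG] at hg
      have h4 := SF_join (one_mem_FY hY) h2 hg.2
      obtain ⟨m, hm, h5, h6⟩ := h4
      refine ⟨hn, ⟨m, h5⟩, ?_⟩
      unfold hO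
      rw [hT_eq h5, h6, h3]
      unfold hO hT
      ring
  rw [h1, card_biUnion]
  · push_cast; rfl
  · intro g _ g' _ hne
    rw [Function.onFun, Finset.disjoint_left]
    intro n hn hn'
    rw [mem_filter] at hn hn'
    obtain ⟨_, i, h2, _⟩ := hn
    obtain ⟨_, i', h2', _⟩ := hn'
    exact hne (Hit_unique h2 h2').1

theorem NN_fin {Y : ℕ} (g : ℤ) (i : ℕ) (o : ℤ) : {x : ℤ | 0 < x ∧ x ∈ SF 1 (FY Y) g i o}.Finite :=
  SF_finite odd_one isCoprime_one_left (FY Y) g i o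

theorem SF_iff {F : Finset ℤ} {g : ℤ} {i : ℕ} {o x : ℤ} :
    x ∈ SF 1 F g i o ↔ Hit 1 F g x i ∧ od 1 i x = o := C2aux.mem_SF

/-- the two-sided estimate -/
theorem FG_bounds {Y : ℕ} {r : ℝ}
    (hr : ∀ (x g : ℤ) (j : ℕ), x ≠ 0 → Hit 1 (FY Y) g x j →
      g ≠ 0 ∧ |Real.log (x : ℝ) + od 1 j x * Real.log 3 - j * Real.log 2 - Real.log (g : ℝ)| ≤ r)
    (g a h : ℤ) {x : ℝ} (hx : 1 ≤ x) :
    (FG Y g x (h - a) ≤ ∑ i ∈ range (⌊zz a (-Real.log g + r) (x, h)⌋₊ + 1), NN 1 (FY Y) g i (h - a)) ∧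
    (0 ≤ zz a (-Real.log g - r) (x, h) →
      ∑ i ∈ range (⌊zz a (-Real.log g - r) (x, h)⌋₊ + 1), NN 1 (FY Y) g i (h - a) ≤ FG Y g x (h - a)) := by
  classical
  have hl2 : 0 < Real.log 2 := Real.log_pos (by norm_num)
  have hx0 : 0 < x := by linarith
  have hNN : ∀ i : ℕ, NN 1 (FY Y) g i (h - a) = (((NN_fin (Y := Y) g i (h - a)).toFinset).card : ℝ) := by
    intro i
    unfold NN
    rw [Set.ncard_eq_toFinset_card _ (NN_fin (Y := Y) g i (h - a))]
  constructor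
  · have hsub : (Icc (1 : ℤ) ⌊x⌋).filter (fun n => ∃ i, Hit 1 (FY Y) g n i ∧ od 1 i n = h - a) ⊆
        (range (⌊zz a (-Real.log g + r) (x, h)⌋₊ + 1)).biUnion
          (fun i => (NN_fin (Y := Y) g i (h - a)).toFinset) := by
      intro n hn
      rw [mem_filter, mem_Icc] at hn
      obtain ⟨⟨hn1, hn2⟩, i, h1, h2⟩ := hn
      rw [mem_biUnion]
      refine ⟨i, ?_, ?_⟩
      · rw [mem_range, Nat.lt_succ_iff]
        apply Nat.le_floor
        unfold zz
        rw [le_div_iff₀ hl2]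
        obtain ⟨_, h3⟩ := hr n g i (by omega) h1
        have h4 := (abs_le.1 h3).1
        rw [h2] at h4
        have hnR : (1 : ℝ) ≤ n := by exact_mod_cast hn1
        have hnx : (n : ℝ) ≤ x := by
          have := Int.floor_le x
          have h5 : (n : ℝ) ≤ (⌊x⌋ : ℝ) := by exact_mod_cast hn2
          linarith
        have h6 : Real.log n ≤ Real.log x := Real.log_le_log (by linarith) hnx
        push_cast at h4
        simp only
        linarith
      · rw [Set.Finite.mem_toFinset]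
        exact ⟨by omega, SF_iff.2 ⟨h1, h2⟩⟩
    unfold FG
    calc _ ≤ (((range (⌊zz a (-Real.log g + r) (x, h)⌋₊ + 1)).biUnion
          (fun i => (NN_fin (Y := Y) g i (h - a)).toFinset)).card : ℝ) := by exact_mod_cast card_le_card hsub
      _ ≤ ((∑ i ∈ range (⌊zz a (-Real.log g + r) (x, h)⌋₊ + 1),
          ((NN_fin (Y := Y) g i (h - a)).toFinset).card : ℕ) : ℝ) := by exact_mod_cast card_biUnion_le
      _ = _ := by
        push_cast
        exact sum_congr rfl fun i _ => (hNN i).symm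
  · intro hz0
    have hsub : (range (⌊zz a (-Real.log g - r) (x, h)⌋₊ + 1)).biUnion
          (fun i => (NN_fin (Y := Y) g i (h - a)).toFinset) ⊆
        (Icc (1 : ℤ) ⌊x⌋).filter (fun n => ∃ i, Hit 1 (FY Y) g n i ∧ od 1 i n = h - a) := by
      intro n hn
      rw [mem_biUnion] at hn
      obtain ⟨i, hi, hn⟩ := hn
      rw [Set.Finite.mem_toFinset] at hn
      obtain ⟨hn0, hn⟩ := hn
      obtain ⟨h1, h2⟩ := SF_iff.1 hn
      rw [mem_filter, mem_Icc]
      refine ⟨⟨by omega, ?_⟩, i, h1, h2⟩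
      rw [mem_range, Nat.lt_succ_iff] at hi
      have hi' : (i : ℝ) ≤ zz a (-Real.log g - r) (x, h) :=
        le_trans (by exact_mod_cast hi) (Nat.floor_le hz0)
      unfold zz at hi'
      rw [le_div_iff₀ hl2] at hi'
      simp only at hi'
      obtain ⟨_, h3⟩ := hr n g i (by omega) h1
      have h4 := (abs_le.1 h3).2
      rw [h2] at h4
      push_cast at h4
      have hnR : (0 : ℝ) < n := by exact_mod_cast hn0
      have h6 : Real.log n ≤ Real.log x := by linarith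
      rw [Int.le_floor]
      exact (Real.log_le_log_iff hnR hx0).1 h6
    unfold FG
    have hdisj : ∀ i ∈ range (⌊zz a (-Real.log g - r) (x, h)⌋₊ + 1),
        ∀ j ∈ range (⌊zz a (-Real.log g - r) (x, h)⌋₊ + 1), i ≠ j →
        Disjoint ((NN_fin (Y := Y) g i (h - a)).toFinset) ((NN_fin (Y := Y) g j (h - a)).toFinset) := by
      intro i _ j _ hij
      rw [Finset.disjoint_left]
      intro n hn hn'
      rw [Set.Finite.mem_toFinset] at hn hn'
      exact hij (Hit_unique (SF_iff.1 hn.2).1 (SF_iff.1 hn'.2).1).2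
    calc _ = ((∑ i ∈ range (⌊zz a (-Real.log g - r) (x, h)⌋₊ + 1),
          ((NN_fin (Y := Y) g i (h - a)).toFinset).card : ℕ) : ℝ) := by
            push_cast
            exact sum_congr rfl fun i _ => hNN i
      _ = (((range (⌊zz a (-Real.log g - r) (x, h)⌋₊ + 1)).biUnion
          (fun i => (NN_fin (Y := Y) g i (h - a)).toFinset)).card : ℝ) := by
            rw [card_biUnion hdisj]
      _ ≤ _ := by exact_mod_cast card_le_card hsub

/-- the value `log_2 (3^h x)` -/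
noncomputable def sv (p : ℝ × ℤ) : ℝ := (Real.log p.1 + p.2 * Real.log 3) / Real.log 2

theorem phi_zz (g : ℤ) (r : ℝ) (p : ℝ × ℤ) :
    phi (zz (hO g) (-Real.log g + r) p) = phi (sv p - (lV g - r) / Real.log 2) := by
  have hl2 : 0 < Real.log 2 := Real.log_pos (by norm_num)
  rw [← phi_int (sv p - (lV g - r) / Real.log 2) (-(hT g : ℤ))]
  congr 1
  unfold zz sv lV
  push_cast
  field_simp
  ring

/-- the weight of `g` -/
noncomputable def bw (u : ℤ → ℝ) (g : ℤ) : ℝ := Real.sqrt (lam / 2) * (2 * u g) * Real.exp (-Real.log g)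

/-- the sums `∑ b(g) e^r φ(s - (lV g - r) / log 2)` -/
noncomputable def UY (u : ℤ → ℝ) (Y : ℕ) (r s : ℝ) : ℝ :=
  ∑ g ∈ GG Y, bw u g * (Real.exp r * phi (s - (lV g - r) / Real.log 2))

/-- the data at a level -/
structure Lvl (Y : ℕ) (r : ℝ) (u δ : ℤ → ℝ) : Prop where
  Y1 : 1 ≤ Y
  r0 : 0 ≤ r
  hit : ∀ (x g : ℤ) (j : ℕ), x ≠ 0 → Hit 1 (FY Y) g x j →
      g ≠ 0 ∧ |Real.log (x : ℝ) + od 1 j x * Real.log 3 - j * Real.log 2 - Real.log (g : ℝ)| ≤ r
  u0 : ∀ g, 0 ≤ u g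
  loc : ∀ g, Loc (MM 1 (FY Y) g) (u g)
  den : ∀ g, HD 1 (PF 1 (FY Y) g) (δ g)

/-- the sandwich -/
theorem sandwich {Y : ℕ} {r : ℝ} {u δ : ℤ → ℝ} (L : Lvl Y r u δ) (K : ℝ) {ε : ℝ} (hε : 0 < ε) :
    ∀ᶠ p : ℝ × ℤ in xh K,
      UY u Y (-r) (sv p) * Est p - ε ≤ Real.sqrt (Real.log p.1) / p.1 * FC p.1 p.2 ∧
      Real.sqrt (Real.log p.1) / p.1 * FC p.1 p.2 ≤ UY u Y r (sv p) * Est p + ε := by
  classical
  -- the individual limits
  have hlim : ∀ (g : ℤ) (c : ℝ), Tendsto (fun p : ℝ × ℤ => Real.sqrt (Real.log p.1) / p.1 *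
      ∑ i ∈ range (⌊zz (hO g) c p⌋₊ + 1), NN 1 (FY Y) g i (p.2 - hO g)
      - Real.sqrt (lam / 2) * Real.exp c * phi (zz (hO g) c p) * (2 * u g) * Est p) (xh K) (𝓝 0) := by
    intro g c
    obtain ⟨C, hC, hrec⟩ := MM_rec odd_one isCoprime_one_left (FY Y) g
    exact one_lim (N := fun k o => NN 1 (FY Y) g k o) (L.u0 g) (fun k o => (hrec.1 k o).1)
      (fun k o => (hrec.1 k o).2) (L.loc g) (hO g) c K
  have hsumlim : ∀ c : ℤ → ℝ, Tendsto (fun p : ℝ × ℤ => ∑ g ∈ GG Y, (Real.sqrt (Real.log p.1) / p.1 *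
      ∑ i ∈ range (⌊zz (hO g) (c g) p⌋₊ + 1), NN 1 (FY Y) g i (p.2 - hO g)
      - Real.sqrt (lam / 2) * Real.exp (c g) * phi (zz (hO g) (c g) p) * (2 * u g) * Est p)) (xh K)
      (𝓝 0) := by
    intro c
    have := tendsto_finsetSum (GG Y) (fun g _ => hlim g (c g))
    rwa [sum_const_zero] at this
  have hU : ∀ (ρ : ℝ) (p : ℝ × ℤ), ∑ g ∈ GG Y, Real.sqrt (lam / 2) * Real.exp (-Real.log g + ρ) *
      phi (zz (hO g) (-Real.log g + ρ) p) * (2 * u g) * Est p = UY u Y ρ (sv p) * Est p := by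
    intro ρ p
    unfold UY
    rw [sum_mul]
    apply sum_congr rfl
    intro g _
    rw [phi_zz, Real.exp_add]
    unfold bw
    ring
  have hup := hsumlim (fun g => -Real.log g + r)
  have hlo := hsumlim (fun g => -Real.log g + -r)
  have hz : ∀ᶠ p : ℝ × ℤ in xh K, ∀ g ∈ GG Y, 0 ≤ zz (hO g) (-Real.log g - r) p := by
    rw [Filter.eventually_all_finset]
    intro g _
    filter_upwards [zz_ge K (hO g) (-Real.log g - r), (xh_log K).eventually (eventually_ge_atTop 0)]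
      with p h1 h2
    linarith
  filter_upwards [(Metric.tendsto_nhds.1 hup) ε hε, (Metric.tendsto_nhds.1 hlo) ε hε, hz,
    (xh_fst K).eventually (eventually_ge_atTop 1), (xh_log K).eventually (eventually_ge_atTop 0)]
    with p h1 h2 h3 h4 h5
  rw [Real.dist_eq, sub_zero, sum_sub_distrib, hU] at h1 h2
  have hw : 0 ≤ Real.sqrt (Real.log p.1) / p.1 := div_nonneg (Real.sqrt_nonneg _) (by linarith)
  rw [split_count L.Y1, mul_sum]
  constructor
  · have h6 : ∑ g ∈ GG Y, Real.sqrt (Real.log p.1) / p.1 *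
        ∑ i ∈ range (⌊zz (hO g) (-Real.log g + -r) p⌋₊ + 1), NN 1 (FY Y) g i (p.2 - hO g) ≤
        ∑ g ∈ GG Y, Real.sqrt (Real.log p.1) / p.1 * FG Y g p.1 (p.2 - hO g) := by
      apply sum_le_sum
      intro g hg
      apply mul_le_mul_of_nonneg_left _ hw
      have := (FG_bounds L.hit g (hO g) p.2 h4).2 (h3 g hg)
      rwa [sub_eq_add_neg (-Real.log (g : ℝ)) r] at this
    linarith [(abs_lt.1 h2).1]
  · have h6 : ∑ g ∈ GG Y, Real.sqrt (Real.log p.1) / p.1 * FG Y g p.1 (p.2 - hO g) ≤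
        ∑ g ∈ GG Y, Real.sqrt (Real.log p.1) / p.1 *
        ∑ i ∈ range (⌊zz (hO g) (-Real.log g + r) p⌋₊ + 1), NN 1 (FY Y) g i (p.2 - hO g) := by
      apply sum_le_sum
      intro g _
      apply mul_le_mul_of_nonneg_left _ hw
      exact (FG_bounds L.hit g (hO g) p.2 h4).1
    linarith [(abs_lt.1 h1).2]

end Pool.Agent.R468.LL
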