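import Pool.Agent.R468.LL.Bad

/-!
Local limit law of the heights, part 5: the bad elements have small total mass.
-/

set_option autoImplicit false

namespace Pool.Agent.R468.LL

open Filter Topology Finset
open Pool.Agent.H499R2.LT
open Pool.Agent.H499R2.ND (Td HD G pos mem_pos)

theorem sqrt_gap {a b : ℝ} (ha : 1 ≤ a) (hab : a ≤ b) : a - Real.sqrt a ≤ b - Real.sqrt b := by
  have h1 := Real.mul_self_sqrt (show 0 ≤ a by linarith)
  have h2 := Real.mul_self_sqrt (show 0 ≤ b by linarith)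
  have h3 : 1 ≤ Real.sqrt a := Real.one_le_sqrt.2 ha
  have h4 := Real.sqrt_le_sqrt hab
  nlinarith

theorem thin_evt {C κ : ℝ} (hC : 0 < C) (hκ : 0 < κ) : ∃ Y0 : ℕ, 3 ≤ Y0 ∧ ∀ Y : ℕ, Y0 ≤ Y → ∀ X : ℝ,
    (Y : ℝ) / 2 ≤ X → C * (Real.log Y) ^ 4 * (Y : ℝ) ^ (1 - κ) ≤
      X * Real.exp (-(Real.log X) ^ (2 * (1 / 4 : ℝ))) := by
  have hl2 := Real.log_two_lt_d9
  have hlog : Tendsto (fun Y : ℕ => Real.log (Y : ℝ)) atTop atTop :=
    Real.tendsto_log_atTop.comp tendsto_natCast_atTop_atTop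
  have h1 := (tendsto_rpow_mul_exp_neg_mul_atTop_nhds_zero 4 (κ / 2) (by positivity)).comp hlog
  have h2 : ∀ᶠ Y : ℕ in atTop, Real.log (Y : ℝ) ^ (4 : ℝ) * Real.exp (-(κ / 2) * Real.log (Y : ℝ)) < 1 / (2 * C) := by
    apply h1.eventually (gt_mem_nhds _)
    positivity
  obtain ⟨Y0, hY0⟩ := eventually_atTop.1 (((h2.and (hlog.eventually (eventually_ge_atTop (4 / κ ^ 2)))).and
    (hlog.eventually (eventually_ge_atTop 2))).and (eventually_ge_atTop 3))
  refine ⟨max Y0 3, le_max_right _ _, ?_⟩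
  intro Y hY X hX
  obtain ⟨⟨⟨h3, h4⟩, h5⟩, h6⟩ := hY0 Y ((le_max_left _ _).trans hY)
  have hYR : (3 : ℝ) ≤ Y := by exact_mod_cast h6
  have hYp : (0 : ℝ) < Y := by linarith
  have hXp : 0 < X := by linarith
  set L := Real.log (Y : ℝ) with hL
  have hM : Real.log ((Y : ℝ) / 2) = L - Real.log 2 := Real.log_div hYp.ne' (by norm_num)
  have hM1 : 1 ≤ Real.log ((Y : ℝ) / 2) := by rw [hM]; linarith
  have hMX : Real.log ((Y : ℝ) / 2) ≤ Real.log X := Real.log_le_log (by linarith) hX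
  have hgap := sqrt_gap hM1 hMX
  have hsL : Real.sqrt L ≤ κ / 2 * L := by
    have h7 := Real.mul_self_sqrt (show 0 ≤ L by linarith)
    have h8 : 0 < Real.sqrt L := Real.sqrt_pos.2 (by linarith)
    have h9 : 2 / κ ≤ Real.sqrt L := by
      apply Real.le_sqrt_of_sq_le
      rw [div_pow]
      norm_num
      exact h4
    rw [div_le_iff₀ hκ] at h9
    nlinarith
  have hsM : Real.sqrt (Real.log ((Y : ℝ) / 2)) ≤ Real.sqrt L := by
    apply Real.sqrt_le_sqrt
    rw [hM]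
    have := Real.log_pos (show (1 : ℝ) < 2 by norm_num)
    linarith
  have e1 : X * Real.exp (-(Real.log X) ^ (2 * (1 / 4 : ℝ))) = Real.exp (Real.log X - Real.sqrt (Real.log X)) := by
    rw [show (2 * (1 / 4 : ℝ)) = 1 / 2 by norm_num, ← Real.sqrt_eq_rpow, sub_eq_add_neg, Real.exp_add,
      Real.exp_log hXp]
  rw [e1]
  have e2 : Real.exp (L - κ / 2 * L - Real.log 2) ≤ Real.exp (Real.log X - Real.sqrt (Real.log X)) := by
    apply Real.exp_le_exp.2
    rw [hM] at hgap hsM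
    linarith
  refine le_trans ?_ e2
  have e3 : (Y : ℝ) ^ (1 - κ) = Real.exp (-(κ / 2) * L) * Real.exp (L - κ / 2 * L) := by
    rw [Real.rpow_def_of_pos hYp, ← Real.exp_add]
    congr 1; ring
  have e4 : Real.exp (L - κ / 2 * L - Real.log 2) = Real.exp (L - κ / 2 * L) / 2 := by
    rw [Real.exp_sub, Real.exp_log (by norm_num : (0 : ℝ) < 2)]
  rw [e3, e4]
  have h10 : L ^ 4 * Real.exp (-(κ / 2) * L) ≤ 1 / (2 * C) := by
    have := h3.le
    rw [show (4 : ℝ) = ((4 : ℕ) : ℝ) by norm_num, Real.rpow_natCast] at this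
    exact this
  rw [le_div_iff₀ (by positivity)] at h10
  have h11 := Real.exp_pos (L - κ / 2 * L)
  nlinarith

theorem hd_nn {S : Set ℤ} {l : ℝ} (h : HD 1 S l) : 0 ≤ l := hd_nonneg h

theorem hd_nat {S : Set ℤ} {l : ℝ} (h : HD 1 S l) :
    Tendsto (fun N : ℕ => G S (N : ℝ) / (N : ℝ)) atTop (𝓝 l) := by
  unfold HD at h
  have h1 := h.comp (tendsto_natCast_atTop_atTop (R := ℝ))
  simpa only [one_mul, Set.ofPred_mem_eq, Function.comp_def] using h1

theorem pos_le {S : Set ℤ} {N : ℕ} {x : ℤ} (h : x ∈ pos S (N : ℝ)) : 1 ≤ x ∧ x < N ∧ x ∈ S := by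
  rw [mem_pos] at h
  exact ⟨h.1.1, by exact_mod_cast h.1.2, h.2⟩

/-- the total mass of the bad elements -/
theorem bad_mass (A : ℝ) (hA : 0 ≤ A) : ∃ (K : ℝ) (Y0 : ℕ), 0 < K ∧ 3 ≤ Y0 ∧ ∀ Y : ℕ, Y0 ≤ Y →
    ∀ (s : ℝ) (δ : ℤ → ℝ), (∀ g, HD 1 (PF 1 (FY Y) g) (δ g)) → ∀ S : Finset ℤ,
    (∀ g ∈ S, g ∈ GG Y ∧ ∃ m : ℤ, |s * Real.log 2 - lV g - m * Real.log 2| ≤ A / (Y : ℝ) ^ (1 / 25 : ℝ)) →
    ∑ g ∈ S, δ g ≤ K / Real.log ((Y : ℝ) / 2) := by
  classical
  obtain ⟨C, κ, hC, hκ, hbc⟩ := bad_count A hA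
  obtain ⟨Y1, hY1, hth⟩ := thin_evt hC hκ
  obtain ⟨l₀, K, hl₀, hK, hHY⟩ := Pool.Agent.R344.TH.HY_count (d := 1) odd_one isCoprime_one_left
    (γ := 1 / 4) (by norm_num) (by norm_num) 1
  have hlog : Tendsto (fun Y : ℕ => Real.log ((Y : ℝ) / 2)) atTop atTop :=
    Real.tendsto_log_atTop.comp (tendsto_natCast_atTop_atTop.atTop_div_const (by norm_num))
  have hrho : Tendsto (fun Y : ℕ => 2 * (A / (Y : ℝ) ^ (1 / 25 : ℝ))) atTop (𝓝 (2 * 0)) :=
    (Tendsto.div_atTop tendsto_const_nhds ((tendsto_rpow_atTop (by norm_num)).comp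
      tendsto_natCast_atTop_atTop)).const_mul 2
  rw [mul_zero] at hrho
  obtain ⟨Y2, hY2⟩ := eventually_atTop.1 ((hlog.eventually (eventually_ge_atTop (max l₀ 1))).and
    (hrho.eventually (gt_mem_nhds (Real.log_pos (show (1 : ℝ) < 2 by norm_num)))))
  refine ⟨K, max Y1 Y2, hK, le_trans hY1 (le_max_left _ _), ?_⟩
  intro Y hY s δ hδ S hS
  have hYY1 : Y1 ≤ Y := (le_max_left _ _).trans hY
  have hY3 : 3 ≤ Y := hY1.trans hYY1
  have hYR : (3 : ℝ) ≤ Y := by exact_mod_cast hY3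
  obtain ⟨hlY, hρY⟩ := hY2 Y ((le_max_right _ _).trans hY)
  have hlY1 : 1 ≤ Real.log ((Y : ℝ) / 2) := (le_max_right _ _).trans hlY
  set ρ : ℝ := A / (Y : ℝ) ^ (1 / 25 : ℝ) with hρ
  have hcount := hHY ((Y : ℝ) / 2) (by linarith) ((le_max_left _ _).trans hlY) (Bad Y s ρ) (by
    intro X hX
    refine le_trans (hbc Y s hY3 hρY.le _ ?_) (hth Y hYY1 X hX)
    intro g hg
    rw [Pool.Agent.R344.TH.mem_fA] at hg
    exact hg.2)
  -- each count
  have hcov : ∀ N : ℕ, ∑ g ∈ S, G (PF 1 (FY Y) g) (N : ℝ) ≤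
      (((Icc (1 : ℤ) N).filter (fun n => n ∈ Pool.Agent.R344.TH.HY 1 (Bad Y s ρ) ((Y : ℝ) / 2))).card : ℝ) + Y := by
    intro N
    have hdisj : ∀ g ∈ S, ∀ g' ∈ S, g ≠ g' → Disjoint (pos (PF 1 (FY Y) g) (N : ℝ)) (pos (PF 1 (FY Y) g') (N : ℝ)) := by
      intro g _ g' _ hne
      rw [Finset.disjoint_left]
      intro n hn hn'
      obtain ⟨_, _, i, hi⟩ := pos_le hn
      obtain ⟨_, _, i', hi'⟩ := pos_le hn'
      exact hne (Hit_unique hi hi').1
    have h1 : ∑ g ∈ S, G (PF 1 (FY Y) g) (N : ℝ) =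
        ((S.biUnion (fun g => pos (PF 1 (FY Y) g) (N : ℝ))).card : ℝ) := by
      rw [card_biUnion hdisj]
      push_cast
      rfl
    rw [h1]
    have hsub : S.biUnion (fun g => pos (PF 1 (FY Y) g) (N : ℝ)) ⊆
        ((Icc (1 : ℤ) N).filter (fun n => n ∈ Pool.Agent.R344.TH.HY 1 (Bad Y s ρ) ((Y : ℝ) / 2))) ∪
        Icc (1 : ℤ) Y := by
      intro n hn
      rw [mem_biUnion] at hn
      obtain ⟨g, hgS, hn⟩ := hn
      obtain ⟨hn1, hnN, i, hi⟩ := pos_le hn
      rw [mem_union]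
      rcases le_or_gt n (Y : ℤ) with hnY | hnY
      · right
        rw [mem_Icc]
        exact ⟨hn1, hnY⟩
      · left
        rw [mem_filter, mem_Icc]
        refine ⟨⟨hn1, by omega⟩, ?_⟩
        -- all the values before `i` are larger than `Y`
        have hbig : ∀ j < i, (Y : ℤ) < (Td 1)^[j] n := by
          intro j hj
          have h2 := hi.2.2 j hj
          have h3 : 0 < (Td 1)^[j] n := iter_pos (by omega) j
          by_contra hcon
          exact h2 (mem_FY.2 ⟨by omega, by omega⟩)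
        have hi0 : i ≠ 0 := by
          rintro rfl
          have h2 : n = g := hi.1
          have h3 := hi.2.1
          rw [mem_FY] at h3
          omega
        have hgi : (Y : ℤ) ≤ 2 * g := by
          obtain ⟨j, rfl⟩ : ∃ j, i = j + 1 := ⟨i - 1, by omega⟩
          have h2 := hbig j (by omega)
          have h3 : g = Td 1 ((Td 1)^[j] n) := by
            rw [← Function.iterate_succ_apply' (Td 1) j n]; exact hi.1.symm
          rw [h3]
          have h4 : ∀ z : ℤ, (Y : ℤ) < z → (Y : ℤ) ≤ 2 * Td 1 z := by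
            intro z hz
            unfold Td
            split_ifs <;> omega
          exact h4 _ h2
        have hgiR : (Y : ℝ) / 2 ≤ g := by
          have : (Y : ℝ) ≤ 2 * g := by exact_mod_cast hgi
          linarith
        obtain ⟨hgG, m, hm⟩ := hS g hgS
        rw [mem_GG] at hgG
        refine ⟨i, ?_, ?_⟩
        · have h2 : (Pool.Agent.H499R2.CO.Tz 1)^[i] n = g := hi.1
          rw [h2]
          exact ⟨hgiR, by exact_mod_cast hgG.1.2, hgG.2, m, hm⟩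
        · intro j hj
          change (Y : ℝ) / 2 ≤ (((Td 1)^[j] n : ℤ) : ℝ)
          rcases lt_or_eq_of_le hj with h2 | h2
          · have h3 := hbig j h2
            have h4 : (Y : ℝ) < (((Td 1)^[j] n : ℤ) : ℝ) := by exact_mod_cast h3
            linarith
          · rw [h2, hi.1]; exact hgiR
    have h2 := (card_le_card hsub).trans (card_union_le _ _)
    have h3 : (Icc (1 : ℤ) Y).card = Y := by simp
    rw [h3] at h2
    exact_mod_cast h2
  -- the limit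
  have hlim : Tendsto (fun N : ℕ => ∑ g ∈ S, G (PF 1 (FY Y) g) (N : ℝ) / (N : ℝ)) atTop (𝓝 (∑ g ∈ S, δ g)) :=
    tendsto_finsetSum _ fun g _ => hd_nat (hδ g)
  have hlim2 : Tendsto (fun N : ℕ => K / Real.log ((Y : ℝ) / 2) + (Y : ℝ) / (N : ℝ)) atTop
      (𝓝 (K / Real.log ((Y : ℝ) / 2) + 0)) :=
    tendsto_const_nhds.add (tendsto_const_nhds.div_atTop tendsto_natCast_atTop_atTop)
  rw [add_zero] at hlim2
  refine le_of_tendsto_of_tendsto hlim hlim2 ?_
  filter_upwards [eventually_gt_atTop 0] with N hN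
  have hNR : (0 : ℝ) < N := by exact_mod_cast hN
  rw [← sum_div, div_le_iff₀ hNR]
  refine (hcov N).trans ?_
  have h5 := hcount N
  rw [pow_one] at h5
  have h6 : (K / Real.log ((Y : ℝ) / 2) + (Y : ℝ) / (N : ℝ)) * N = K * N / Real.log ((Y : ℝ) / 2) + Y := by
    field_simp
  rw [h6]
  linarith

end Pool.Agent.R468.LL
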