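import Pool.Agent.R468.LL.Lev

/-!
Local limit law of the heights, part 7: the upper and the lower functions are close.
-/

set_option autoImplicit false

namespace Pool.Agent.R468.LL

open Filter Topology Finset
open Pool.Agent.H499R2.LT
open Pool.Agent.H499R2.ND (Td HD G pos mem_pos)

theorem one_sub_rpow {x : ℝ} (hx : 0 ≤ x) : 1 - (2 : ℝ) ^ (-x) ≤ x := by
  rw [Real.rpow_def_of_pos (by norm_num)]
  have h1 := Real.add_one_le_exp (Real.log 2 * -x)
  have := Real.log_two_lt_d9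
  nlinarith

theorem phi_sub {z1 z2 t : ℝ} (h : |z1 - z2| ≤ t) : phi z1 - phi z2 ≤ t ∨ ∃ m : ℤ, |z1 - m| ≤ t := by
  have ht : 0 ≤ t := (abs_nonneg _).trans h
  have hab := abs_le.1 h
  rcases lt_trichotomy ⌊z1⌋ ⌊z2⌋ with h1 | h1 | h1
  · right
    refine ⟨⌊z2⌋, ?_⟩
    have h2 : z1 < ⌊z2⌋ := Int.floor_lt.1 h1
    have h3 := Int.floor_le z2
    rw [abs_le]
    constructor <;> linarith
  · left
    have hf : Int.fract z2 - Int.fract z1 = z2 - z1 := by
      rw [Int.fract, Int.fract, h1]; ring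
    have h5 := phi_le z1
    have h6 := phi_pos z1
    unfold phi at *
    rcases le_total (Int.fract z2) (Int.fract z1) with h2 | h2
    · have : (2 : ℝ) ^ (-Int.fract z1) ≤ (2 : ℝ) ^ (-Int.fract z2) :=
        Real.rpow_le_rpow_of_exponent_le (by norm_num) (by linarith)
      linarith
    · have h3 : (2 : ℝ) ^ (-Int.fract z2) =
          (2 : ℝ) ^ (-Int.fract z1) * (2 : ℝ) ^ (-(Int.fract z2 - Int.fract z1)) := by
        rw [← Real.rpow_add (by norm_num)]; congr 1; ring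
      have h4 := one_sub_rpow (sub_nonneg.2 h2)
      rw [h3]
      have h7 : (2 : ℝ) ^ (-Int.fract z1) * (1 - (2 : ℝ) ^ (-(Int.fract z2 - Int.fract z1))) ≤
          1 * (Int.fract z2 - Int.fract z1) :=
        mul_le_mul h5 h4 (by
          have : (2 : ℝ) ^ (-(Int.fract z2 - Int.fract z1)) ≤ 1 :=
            Real.rpow_le_one_of_one_le_of_nonpos (by norm_num) (by linarith)
          linarith) (by norm_num)
      linarith
  · right
    refine ⟨⌊z1⌋, ?_⟩
    have h2 : z2 < ⌊z1⌋ := Int.floor_lt.1 h1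
    have h3 := Int.floor_le z1
    rw [abs_le]
    constructor <;> linarith

theorem exp_r {r : ℝ} (h0 : 0 ≤ r) (h1 : r ≤ 1 / 10) :
    Real.exp r - Real.exp (-r) ≤ 3 * r ∧ Real.exp r * (1 + 2 * r) ≤ 2 := by
  have e1 : 1 - r ≤ Real.exp (-r) := by linarith [Real.add_one_le_exp (-r)]
  have e2 : Real.exp r ≤ 1 + 2 * r := by
    have h1 := Real.exp_bound' (x := r) h0 (by linarith) (n := 1) (by norm_num)
    simp at h1
    linarith
  constructor
  · linarith
  · nlinarith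

theorem bw_nonneg {u : ℤ → ℝ} (hu : ∀ g, 0 ≤ u g) (g : ℤ) : 0 ≤ bw u g := by
  unfold bw
  have := hu g
  positivity

theorem osc_bound {Y : ℕ} {r : ℝ} {u δ : ℤ → ℝ} (L : Lvl Y r u δ) (hr : r ≤ 1 / 10)
    (hbw : ∀ g ∈ GG Y, bw u g ≤ cst * (Real.exp r * (1 + 2 * r)) * δ g) {D : ℝ} (hD : ∑ g ∈ GG Y, δ g = D)
    {B s s' : ℝ} (hs : |s' - s| * Real.log 2 ≤ r)
    (hB : ∀ S : Finset ℤ, (∀ g ∈ S, g ∈ GG Y ∧
      ∃ m : ℤ, |s' * Real.log 2 - lV g - m * Real.log 2| ≤ 4 * r) → ∑ g ∈ S, δ g ≤ B) :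
    UY u Y r s' - UY u Y (-r) s ≤ 2 * cst * (8 * r * D + B) := by
  classical
  have hl2 : 0 < Real.log 2 := Real.log_pos (by norm_num)
  have hl2' := Real.log_two_gt_d9
  have hr0 := L.r0
  obtain ⟨he1, he2⟩ := exp_r hr0 hr
  have hcst := cst_pos
  set t : ℝ := 3 * r / Real.log 2 with ht
  have ht0 : 0 ≤ t := by positivity
  have ht5 : t ≤ 5 * r := by
    rw [ht, div_le_iff₀ hl2]
    nlinarith
  set S := (GG Y).filter (fun g => ∃ m : ℤ, |s' * Real.log 2 - lV g - m * Real.log 2| ≤ 4 * r) with hS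
  have hterm : ∀ g ∈ GG Y, bw u g * (Real.exp r * phi (s' - (lV g - r) / Real.log 2)) -
      bw u g * (Real.exp (-r) * phi (s - (lV g - -r) / Real.log 2)) ≤
      bw u g * (8 * r) + (if ∃ m : ℤ, |s' * Real.log 2 - lV g - m * Real.log 2| ≤ 4 * r then bw u g else 0) := by
    intro g _
    have hb := bw_nonneg L.u0 g
    set z1 := s' - (lV g - r) / Real.log 2 with hz1
    set z2 := s - (lV g - -r) / Real.log 2 with hz2
    have hz : |z1 - z2| ≤ t := by
      have e : z1 - z2 = (s' - s) + 2 * r / Real.log 2 := by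
        rw [hz1, hz2]; field_simp; ring
      rw [e]
      refine (abs_add_le _ _).trans ?_
      rw [abs_of_nonneg (show 0 ≤ 2 * r / Real.log 2 by positivity)]
      have h1 : |s' - s| ≤ r / Real.log 2 := by rw [le_div_iff₀ hl2]; exact hs
      rw [ht]
      have h2 : 3 * r / Real.log 2 = r / Real.log 2 + 2 * r / Real.log 2 := by ring
      linarith
    have p1 := phi_le z1
    have p2 := phi_pos z1
    have p3 := phi_le z2
    have p4 := phi_pos z2
    have hE := Real.exp_pos (-r)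
    have hE1 : Real.exp (-r) ≤ 1 := Real.exp_le_one_iff.2 (by linarith)
    have hE2 : 0 ≤ Real.exp r - Real.exp (-r) := by
      have := Real.exp_le_exp.2 (show -r ≤ r by linarith)
      linarith
    have hsplit : Real.exp r * phi z1 - Real.exp (-r) * phi z2 =
        (Real.exp r - Real.exp (-r)) * phi z1 + Real.exp (-r) * (phi z1 - phi z2) := by ring
    have hA : (Real.exp r - Real.exp (-r)) * phi z1 ≤ 3 * r * 1 :=
      mul_le_mul he1 p1 p2.le (by linarith)
    rw [← mul_sub, hsplit]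
    rcases phi_sub hz with h1 | ⟨m, hm⟩
    · have h2 : Real.exp (-r) * (phi z1 - phi z2) ≤ t := by
        rcases le_or_gt (phi z1 - phi z2) 0 with h3 | h3
        · have : Real.exp (-r) * (phi z1 - phi z2) ≤ 0 := mul_nonpos_of_nonneg_of_nonpos hE.le h3
          linarith
        · have : Real.exp (-r) * (phi z1 - phi z2) ≤ 1 * (phi z1 - phi z2) :=
            mul_le_mul_of_nonneg_right hE1 h3.le
          linarith
      have h4 : bw u g * ((Real.exp r - Real.exp (-r)) * phi z1 + Real.exp (-r) * (phi z1 - phi z2)) ≤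
          bw u g * (8 * r) := mul_le_mul_of_nonneg_left (by linarith) hb
      have h5 : 0 ≤ (if ∃ m : ℤ, |s' * Real.log 2 - lV g - m * Real.log 2| ≤ 4 * r then bw u g else 0) := by
        split_ifs
        · exact hb
        · exact le_rfl
      linarith
    · have hbad : ∃ m : ℤ, |s' * Real.log 2 - lV g - m * Real.log 2| ≤ 4 * r := by
        refine ⟨m, ?_⟩
        have e : s' * Real.log 2 - lV g - m * Real.log 2 = (z1 - m) * Real.log 2 - r := by
          rw [hz1]; field_simp; ring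
        rw [e]
        refine (abs_sub _ _).trans ?_
        rw [abs_mul, abs_of_pos hl2, abs_of_nonneg hr0]
        have : |z1 - m| * Real.log 2 ≤ t * Real.log 2 := mul_le_mul_of_nonneg_right hm hl2.le
        have h3 : t * Real.log 2 = 3 * r := by rw [ht]; field_simp
        linarith
      rw [if_pos hbad]
      have h2 : Real.exp (-r) * (phi z1 - phi z2) ≤ 1 := by
        have h3 : phi z1 - phi z2 ≤ 1 := by linarith
        calc Real.exp (-r) * (phi z1 - phi z2) ≤ Real.exp (-r) * 1 := mul_le_mul_of_nonneg_left h3 hE.le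
          _ ≤ 1 := by linarith
      have h4 : bw u g * ((Real.exp r - Real.exp (-r)) * phi z1 + Real.exp (-r) * (phi z1 - phi z2)) ≤
          bw u g * (8 * r + 1) := mul_le_mul_of_nonneg_left (by linarith) hb
      linarith
  have hsum : UY u Y r s' - UY u Y (-r) s ≤ ∑ g ∈ GG Y, bw u g * (8 * r) + ∑ g ∈ S, bw u g := by
    unfold UY
    rw [← sum_sub_distrib, hS, sum_filter, ← sum_add_distrib]
    exact sum_le_sum hterm
  have hδ0 : ∀ g, 0 ≤ δ g := fun g => hd_nn (L.den g)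
  have hbw2 : ∀ g ∈ GG Y, bw u g ≤ 2 * cst * δ g := by
    intro g hg
    refine (hbw g hg).trans ?_
    have h1 : cst * (Real.exp r * (1 + 2 * r)) ≤ cst * 2 := mul_le_mul_of_nonneg_left he2 hcst.le
    have h2 := mul_le_mul_of_nonneg_right h1 (hδ0 g)
    linarith
  have h1 : ∑ g ∈ GG Y, bw u g * (8 * r) ≤ 2 * cst * (8 * r * D) := by
    rw [← hD, ← sum_mul]
    have h2 : ∑ g ∈ GG Y, bw u g ≤ 2 * cst * ∑ g ∈ GG Y, δ g := by
      rw [mul_sum]; exact sum_le_sum hbw2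
    calc (∑ g ∈ GG Y, bw u g) * (8 * r) ≤ (2 * cst * ∑ g ∈ GG Y, δ g) * (8 * r) :=
          mul_le_mul_of_nonneg_right h2 (by positivity)
      _ = _ := by ring
  have h2 : ∑ g ∈ S, bw u g ≤ 2 * cst * B := by
    have h3 : ∑ g ∈ S, δ g ≤ B := by
      apply hB
      intro g hg
      rw [hS, mem_filter] at hg
      exact hg
    calc ∑ g ∈ S, bw u g ≤ ∑ g ∈ S, 2 * cst * δ g :=
          sum_le_sum fun g hg => hbw2 g (mem_filter.1 hg).1
      _ = 2 * cst * ∑ g ∈ S, δ g := by rw [mul_sum]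
      _ ≤ 2 * cst * B := mul_le_mul_of_nonneg_left h3 (by positivity)
  calc _ ≤ _ := hsum
    _ ≤ 2 * cst * (8 * r * D) + 2 * cst * B := add_le_add h1 h2
    _ = _ := by ring

/-- the complete data -/
structure Dat (Y0 : ℕ) (C D : ℝ) (u δ : ℕ → ℤ → ℝ) (η : ℕ → ℝ) : Prop where
  lvl : ∀ Y, Y0 ≤ Y → Lvl Y (rad C Y) (u Y) (δ Y)
  rpos : ∀ Y, Y0 ≤ Y → 0 < rad C Y
  rle : ∀ Y, Y0 ≤ Y → rad C Y ≤ 1 / 10
  lo : ∀ Y, Y0 ≤ Y → ∀ g ∈ GG Y, cst * (Real.exp (-rad C Y) * (1 - 2 * rad C Y)) * δ Y g ≤ bw (u Y) g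
  up : ∀ Y, Y0 ≤ Y → ∀ g ∈ GG Y, bw (u Y) g ≤ cst * (Real.exp (rad C Y) * (1 + 2 * rad C Y)) * δ Y g
  sum : ∀ Y, Y0 ≤ Y → ∑ g ∈ GG Y, δ Y g = D
  eta : Tendsto η atTop (𝓝 0)
  osc : ∀ Y, Y0 ≤ Y → ∀ s s' : ℝ, |s' - s| * Real.log 2 ≤ rad C Y →
    UY (u Y) Y (rad C Y) s' - UY (u Y) Y (-rad C Y) s ≤ η Y

theorem dat_exists {D : ℝ} (hD : HD 1 P1 D) : ∃ (Y0 : ℕ) (C : ℝ) (u δ : ℕ → ℤ → ℝ) (η : ℕ → ℝ),
    Dat Y0 C D u δ η := by
  obtain ⟨C, Y0, u, δ, hC, hY0, h⟩ := fam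
  obtain ⟨K, Y1, hK, hY1, hbad⟩ := bad_mass (4 * C) (by positivity)
  have hlog : Tendsto (fun Y : ℕ => Real.log ((Y : ℝ) / 2)) atTop atTop :=
    Real.tendsto_log_atTop.comp (tendsto_natCast_atTop_atTop.atTop_div_const (by norm_num))
  have heta : Tendsto (fun Y : ℕ => 2 * cst * (8 * rad C Y * D + K / Real.log ((Y : ℝ) / 2))) atTop
      (𝓝 (2 * cst * (8 * 0 * D + 0))) :=
    ((((rad_lim C).const_mul 8).mul_const D).add (tendsto_const_nhds.div_atTop hlog)).const_mul (2 * cst)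
  have h0 : (2 * cst * (8 * 0 * D + 0) : ℝ) = 0 := by ring
  rw [h0] at heta
  refine ⟨max Y0 Y1, C, u, δ, fun Y => 2 * cst * (8 * rad C Y * D + K / Real.log ((Y : ℝ) / 2)), ?_⟩
  refine ⟨fun Y hY => (h Y ((le_max_left _ _).trans hY)).1, fun Y hY => (h Y ((le_max_left _ _).trans hY)).2.1,
    fun Y hY => (h Y ((le_max_left _ _).trans hY)).2.2.1,
    fun Y hY g hg => ((h Y ((le_max_left _ _).trans hY)).2.2.2 g hg).1,
    fun Y hY g hg => ((h Y ((le_max_left _ _).trans hY)).2.2.2 g hg).2,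
    fun Y hY => mass (h Y ((le_max_left _ _).trans hY)).1.Y1 (h Y ((le_max_left _ _).trans hY)).1.den hD,
    heta, ?_⟩
  intro Y hY s s' hs
  obtain ⟨hL, hr0, hr1, hbw⟩ := h Y ((le_max_left _ _).trans hY)
  apply osc_bound hL hr1 (fun g hg => (hbw g hg).2) (mass hL.Y1 hL.den hD) hs
  intro S hS
  apply hbad Y ((le_max_right _ _).trans hY) s' (δ Y) hL.den S
  intro g hg
  obtain ⟨h1, m, hm⟩ := hS g hg
  refine ⟨h1, m, hm.trans (le_of_eq ?_)⟩
  unfold rad
  ring

end Pool.Agent.R468.LL
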