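import Pool.Agent.R468.LL.Split
import Pool.Agent.R344.TH.F
import Pool.Agent.H828R3.Exc.Law

/-!
Local limit law of the heights, part 4: the elements `g` up to `Y` for which `lV g / log 2` is close to
a given number modulo one are rare.
-/

set_option autoImplicit false

namespace Pool.Agent.R468.LL

open Filter Topology Finset
open Pool.Agent.H499R2.LT
open Pool.Agent.H499R2.ND (Td HD G pos mem_pos)
open Pool.Agent.Helper894.Collatz (T)
open Pool.Agent.H828R3.Exc (Pr)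
open Pool.Agent.H319R2.Lln (mu)

/-- the bad elements -/
def Bad (Y : ℕ) (s ρ : ℝ) : Set ℤ :=
  {g : ℤ | (Y : ℝ) / 2 ≤ g ∧ (g : ℝ) ≤ Y ∧ g ∈ P1 ∧
    ∃ m : ℤ, |s * Real.log 2 - lV g - m * Real.log 2| ≤ ρ}

theorem icount {A B : ℝ} (hAB : A ≤ B) (S : Finset ℤ) (h : ∀ x ∈ S, A ≤ x ∧ (x : ℝ) ≤ B) :
    (S.card : ℝ) ≤ B - A + 1 := by
  rcases S.eq_empty_or_nonempty with rfl | ⟨x, hx⟩
  · simp; linarith
  have hsub : S ⊆ Icc ⌈A⌉ ⌊B⌋ := by
    intro z hz
    rw [mem_Icc, Int.ceil_le, Int.le_floor]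
    exact h z hz
  have h1 := card_le_card hsub
  rw [Int.card_Icc] at h1
  have h2 : ⌈A⌉ ≤ ⌊B⌋ := by
    have := hsub hx
    rw [mem_Icc] at this
    omega
  have h3 : ((⌊B⌋ + 1 - ⌈A⌉).toNat : ℝ) = (⌊B⌋ : ℝ) + 1 - ⌈A⌉ := by
    have : (((⌊B⌋ + 1 - ⌈A⌉).toNat : ℤ) : ℝ) = ((⌊B⌋ + 1 - ⌈A⌉ : ℤ) : ℝ) := by
      rw [Int.toNat_of_nonneg (by omega)]
    push_cast at this
    exact_mod_cast this
  have h4 : (S.card : ℝ) ≤ ((⌊B⌋ + 1 - ⌈A⌉).toNat : ℝ) := by exact_mod_cast h1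
  rw [h3] at h4
  linarith [Int.floor_le B, Int.le_ceil A]

theorem class_count {Y : ℕ} (hY : 2 ≤ Y) {w ρ : ℝ} (hρ0 : 0 ≤ ρ) (hρ : 2 * ρ ≤ Real.log 2) (S : Finset ℤ)
    (hS : ∀ g ∈ S, (Y : ℝ) / 2 ≤ g ∧ (g : ℝ) ≤ Y ∧ ∃ m : ℤ, |w - Real.log g - m * Real.log 2| ≤ ρ) :
    (S.card : ℝ) ≤ 3 * (4 * ρ * Y + 1) := by
  classical
  have hl2 : 0 < Real.log 2 := Real.log_pos (by norm_num)
  have hYR : (2 : ℝ) ≤ Y := by exact_mod_cast hY
  set m0 : ℤ := ⌈(w - Real.log Y - ρ) / Real.log 2⌉ with hm0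
  have hm0' : (w - Real.log Y - ρ) / Real.log 2 ≤ m0 := Int.le_ceil _
  have hm0'' : (m0 : ℝ) < (w - Real.log Y - ρ) / Real.log 2 + 1 := Int.ceil_lt_add_one _
  rw [div_le_iff₀ hl2] at hm0'
  have hcover : S ⊆ (Icc m0 (m0 + 2)).biUnion
      (fun m => S.filter (fun g : ℤ => |w - Real.log g - m * Real.log 2| ≤ ρ)) := by
    intro g hg
    obtain ⟨h1, h2, m, hm⟩ := hS g hg
    rw [mem_biUnion]
    have hg0 : (0 : ℝ) < g := by linarith
    have hlg1 : Real.log g ≤ Real.log Y := Real.log_le_log hg0 h2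
    have hlg2 : Real.log Y - Real.log 2 ≤ Real.log g := by
      rw [← Real.log_div (by linarith) (by norm_num)]
      exact Real.log_le_log (by linarith) h1
    have hma := (abs_le.1 hm).1
    have hmb := (abs_le.1 hm).2
    refine ⟨m, ?_, mem_filter.2 ⟨hg, hm⟩⟩
    rw [mem_Icc]
    constructor
    · rw [hm0, Int.ceil_le, div_le_iff₀ hl2]
      linarith
    · have h3 : (m : ℝ) * Real.log 2 ≤ (m0 + 2 : ℝ) * Real.log 2 := by
        nlinarith
      have h4 : (m : ℝ) ≤ m0 + 2 := le_of_mul_le_mul_right h3 hl2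
      exact_mod_cast h4
  have hone : ∀ m ∈ Icc m0 (m0 + 2),
      ((S.filter (fun g : ℤ => |w - Real.log g - m * Real.log 2| ≤ ρ)).card : ℝ) ≤ 4 * ρ * Y + 1 := by
    intro m _
    rcases (S.filter (fun g : ℤ => |w - Real.log g - m * Real.log 2| ≤ ρ)).eq_empty_or_nonempty with h0 | ⟨g0, hg0⟩
    · rw [h0, card_empty, Nat.cast_zero]; positivity
    have hint : ∀ g ∈ S.filter (fun g : ℤ => |w - Real.log g - m * Real.log 2| ≤ ρ),
        Real.exp (w - m * Real.log 2 - ρ) ≤ g ∧ (g : ℝ) ≤ Real.exp (w - m * Real.log 2 + ρ) := by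
      intro g hg
      rw [mem_filter] at hg
      have h1 := (hS g hg.1).1
      have hg0 : (0 : ℝ) < g := by linarith
      have h2 := abs_le.1 hg.2
      constructor
      · rw [← Real.le_log_iff_exp_le hg0]; linarith
      · rw [← Real.log_le_iff_le_exp hg0]; linarith
    have h1 := icount (Real.exp_le_exp.2 (by linarith)) _ hint
    have h2 : Real.exp (w - m * Real.log 2 - ρ) ≤ Y :=
      (hint g0 hg0).1.trans (hS g0 (mem_filter.1 hg0).1).2.1
    have h3 : Real.exp (w - m * Real.log 2 + ρ) = Real.exp (w - m * Real.log 2 - ρ) * Real.exp (2 * ρ) := by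
      rw [← Real.exp_add]; congr 1; ring
    have h4 : Real.exp (2 * ρ) ≤ 2 := by
      have := Real.exp_le_exp.2 hρ
      rwa [Real.exp_log (by norm_num)] at this
    have h5 : Real.exp (2 * ρ) - 1 ≤ 2 * (2 * ρ) := by
      have h6 : Real.exp (-(2 * ρ)) * Real.exp (2 * ρ) = 1 := by rw [← Real.exp_add]; simp
      have h7 := Real.add_one_le_exp (-(2 * ρ))
      have h8 := Real.exp_pos (2 * ρ)
      nlinarith
    have h9 := Real.exp_pos (w - m * Real.log 2 - ρ)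
    have h10 : 0 ≤ Real.exp (2 * ρ) - 1 := by
      have := Real.add_one_le_exp (2 * ρ)
      linarith
    have h11 : Real.exp (w - m * Real.log 2 - ρ) * (Real.exp (2 * ρ) - 1) ≤ Y * (2 * (2 * ρ)) :=
      mul_le_mul h2 h5 h10 (by linarith)
    rw [h3] at h1
    linarith
  have hc : (Icc m0 (m0 + 2)).card = 3 := by rw [Int.card_Icc]; omega
  calc (S.card : ℝ) ≤ (((Icc m0 (m0 + 2)).biUnion
      (fun m => S.filter (fun g : ℤ => |w - Real.log g - m * Real.log 2| ≤ ρ))).card : ℝ) := by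
        exact_mod_cast card_le_card hcover
    _ ≤ ((∑ m ∈ Icc m0 (m0 + 2), (S.filter (fun g : ℤ => |w - Real.log g - m * Real.log 2| ≤ ρ)).card : ℕ) : ℝ) := by
        exact_mod_cast card_biUnion_le
    _ ≤ ∑ m ∈ Icc m0 (m0 + 2), (4 * ρ * Y + 1) := by
        push_cast
        exact sum_le_sum hone
    _ = _ := by rw [sum_const, hc]; simp only [nsmul_eq_mul]; push_cast; ring

/-! ### the structure of the number of odd terms -/

theorem od_bd (j : ℕ) (x : ℤ) : 0 ≤ od 1 j x ∧ od 1 j x ≤ j := by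
  induction j generalizing x with
  | zero => simp [od]
  | succ j ih =>
    obtain ⟨h1, h2⟩ := ih (Td 1 x)
    rw [od]
    push_cast
    split_ifs <;> constructor <;> omega

theorem Td_cast (n : ℕ) : Td 1 (n : ℤ) = ((T n : ℕ) : ℤ) := by
  unfold Td T
  by_cases h : n % 2 = 0
  · rw [if_pos (by omega), if_pos h]; omega
  · rw [if_neg (by omega), if_neg h]; omega

theorem iter_cast (n i : ℕ) : (Td 1)^[i] (n : ℤ) = ((T^[i] n : ℕ) : ℤ) := by
  induction i with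
  | zero => rfl
  | succ i ih => rw [Function.iterate_succ_apply', ih, Td_cast, Function.iterate_succ_apply']

theorem hit_one : Hit 1 F1 1 1 0 := ⟨rfl, by unfold F1; simp, fun i hi => absurd hi (by omega)⟩

theorem one_mem : (1 : ℤ) ∈ P1 := ⟨0, hit_one⟩

theorem hO_one : hO 1 = 0 := by
  unfold hO
  rw [hT_eq hit_one]
  rfl

theorem hO_struct {g : ℕ} (hg : 1 ≤ g) (hP : (g : ℤ) ∈ P1) {y V : ℝ} (hy : 1 ≤ y)
    (hPr : Pr (1 / 2) y V g) : ∃ (o : ℕ) (f : ℤ), (o : ℝ) ≤ 11 * Real.log g ∧ 1 ≤ f ∧ (f : ℝ) ≤ y ∧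
      hO g = o + hO f := by
  obtain ⟨m, hm1, hm2⟩ := hPr
  obtain ⟨k, hk⟩ := hP
  have hmu := Pool.Agent.H319R2.Lln.mu_lower
  have hl2 := Real.log_two_gt_d9
  have hgR : (1 : ℝ) ≤ g := by exact_mod_cast hg
  have hlg : 0 ≤ Real.log g := Real.log_nonneg hgR
  have hTm : 1 ≤ T^[m] g := by
    have h1 : 0 < (Td 1)^[m] (g : ℤ) := iter_pos (by omega) m
    rw [iter_cast] at h1
    omega
  have hTmR : (1 : ℝ) ≤ ((T^[m] g : ℕ) : ℝ) := by exact_mod_cast hTm
  have hmb : (m : ℝ) ≤ 11 * Real.log g := by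
    have h1 := (abs_le.1 (hm2 m le_rfl).1).2
    have h2 := Real.log_nonneg hTmR
    have hm0 : (0 : ℝ) ≤ m := Nat.cast_nonneg m
    nlinarith
  have hhO : hO g = od 1 k g := by unfold hO; rw [hT_eq hk]
  rcases le_or_gt m k with h | h
  · refine ⟨(od 1 m g).toNat, (Td 1)^[m] (g : ℤ), ?_, ?_, ?_, ?_⟩
    · have h1 := od_bd m g
      have h2 : ((od 1 m g).toNat : ℝ) ≤ m := by
        have : (od 1 m g).toNat ≤ m := by omega
        exact_mod_cast this
      linarith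
    · have := iter_pos (n := (g : ℤ)) (by omega) m
      omega
    · rw [iter_cast]
      push_cast
      exact hm1
    · have h1 := od_bd m g
      have h2 : Hit 1 F1 1 ((Td 1)^[m] (g : ℤ)) (k - m) := by
        refine ⟨?_, hk.2.1, ?_⟩
        · rw [← Function.iterate_add_apply, Nat.sub_add_cancel h]; exact hk.1
        · intro i hi
          rw [← Function.iterate_add_apply]
          exact hk.2.2 (i + m) (by omega)
      have h3 : hO ((Td 1)^[m] (g : ℤ)) = od 1 (k - m) ((Td 1)^[m] (g : ℤ)) := by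
        unfold hO; rw [hT_eq h2]
      rw [hhO, h3, Int.toNat_of_nonneg h1.1, ← od_add]
      congr 1
      omega
  · refine ⟨(od 1 k g).toNat, 1, ?_, le_rfl, by simpa using hy, ?_⟩
    · have h1 := od_bd k g
      have h2 : ((od 1 k g).toNat : ℝ) ≤ m := by
        have : (od 1 k g).toNat ≤ m := by omega
        exact_mod_cast this
      linarith
    · have h1 := od_bd k g
      rw [hhO, hO_one, Int.toNat_of_nonneg h1.1, add_zero]

/-- the number of bad elements -/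
theorem bad_count (A : ℝ) (hA : 0 ≤ A) : ∃ C κ : ℝ, 0 < C ∧ 0 < κ ∧ ∀ (Y : ℕ) (s : ℝ), 3 ≤ Y →
    2 * (A / (Y : ℝ) ^ (1 / 25 : ℝ)) ≤ Real.log 2 → ∀ S : Finset ℤ,
      (∀ g ∈ S, g ∈ Bad Y s (A / (Y : ℝ) ^ (1 / 25 : ℝ))) →
      (S.card : ℝ) ≤ C * (Real.log Y) ^ 4 * (Y : ℝ) ^ (1 - κ) := by
  classical
  obtain ⟨c, C1, hc, hC1, hlaw⟩ := Pool.Agent.H828R3.Exc.law (ε := 1 / 2) (by norm_num)
  set κ : ℝ := min (c / 50) (1 / 50) with hκ
  have hκ0 : 0 < κ := lt_min (by positivity) (by norm_num)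
  have hκ1 : κ ≤ c / 50 := min_le_left _ _
  have hκ2 : κ ≤ 1 / 50 := min_le_right _ _
  refine ⟨2 * C1 + 12 * (12 * A + 3), κ, by positivity, hκ0, ?_⟩
  intro Y s hY hρ S hS
  have hYR : (3 : ℝ) ≤ Y := by exact_mod_cast hY
  have hY0 : (0 : ℝ) < Y := by linarith
  have hY1 : (1 : ℝ) ≤ Y := by linarith
  set L : ℝ := Real.log Y with hL
  have hL1 : 1 ≤ L := by
    rw [hL, Real.le_log_iff_exp_le hY0]
    linarith [Real.exp_one_lt_d9]
  set y : ℝ := (Y : ℝ) ^ (1 / 50 : ℝ) with hy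
  have hy1 : 1 ≤ y := Real.one_le_rpow hY1 (by norm_num)
  set ρ : ℝ := A / (Y : ℝ) ^ (1 / 25 : ℝ) with hρdef
  have hρ0 : 0 ≤ ρ := by positivity
  -- the exceptions
  have hE : ((S.filter (fun g : ℤ => ¬ Pr (1 / 2) y ((Y : ℝ) ^ 2) g.toNat)).card : ℝ) ≤
      2 * C1 * L ^ 4 * (Y : ℝ) ^ (1 - κ) := by
    have h1 := hlaw Y y ((Y : ℝ) ^ 2) (by linarith) hy1 (by nlinarith)
    have hfin : {n : ℕ | 1 ≤ n ∧ (n : ℝ) ≤ Y ∧ ¬ Pr (1 / 2) y ((Y : ℝ) ^ 2) n}.Finite := by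
      apply (Set.finite_Icc 1 Y).subset
      intro n hn
      exact ⟨hn.1, by exact_mod_cast hn.2.1⟩
    have h2 : (S.filter (fun g : ℤ => ¬ Pr (1 / 2) y ((Y : ℝ) ^ 2) g.toNat)).card ≤
        {n : ℕ | 1 ≤ n ∧ (n : ℝ) ≤ Y ∧ ¬ Pr (1 / 2) y ((Y : ℝ) ^ 2) n}.ncard := by
      rw [← Set.ncard_coe_finset]
      apply Set.ncard_le_ncard_of_injOn (fun g : ℤ => g.toNat) _ _ hfin
      · intro g hg
        rw [mem_coe, mem_filter] at hg
        have h3 := hS g hg.1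
        have h4 : (0 : ℝ) < g := by have := h3.1; linarith
        have h5 : 0 < g := by exact_mod_cast h4
        have h6 : ((g.toNat : ℕ) : ℝ) = g := by
          have : ((g.toNat : ℕ) : ℤ) = g := Int.toNat_of_nonneg h5.le
          exact_mod_cast this
        exact ⟨by omega, by rw [h6]; exact h3.2.1, hg.2⟩
      · intro g hg g' hg' he
        rw [mem_coe, mem_filter] at hg hg'
        have h3 := (hS g hg.1).1
        have h3' := (hS g' hg'.1).1
        have h4 : (0 : ℝ) < g := by linarith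
        have h4' : (0 : ℝ) < g' := by linarith
        have h5 : 0 < g := by exact_mod_cast h4
        have h5' : 0 < g' := by exact_mod_cast h4'
        simp only at he
        omega
    have h3 : ((S.filter (fun g : ℤ => ¬ Pr (1 / 2) y ((Y : ℝ) ^ 2) g.toNat)).card : ℝ) ≤
        C1 * L ^ 4 * ((Y : ℝ) / y ^ c + (Y : ℝ) ^ 2 / (Y : ℝ) ^ 2) := by
      refine le_trans (by exact_mod_cast h2) h1
    refine h3.trans ?_
    have h4 : (Y : ℝ) / y ^ c ≤ (Y : ℝ) ^ (1 - κ) := by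
      rw [hy, ← Real.rpow_mul hY0.le, div_eq_mul_inv, ← Real.rpow_neg hY0.le]
      calc (Y : ℝ) * (Y : ℝ) ^ (-(1 / 50 * c)) = (Y : ℝ) ^ (1 + -(1 / 50 * c)) := by
            rw [Real.rpow_add hY0, Real.rpow_one]
        _ ≤ (Y : ℝ) ^ (1 - κ) := Real.rpow_le_rpow_of_exponent_le hY1 (by linarith)
    have h5 : (Y : ℝ) ^ 2 / (Y : ℝ) ^ 2 ≤ (Y : ℝ) ^ (1 - κ) := by
      rw [div_self (by positivity)]
      exact Real.one_le_rpow hY1 (by linarith)
    have h6 : 0 ≤ C1 * L ^ 4 := by positivity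
    nlinarith [mul_le_mul_of_nonneg_left (add_le_add h4 h5) h6]
  -- the fibres
  set N1 : ℕ := ⌊11 * L⌋₊ with hN1
  have hcover : S ⊆ (S.filter (fun g : ℤ => ¬ Pr (1 / 2) y ((Y : ℝ) ^ 2) g.toNat)) ∪
      ((range (N1 + 1)) ×ˢ (Icc (1 : ℤ) ⌊y⌋)).biUnion
        (fun q => S.filter (fun g : ℤ => hO g = (q.1 : ℤ) + hO q.2)) := by
    intro g hg
    rw [mem_union]
    by_cases hPr : Pr (1 / 2) y ((Y : ℝ) ^ 2) g.toNat
    · right
      obtain ⟨h1, h2, h3, _⟩ := hS g hg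
      have h4 : (0 : ℝ) < g := by linarith
      have h5 : 0 < g := by exact_mod_cast h4
      have h6 : ((g.toNat : ℕ) : ℤ) = g := Int.toNat_of_nonneg h5.le
      have h6R : ((g.toNat : ℕ) : ℝ) = g := by exact_mod_cast h6
      obtain ⟨o, f, ho, hf1, hf2, he⟩ := hO_struct (g := g.toNat) (by omega) (by rw [h6]; exact h3) hy1 hPr
      rw [h6] at he
      rw [h6R] at ho
      rw [mem_biUnion]
      refine ⟨(o, f), ?_, ?_⟩
      · rw [mem_product, mem_range, mem_Icc, Int.le_floor]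
        refine ⟨?_, hf1, hf2⟩
        rw [Nat.lt_succ_iff]
        apply Nat.le_floor
        have : Real.log g ≤ L := Real.log_le_log h4 h2
        linarith
      · rw [mem_filter]
        exact ⟨hg, he⟩
    · left
      rw [mem_filter]
      exact ⟨hg, hPr⟩
  have hfib : ∀ q ∈ (range (N1 + 1)) ×ˢ (Icc (1 : ℤ) ⌊y⌋),
      ((S.filter (fun g : ℤ => hO g = (q.1 : ℤ) + hO q.2)).card : ℝ) ≤ 3 * (4 * ρ * Y + 1) := by
    intro q _
    apply class_count (by omega) hρ0 hρ (w := s * Real.log 2 - ((q.1 : ℤ) + hO q.2 : ℤ) * Real.log 3)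
    intro g hg
    rw [mem_filter] at hg
    obtain ⟨h1, h2, _, m, hm⟩ := hS g hg.1
    refine ⟨h1, h2, m - hT g, ?_⟩
    unfold lV at hm
    rw [hg.2] at hm
    have e1 : s * Real.log 2 - ((q.1 : ℤ) + hO q.2 : ℤ) * Real.log 3 - Real.log g - ((m - hT g : ℤ) : ℝ) * Real.log 2
        = s * Real.log 2 - (Real.log g + ((q.1 : ℤ) + hO q.2 : ℤ) * Real.log 3 - hT g * Real.log 2) - m * Real.log 2 := by
      push_cast; ring
    rw [e1]
    exact hm
  have hcardP : (((range (N1 + 1)) ×ˢ (Icc (1 : ℤ) ⌊y⌋)).card : ℝ) ≤ 12 * L * y := by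
    rw [card_product, card_range, Int.card_Icc]
    have h1 : ((⌊y⌋ + 1 - 1).toNat : ℝ) ≤ y := by
      have h2 : (0 : ℤ) ≤ ⌊y⌋ := Int.floor_nonneg.2 (by linarith)
      have h3 : ((⌊y⌋ + 1 - 1).toNat : ℝ) = (⌊y⌋ : ℝ) := by
        have : (((⌊y⌋ + 1 - 1).toNat : ℤ) : ℝ) = ((⌊y⌋ : ℤ) : ℝ) := by
          rw [Int.toNat_of_nonneg (by omega)]; push_cast; ring
        exact_mod_cast this
      rw [h3]
      exact Int.floor_le y
    have h4 : ((N1 + 1 : ℕ) : ℝ) ≤ 12 * L := by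
      push_cast
      have := Nat.floor_le (show 0 ≤ 11 * L by linarith)
      linarith
    push_cast at h4 ⊢
    exact mul_le_mul h4 h1 (by positivity) (by linarith)
  have hF : ((((range (N1 + 1)) ×ˢ (Icc (1 : ℤ) ⌊y⌋)).biUnion
        (fun q => S.filter (fun g : ℤ => hO g = (q.1 : ℤ) + hO q.2))).card : ℝ) ≤
      12 * (12 * A + 3) * L ^ 4 * (Y : ℝ) ^ (1 - κ) := by
    calc _ ≤ ((∑ q ∈ (range (N1 + 1)) ×ˢ (Icc (1 : ℤ) ⌊y⌋),
          (S.filter (fun g : ℤ => hO g = (q.1 : ℤ) + hO q.2)).card : ℕ) : ℝ) := by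
            exact_mod_cast card_biUnion_le
      _ ≤ ∑ q ∈ (range (N1 + 1)) ×ˢ (Icc (1 : ℤ) ⌊y⌋), 3 * (4 * ρ * Y + 1) := by
            push_cast
            exact sum_le_sum hfib
      _ = (((range (N1 + 1)) ×ˢ (Icc (1 : ℤ) ⌊y⌋)).card : ℝ) * (3 * (4 * ρ * Y + 1)) := by
            rw [sum_const, nsmul_eq_mul]
      _ ≤ (12 * L * y) * (3 * (4 * ρ * Y + 1)) := by
            apply mul_le_mul_of_nonneg_right hcardP (by positivity)
      _ ≤ (12 * L ^ 4 * y) * ((12 * A + 3) * (Y : ℝ) ^ (24 / 25 : ℝ)) := by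
            have k1 : L ≤ L ^ 4 := by
              calc L = L ^ 1 := (pow_one L).symm
                _ ≤ L ^ 4 := pow_le_pow_right₀ hL1 (by norm_num)
            have k2 : ρ * Y = A * (Y : ℝ) ^ (24 / 25 : ℝ) := by
              rw [hρdef]
              have : (Y : ℝ) ^ (24 / 25 : ℝ) * (Y : ℝ) ^ (1 / 25 : ℝ) = Y := by
                rw [← Real.rpow_add hY0]; norm_num
              have h0 : (Y : ℝ) ^ (1 / 25 : ℝ) ≠ 0 := by positivity
              rw [div_mul_eq_mul_div, div_eq_iff h0, mul_assoc, this]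
            have k3 : 1 ≤ (Y : ℝ) ^ (24 / 25 : ℝ) := Real.one_le_rpow hY1 (by norm_num)
            have k4 : 3 * (4 * ρ * Y + 1) ≤ (12 * A + 3) * (Y : ℝ) ^ (24 / 25 : ℝ) := by
              have : 3 * (4 * ρ * Y + 1) = 12 * (ρ * Y) + 3 := by ring
              rw [this, k2]
              nlinarith
            apply mul_le_mul _ k4 (by positivity) (by positivity)
            apply mul_le_mul_of_nonneg_right _ (by linarith)
            linarith
      _ = 12 * (12 * A + 3) * L ^ 4 * (Y : ℝ) ^ (49 / 50 : ℝ) := by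
            have : y * (Y : ℝ) ^ (24 / 25 : ℝ) = (Y : ℝ) ^ (49 / 50 : ℝ) := by
              rw [hy, ← Real.rpow_add hY0]; norm_num
            rw [← this]; ring
      _ ≤ _ := by
            apply mul_le_mul_of_nonneg_left _ (by positivity)
            apply Real.rpow_le_rpow_of_exponent_le hY1
            linarith
  calc (S.card : ℝ) ≤ (((S.filter (fun g : ℤ => ¬ Pr (1 / 2) y ((Y : ℝ) ^ 2) g.toNat)) ∪
      ((range (N1 + 1)) ×ˢ (Icc (1 : ℤ) ⌊y⌋)).biUnion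
        (fun q => S.filter (fun g : ℤ => hO g = (q.1 : ℤ) + hO q.2))).card : ℝ) := by
        exact_mod_cast card_le_card hcover
    _ ≤ ((S.filter (fun g : ℤ => ¬ Pr (1 / 2) y ((Y : ℝ) ^ 2) g.toNat)).card : ℝ) +
      ((((range (N1 + 1)) ×ˢ (Icc (1 : ℤ) ⌊y⌋)).biUnion
        (fun q => S.filter (fun g : ℤ => hO g = (q.1 : ℤ) + hO q.2))).card : ℝ) := by
        exact_mod_cast card_union_le _ _
    _ ≤ _ := by
        have := add_le_add hE hF
        refine this.trans (le_of_eq ?_)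
        ring

end Pool.Agent.R468.LL
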