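import Pool.Agent.R468.LL.Prof
import Pool.Agent.Y966.LD.Ht
import Pool.Agent.H499R2.NDHt

/-!
Local limit law of the heights, part 9: odd integers and heights.
-/

set_option autoImplicit false

namespace Pool.Agent.R468.LL

open Filter Topology Finset
open Pool.Agent.H499R2.LT
open Pool.Agent.H499R2.ND (Td HD G pos mem_pos)
open Pool.Agent.Y966.LD (oN oN_succ' oN_zero IsHeight ht_of_lev lev_of_ht)
open Pool.Agent.H395R2.G3 (fT)

theorem fT_cast (n : ℕ) : ((fT n : ℕ) : ℤ) = Td 1 (n : ℤ) := by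
  unfold fT Td
  by_cases h : n % 2 = 0
  · rw [if_pos h, if_pos (by omega)]; omega
  · rw [if_neg h, if_neg (by omega)]; omega

theorem fT_iter (i n : ℕ) : ((fT^[i] n : ℕ) : ℤ) = (Td 1)^[i] (n : ℤ) := by
  induction i with
  | zero => rfl
  | succ i ih => rw [Function.iterate_succ_apply', Function.iterate_succ_apply', fT_cast, ih]

theorem od_oN (k : ℕ) : ∀ n : ℕ, od 1 k (n : ℤ) = oN k n := by
  induction k with
  | zero => intro n; rw [oN_zero]; rfl
  | succ k ih =>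
    intro n
    rw [oN_succ', od, ← fT_cast, ih]
    push_cast
    congr 1
    by_cases h : n % 2 = 0
    · rw [if_pos (by omega), if_neg (by omega)]
    · rw [if_neg (by omega), if_pos (by omega)]

theorem hit_iff (n k : ℕ) : Hit 1 F1 1 (n : ℤ) k ↔ IsLeast {j : ℕ | fT^[j] n = 1} k := by
  have key : ∀ i : ℕ, (Td 1)^[i] (n : ℤ) = 1 ↔ fT^[i] n = 1 := by
    intro i
    rw [← fT_iter]
    constructor
    · intro h; exact_mod_cast h
    · intro h; rw [h]; rfl
  constructor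
  · rintro ⟨h1, _, h3⟩
    refine ⟨(key k).1 h1, ?_⟩
    intro j hj
    by_contra hlt
    push Not at hlt
    apply h3 j hlt
    unfold F1
    rw [mem_singleton]
    exact (key j).2 hj
  · rintro ⟨h1, h2⟩
    refine ⟨(key k).2 h1, by unfold F1; simp, ?_⟩
    intro i hi hcon
    unfold F1 at hcon
    rw [mem_singleton] at hcon
    have := h2 ((key i).1 hcon)
    omega

theorem height_unique {m k l : ℕ} (h : IsHeight m k) (h' : IsHeight m l) : k = l := h.unique h'

theorem height_iff {m k : ℕ} (hm : m % 2 = 1) (hm1 : m ≠ 1) :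
    IsHeight m k ↔ (m : ℤ) ∈ P1 ∧ hO (m : ℤ) = k := by
  constructor
  · intro h
    obtain ⟨s, h1, h2⟩ := lev_of_ht k m hm hm1 h
    have h3 := (hit_iff m s).2 h1
    refine ⟨⟨s, h3⟩, ?_⟩
    unfold hO
    rw [hT_eq h3, od_oN, h2]
  · rintro ⟨⟨s, h3⟩, h4⟩
    have h1 := (hit_iff m s).1 h3
    have h5 := ht_of_lev s m hm hm1 h1
    unfold hO at h4
    rw [hT_eq h3, od_oN] at h4
    have h6 : oN s m = k := by exact_mod_cast h4
    rw [h6] at h5
    exact h5

theorem height_pos {m k : ℕ} (h : IsHeight m k) : 1 ≤ k := h.1.1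

theorem hO_one_ht {k : ℕ} (h : IsHeight 1 k) : k = 1 := by
  have h1 : IsHeight 1 1 := by
    apply Pool.Agent.Y966.LD.height_one
    exact Pool.Agent.Y966.LD.Cm_letter (e := 2) (by norm_num) (by norm_num) (by norm_num)
  exact height_unique h h1

/-! ### even integers -/

theorem hit_two {n : ℤ} {k : ℕ} : Hit 1 F1 1 n k ↔ Hit 1 F1 1 (2 * n) (k + 1) := by
  have e : Td 1 (2 * n) = n := by unfold Td; rw [if_pos (by omega)]; omega
  constructor
  · rintro ⟨h1, h2, h3⟩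
    refine ⟨?_, h2, ?_⟩
    · rw [Function.iterate_succ_apply, e]; exact h1
    · intro i hi
      cases i with
      | zero =>
        unfold F1
        rw [mem_singleton]
        change ¬ (2 * n = 1)
        omega
      | succ i => rw [Function.iterate_succ_apply, e]; exact h3 i (by omega)
  · rintro ⟨h1, h2, h3⟩
    rw [Function.iterate_succ_apply, e] at h1
    refine ⟨h1, h2, fun i hi => ?_⟩
    have := h3 (i + 1) (by omega)
    rwa [Function.iterate_succ_apply, e] at this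

theorem P1_two {n : ℤ} : n ∈ P1 ↔ 2 * n ∈ P1 := by
  constructor
  · rintro ⟨k, hk⟩
    exact ⟨k + 1, hit_two.1 hk⟩
  · rintro ⟨k, hk⟩
    cases k with
    | zero =>
      have h1 : 2 * n = 1 := hk.1
      omega
    | succ k => exact ⟨k, hit_two.2 hk⟩

theorem hO_two {n : ℤ} (h : n ∈ P1) : hO (2 * n) = hO n := by
  obtain ⟨k, hk⟩ := h
  have hk2 := hit_two.1 hk
  unfold hO
  rw [hT_eq hk, hT_eq hk2, od]
  have e : Td 1 (2 * n) = n := by unfold Td; rw [if_pos (by omega)]; omega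
  rw [e, if_pos (by omega), zero_add]

open Classical in
/-- the number of odd `n ≤ x` which reach `1` and have `h` odd terms before -/
noncomputable def FO (x : ℝ) (h : ℤ) : ℝ :=
  (((Icc (1 : ℤ) ⌊x⌋).filter (fun n => n % 2 = 1 ∧ n ∈ P1 ∧ hO n = h)).card : ℝ)

theorem FO_eq (x : ℝ) (h : ℤ) : FO x h = FC x h - FC (x / 2) h := by
  classical
  unfold FO FC
  have h1 : (Icc (1 : ℤ) ⌊x⌋).filter (fun n => n ∈ P1 ∧ hO n = h) =
      (Icc (1 : ℤ) ⌊x⌋).filter (fun n => n % 2 = 1 ∧ n ∈ P1 ∧ hO n = h) ∪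
      ((Icc (1 : ℤ) ⌊x / 2⌋).filter (fun n => n ∈ P1 ∧ hO n = h)).image (fun n => 2 * n) := by
    ext n
    simp only [mem_union, mem_filter, mem_image, mem_Icc]
    constructor
    · rintro ⟨⟨h1, h2⟩, h3, h4⟩
      rcases Int.emod_two_eq_zero_or_one n with h5 | h5
      · right
        obtain ⟨m, rfl⟩ : ∃ m, n = 2 * m := ⟨n / 2, by omega⟩
        refine ⟨m, ⟨⟨by omega, ?_⟩, P1_two.2 h3, ?_⟩, rfl⟩
        · rw [Int.le_floor] at h2 ⊢
          push_cast at h2
          linarith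
        · rw [← h4, hO_two (P1_two.2 h3)]
      · left
        exact ⟨⟨h1, h2⟩, h5, h3, h4⟩
    · rintro (⟨h1, h2, h3, h4⟩ | ⟨m, ⟨⟨h1, h2⟩, h3, h4⟩, rfl⟩)
      · exact ⟨h1, h3, h4⟩
      · refine ⟨⟨by omega, ?_⟩, P1_two.1 h3, ?_⟩
        · rw [Int.le_floor] at h2 ⊢
          push_cast
          linarith
        · rw [hO_two h3, h4]
  have hdisj : Disjoint ((Icc (1 : ℤ) ⌊x⌋).filter (fun n => n % 2 = 1 ∧ n ∈ P1 ∧ hO n = h))
      (((Icc (1 : ℤ) ⌊x / 2⌋).filter (fun n => n ∈ P1 ∧ hO n = h)).image (fun n => 2 * n)) := by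
    rw [Finset.disjoint_left]
    intro n hn hn'
    rw [mem_filter] at hn
    rw [mem_image] at hn'
    obtain ⟨m, _, rfl⟩ := hn'
    have := hn.2.1
    omega
  rw [h1, card_union_of_disjoint hdisj, card_image_of_injective _ (fun a b h => by simpa using h)]
  push_cast
  ring

/-- the number of odd integers `1 ≤ m ≤ x` of height `k` -/
theorem N_eq (x : ℝ) {k : ℕ} (hk : 2 ≤ k) :
    ({m : ℕ | m % 2 = 1 ∧ (m : ℝ) ≤ x ∧ IsHeight m k}.ncard : ℝ) = FO x k := by
  classical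
  unfold FO
  have h1 : ((Icc (1 : ℤ) ⌊x⌋).filter (fun n => n % 2 = 1 ∧ n ∈ P1 ∧ hO n = k)).card =
      (((Icc (1 : ℤ) ⌊x⌋).filter (fun n => n % 2 = 1 ∧ n ∈ P1 ∧ hO n = k)).image Int.toNat).card := by
    rw [card_image_of_injOn]
    intro a ha b hb hab
    rw [mem_coe, mem_filter, mem_Icc] at ha hb
    have hab' : a.toNat = b.toNat := hab
    omega
  rw [h1, ← Set.ncard_coe_finset]
  congr 2
  ext m
  rw [mem_coe, mem_image]
  constructor
  · rintro ⟨h1, h2, h3⟩
    have hm1 : m ≠ 1 := by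
      rintro rfl
      have := hO_one_ht h3
      omega
    obtain ⟨h4, h5⟩ := (height_iff h1 hm1).1 h3
    refine ⟨(m : ℤ), ?_, by simp⟩
    rw [mem_filter, mem_Icc, Int.le_floor]
    exact ⟨⟨by omega, by exact_mod_cast h2⟩, by omega, h4, h5⟩
  · rintro ⟨n, hn, rfl⟩
    rw [mem_filter, mem_Icc, Int.le_floor] at hn
    obtain ⟨⟨h1, h2⟩, h3, h4, h5⟩ := hn
    have h6 : ((n.toNat : ℕ) : ℤ) = n := Int.toNat_of_nonneg (by omega)
    have h7 : ((n.toNat : ℕ) : ℝ) = n := by exact_mod_cast h6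
    have hne : n.toNat ≠ 1 := by
      intro h8
      have h9 : n = 1 := by omega
      rw [h9, hO_one] at h5
      omega
    refine ⟨by omega, by rw [h7]; exact h2, ?_⟩
    rw [height_iff (by omega) hne, h6]
    exact ⟨h4, h5⟩

/-! ### the density -/

theorem Tn_cast (n : ℕ) : Td 1 (n : ℤ) = ((Pool.Agent.H499R2.ND.Tn n : ℕ) : ℤ) := by
  unfold Td Pool.Agent.H499R2.ND.Tn
  by_cases h : n % 2 = 0
  · rw [if_pos (by omega), if_pos h]; omega
  · rw [if_neg (by omega), if_neg h]; omega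

theorem Tn_iter (i n : ℕ) : (Td 1)^[i] (n : ℤ) = ((Pool.Agent.H499R2.ND.Tn^[i] n : ℕ) : ℤ) := by
  induction i with
  | zero => rfl
  | succ i ih => rw [Function.iterate_succ_apply', ih, Tn_cast, Function.iterate_succ_apply']

theorem bas_iff (n : ℕ) : Pool.Agent.H499R2.ND.Bas n ↔ (n : ℤ) ∈ P1 := by
  classical
  constructor
  · intro h
    obtain ⟨k, hk⟩ := h
    have hex : ∃ k, (Td 1)^[k] (n : ℤ) = 1 := ⟨k, by rw [Tn_iter, hk]; rfl⟩
    refine ⟨Nat.find hex, Nat.find_spec hex, by unfold F1; simp, ?_⟩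
    intro i hi hcon
    unfold F1 at hcon
    rw [mem_singleton] at hcon
    exact Nat.find_min hex hi hcon
  · rintro ⟨k, h1, _, _⟩
    refine ⟨k, ?_⟩
    rw [Tn_iter] at h1
    exact_mod_cast h1

theorem dens_eq {D δ : ℝ} (hD : HD 1 P1 D) (hδ : Pool.Agent.H499R2.ND.Dn Pool.Agent.H499R2.ND.Bas δ) :
    D = δ := by
  classical
  unfold Pool.Agent.H499R2.ND.Dn at hδ
  have h1 := (hd_nat hD).comp (tendsto_add_atTop_nat 1)
  have h2 : Tendsto (fun N : ℕ => ((N + 1 : ℕ) : ℝ) / (N : ℝ)) atTop (𝓝 1) := by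
    have h3 : Tendsto (fun N : ℕ => 1 + 1 / (N : ℝ)) atTop (𝓝 (1 + 0)) :=
      tendsto_const_nhds.add tendsto_one_div_atTop_nhds_zero_nat
    rw [add_zero] at h3
    refine h3.congr' ?_
    filter_upwards [eventually_gt_atTop 0] with N hN
    have : (0 : ℝ) < N := by exact_mod_cast hN
    push_cast
    field_simp
  have h3 := h1.mul h2
  rw [mul_one] at h3
  refine tendsto_nhds_unique h3 (hδ.congr' ?_)
  filter_upwards [eventually_gt_atTop 0] with N hN
  have hNR : (0 : ℝ) < N := by exact_mod_cast hN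
  simp only [Function.comp_def]
  have h4 : ((N + 1 : ℕ) : ℝ) ≠ 0 := by positivity
  rw [div_mul_div_comm, mul_comm (((N + 1 : ℕ) : ℝ)) (N : ℝ), mul_div_mul_right _ _ h4]
  congr 1
  unfold Pool.Agent.H499R2.ND.cnt G
  have h5 : {n : ℕ | 1 ≤ n ∧ n ≤ N ∧ Pool.Agent.H499R2.ND.Bas n} =
      (((pos P1 ((N + 1 : ℕ) : ℝ)).image Int.toNat : Finset ℕ) : Set ℕ) := by
    ext n
    rw [mem_coe, mem_image]
    constructor
    · rintro ⟨h1, h2, h3⟩
      refine ⟨(n : ℤ), ?_, by simp⟩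
      rw [mem_pos]
      refine ⟨⟨by exact_mod_cast h1, ?_⟩, (bas_iff n).1 h3⟩
      have : n < N + 1 := by omega
      exact_mod_cast this
    · rintro ⟨z, hz, rfl⟩
      obtain ⟨h1, h2, h3⟩ := pos_le hz
      have h6 : ((z.toNat : ℕ) : ℤ) = z := Int.toNat_of_nonneg (by omega)
      refine ⟨by omega, by omega, ?_⟩
      rw [bas_iff, h6]
      exact h3
  rw [h5, Set.ncard_coe_finset, card_image_of_injOn]
  intro a ha b hb hab
  have ha' := pos_le (mem_coe.1 ha)
  have hb' := pos_le (mem_coe.1 hb)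
  have hab' : a.toNat = b.toNat := hab
  omega

end Pool.Agent.R468.LL
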