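import Pool.Agent.R468.LL.Geo

/-!
Local limit law of the heights, part 2: the central region in terms of `x` and the number `h` of odd
terms.
-/

set_option autoImplicit false

namespace Pool.Agent.R468.LL

open Filter Topology Finset

/-- `log (4/3)` -/
noncomputable def lam : ℝ := Real.log (4 / 3)

theorem lam_eq : lam = 2 * Real.log 2 - Real.log 3 := by
  unfold lam
  rw [Real.log_div (by norm_num) (by norm_num), show (4 : ℝ) = 2 ^ 2 by norm_num, Real.log_pow]
  push_cast; ring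

theorem lam_pos : 0 < lam := Real.log_pos (by norm_num)

theorem lam_lt : lam < 1 := by
  rw [lam_eq]
  have h1 := Real.log_two_lt_d9
  have h2 : (1 : ℝ) ≤ Real.log 3 := by
    rw [Real.le_log_iff_exp_le (by norm_num)]
    linarith [Real.exp_one_lt_d9]
  linarith

/-- the central region -/
def xh (K : ℝ) : Filter (ℝ × ℤ) :=
  comap Prod.fst atTop ⊓ 𝓟 {p | |p.2 * lam - Real.log p.1| ≤ K * Real.sqrt (Real.log p.1)}

theorem xh_fst (K : ℝ) : Tendsto (Prod.fst : ℝ × ℤ → ℝ) (xh K) atTop :=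
  tendsto_comap.mono_left inf_le_left

theorem xh_dev (K : ℝ) : ∀ᶠ p : ℝ × ℤ in xh K, |p.2 * lam - Real.log p.1| ≤ K * Real.sqrt (Real.log p.1) :=
  mem_inf_of_right (mem_principal_self _)

theorem xh_log (K : ℝ) : Tendsto (fun p : ℝ × ℤ => Real.log p.1) (xh K) atTop :=
  Real.tendsto_log_atTop.comp (xh_fst K)

theorem xh_sqrt (K : ℝ) : Tendsto (fun p : ℝ × ℤ => Real.sqrt (Real.log p.1)) (xh K) atTop :=
  Real.tendsto_sqrt_atTop.comp (xh_log K)

/-- the normal profile -/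
noncomputable def Est (p : ℝ × ℤ) : ℝ :=
  Real.exp (-((p.2 * lam - Real.log p.1) ^ 2 * lam / (4 * Real.log 2 ^ 2 * Real.log p.1)))

/-- the real index -/
noncomputable def zz (a : ℤ) (c : ℝ) (p : ℝ × ℤ) : ℝ :=
  (Real.log p.1 + ((p.2 : ℝ) - a) * Real.log 3 + c) / Real.log 2

/-- the pair of indices -/
noncomputable def qq (a : ℤ) (c : ℝ) (p : ℝ × ℤ) : ℕ × ℤ := (⌊zz a c p⌋₊, p.2 - a)

/-- deviation of the indices -/
theorem dev_eq (a : ℤ) (c : ℝ) (p : ℝ × ℤ) :
    2 * ((p.2 : ℝ) - a) - zz a c p = ((p.2 * lam - Real.log p.1) - (a * lam + c)) / Real.log 2 := by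
  have hl2 : 0 < Real.log 2 := Real.log_pos (by norm_num)
  unfold zz
  rw [lam_eq]
  field_simp
  ring

/-- size of the indices -/
theorem zz_ge (K : ℝ) (a : ℤ) (c : ℝ) : ∀ᶠ p : ℝ × ℤ in xh K, Real.log p.1 + 1 ≤ zz a c p := by
  have hl2 : 0 < Real.log 2 := Real.log_pos (by norm_num)
  have hl2' := Real.log_two_lt_d9
  have hl3 : 0 < Real.log 3 := Real.log_pos (by norm_num)
  have hlam := lam_pos
  have hlam1 := lam_lt
  have h1 : ∀ᶠ p : ℝ × ℤ in xh K, 2 * |K| ≤ Real.sqrt (Real.log p.1) :=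
    (xh_sqrt K).eventually (eventually_ge_atTop _)
  have h2 : ∀ᶠ p : ℝ × ℤ in xh K, 2 * |(a : ℝ)| + 10 * |c| + 10 ≤ Real.log p.1 :=
    (xh_log K).eventually (eventually_ge_atTop _)
  filter_upwards [xh_dev K, h1, h2] with p h3 h4 h5
  set L := Real.log p.1 with hL
  have ha := abs_nonneg (a : ℝ)
  have hc := abs_nonneg c
  have hL0 : 0 < L := by linarith
  have hr0 : 0 < Real.sqrt L := Real.sqrt_pos.2 hL0
  have hrr : Real.sqrt L * Real.sqrt L = L := Real.mul_self_sqrt hL0.le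
  have h6 : K * Real.sqrt L ≤ L / 2 := by
    have : K * Real.sqrt L ≤ |K| * Real.sqrt L := mul_le_mul_of_nonneg_right (le_abs_self K) hr0.le
    nlinarith
  have h7 : L / 2 ≤ p.2 * lam := by
    have := (abs_le.1 h3).1
    linarith
  have h8 : |(a : ℝ)| ≤ p.2 := by
    by_contra hcon
    push Not at hcon
    have : (p.2 : ℝ) * lam ≤ |(a : ℝ)| * lam := mul_le_mul_of_nonneg_right hcon.le hlam.le
    nlinarith
  have h9 : 0 ≤ ((p.2 : ℝ) - a) * Real.log 3 := by
    apply mul_nonneg _ hl3.le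
    linarith [le_abs_self (a : ℝ)]
  unfold zz
  rw [← hL, le_div_iff₀ hl2]
  have h10 : -|c| ≤ c := neg_abs_le c
  nlinarith

/-- the map to the central region -/
theorem qq_cen (K : ℝ) (a : ℤ) (c : ℝ) : Tendsto (qq a c) (xh K) (cen (2 * |K| + 2)) := by
  have hl2 : 0 < Real.log 2 := Real.log_pos (by norm_num)
  have hl2' := Real.log_two_gt_d9
  have hlam := lam_pos
  apply tendsto_cen
  · have h1 : Tendsto (fun p : ℝ × ℤ => Real.log p.1) (xh K) atTop := xh_log K
    have h2 : Tendsto (fun p : ℝ × ℤ => ⌊Real.log p.1⌋₊) (xh K) atTop := tendsto_nat_floor_atTop.comp h1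
    refine tendsto_atTop_mono' _ ?_ h2
    filter_upwards [zz_ge K a c] with p hp
    exact Nat.floor_le_floor (by linarith)
  · set C1 : ℝ := (|(a : ℝ)| * lam + |c|) / Real.log 2 + 1 with hC1
    have h1 : ∀ᶠ p : ℝ × ℤ in xh K, C1 ≤ Real.sqrt (Real.log p.1) :=
      (xh_sqrt K).eventually (eventually_ge_atTop _)
    have h2 : ∀ᶠ p : ℝ × ℤ in xh K, 1 ≤ Real.log p.1 := (xh_log K).eventually (eventually_ge_atTop _)
    filter_upwards [xh_dev K, zz_ge K a c, h1, h2] with p h3 h4 h5 h6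
    change |2 * ((p.2 - a : ℤ) : ℝ) - (⌊zz a c p⌋₊ : ℝ)| ≤ (2 * |K| + 2) * Real.sqrt (⌊zz a c p⌋₊ : ℝ)
    set L := Real.log p.1 with hL
    have hfl := Nat.floor_le (show 0 ≤ zz a c p by linarith)
    have hfl2 := Nat.lt_floor_add_one (zz a c p)
    set I : ℝ := (⌊zz a c p⌋₊ : ℝ) with hI
    have hIL : L ≤ I := by linarith
    have hsq : Real.sqrt L ≤ Real.sqrt I := Real.sqrt_le_sqrt hIL
    have hL0 : 0 ≤ Real.sqrt L := Real.sqrt_nonneg _
    push_cast
    have e1 := dev_eq a c p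
    have h7 : |2 * ((p.2 : ℝ) - a) - zz a c p| ≤ |K| * Real.sqrt L * 1.5 + (C1 - 1) := by
      rw [e1, abs_div, abs_of_pos hl2]
      have h8 : |(p.2 * lam - Real.log p.1) - (a * lam + c)| ≤ |K| * Real.sqrt L + (|(a : ℝ)| * lam + |c|) := by
        refine (abs_sub _ _).trans (add_le_add ?_ ?_)
        · exact h3.trans (mul_le_mul_of_nonneg_right (le_abs_self K) hL0)
        · refine (abs_add_le _ _).trans ?_
          rw [abs_mul, abs_of_pos hlam]
      rw [div_le_iff₀ hl2]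
      have h9 : |K| * Real.sqrt L ≤ |K| * Real.sqrt L * 1.5 * Real.log 2 := by
        have : 0 ≤ |K| * Real.sqrt L := mul_nonneg (abs_nonneg K) hL0
        nlinarith
      have h10 : (C1 - 1) * Real.log 2 = |(a : ℝ)| * lam + |c| := by
        rw [hC1]; field_simp; ring
      nlinarith
    have h11 : |2 * ((p.2 : ℝ) - a) - I| ≤ |2 * ((p.2 : ℝ) - a) - zz a c p| + 1 := by
      have e2 : 2 * ((p.2 : ℝ) - a) - I = (2 * ((p.2 : ℝ) - a) - zz a c p) + (zz a c p - I) := by ring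
      rw [e2]
      refine (abs_add_le _ _).trans ?_
      rw [abs_of_nonneg (show 0 ≤ zz a c p - I by linarith)]
      linarith
    have hK := abs_nonneg K
    nlinarith

theorem log_ratio (K : ℝ) (a : ℤ) (c : ℝ) :
    Tendsto (fun p : ℝ × ℤ => Real.log p.1 / (⌊zz a c p⌋₊ : ℝ)) (xh K) (𝓝 (lam / 2)) := by
  have hl2 : 0 < Real.log 2 := Real.log_pos (by norm_num)
  have hlam := lam_pos
  -- `zz / L → 2 / lam`
  have h1 : Tendsto (fun p : ℝ × ℤ => (p.2 * lam - Real.log p.1) / Real.log p.1) (xh K) (𝓝 0) := by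
    have hb : Tendsto (fun p : ℝ × ℤ => |K| / Real.sqrt (Real.log p.1)) (xh K) (𝓝 0) :=
      tendsto_const_nhds.div_atTop (xh_sqrt K)
    refine squeeze_zero_norm' ?_ hb
    filter_upwards [xh_dev K, (xh_log K).eventually (eventually_gt_atTop 0)] with p h3 h4
    rw [norm_div, Real.norm_eq_abs, Real.norm_eq_abs, abs_of_pos h4]
    have hr := Real.sqrt_pos.2 h4
    rw [div_le_div_iff₀ h4 hr]
    have h5 : |p.2 * lam - Real.log p.1| ≤ |K| * Real.sqrt (Real.log p.1) :=
      h3.trans (mul_le_mul_of_nonneg_right (le_abs_self K) hr.le)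
    calc |p.2 * lam - Real.log p.1| * Real.sqrt (Real.log p.1)
        ≤ |K| * Real.sqrt (Real.log p.1) * Real.sqrt (Real.log p.1) :=
          mul_le_mul_of_nonneg_right h5 hr.le
      _ = |K| * Real.log p.1 := by rw [mul_assoc, Real.mul_self_sqrt h4.le]
  have h2 : Tendsto (fun p : ℝ × ℤ => (1 : ℝ) / Real.log p.1) (xh K) (𝓝 0) :=
    tendsto_const_nhds.div_atTop (xh_log K)
  -- zz in terms of these
  have h3 : Tendsto (fun p : ℝ × ℤ => zz a c p / Real.log p.1) (xh K) (𝓝 (2 / lam)) := by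
    have h4 : Tendsto (fun p : ℝ × ℤ => (1 + ((p.2 * lam - Real.log p.1) / Real.log p.1 + 1) / lam * Real.log 3
        + (c - a * Real.log 3) * (1 / Real.log p.1)) / Real.log 2) (xh K)
        (𝓝 ((1 + (0 + 1) / lam * Real.log 3 + (c - a * Real.log 3) * 0) / Real.log 2)) :=
      (((((h1.add_const 1).div_const lam).mul_const (Real.log 3)).const_add 1).add
        (h2.const_mul (c - a * Real.log 3))).div_const (Real.log 2)
    have e1 : (1 + (0 + 1) / lam * Real.log 3 + (c - a * Real.log 3) * 0) / Real.log 2 = 2 / lam := by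
      have : Real.log 3 = 2 * Real.log 2 - lam := by rw [lam_eq]; ring
      rw [this]
      field_simp
      ring
    rw [e1] at h4
    refine h4.congr' ?_
    filter_upwards [(xh_log K).eventually (eventually_gt_atTop 0)] with p hp
    unfold zz
    field_simp
    ring
  have h4 : Tendsto (fun p : ℝ × ℤ => (⌊zz a c p⌋₊ : ℝ) / Real.log p.1) (xh K) (𝓝 (2 / lam)) := by
    have h5 : Tendsto (fun p : ℝ × ℤ => zz a c p / Real.log p.1 - 1 / Real.log p.1) (xh K) (𝓝 (2 / lam - 0)) :=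
      h3.sub h2
    rw [sub_zero] at h5
    refine tendsto_of_tendsto_of_tendsto_of_le_of_le' h5 h3 ?_ ?_
    · filter_upwards [(xh_log K).eventually (eventually_gt_atTop 0)] with p hp
      rw [← sub_div]
      apply div_le_div_of_nonneg_right _ hp.le
      have := Nat.lt_floor_add_one (zz a c p)
      linarith
    · filter_upwards [(xh_log K).eventually (eventually_gt_atTop 0), zz_ge K a c] with p hp hz
      apply div_le_div_of_nonneg_right _ hp.le
      exact Nat.floor_le (by linarith)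
  have h6 := h4.inv₀ (by positivity : (2 : ℝ) / lam ≠ 0)
  have e2 : ((2 : ℝ) / lam)⁻¹ = lam / 2 := by rw [inv_div]
  rw [e2] at h6
  refine h6.congr fun p => ?_
  rw [inv_div]

theorem exp_sub_le {A B : ℝ} (hA : 0 ≤ A) (hB : 0 ≤ B) : |Real.exp (-A) - Real.exp (-B)| ≤ |A - B| := by
  have key : ∀ {a b : ℝ}, 0 ≤ a → a ≤ b → |Real.exp (-a) - Real.exp (-b)| ≤ |a - b| := by
    intro a b ha hab
    have h1 : Real.exp (-b) ≤ Real.exp (-a) := Real.exp_le_exp.2 (by linarith)
    rw [abs_of_nonneg (by linarith), abs_sub_comm, abs_of_nonneg (by linarith)]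
    have h2 : Real.exp (-b) = Real.exp (-a) * Real.exp (a - b) := by rw [← Real.exp_add]; ring_nf
    have h3 := Real.add_one_le_exp (a - b)
    have h4 : Real.exp (-a) ≤ 1 := by rw [← Real.exp_zero]; exact Real.exp_le_exp.2 (by linarith)
    have h5 := Real.exp_pos (-a)
    rw [h2]
    nlinarith
  rcases le_total A B with h | h
  · exact key hA h
  · rw [abs_sub_comm, abs_sub_comm A B]; exact key hB h

theorem EE_Est (K : ℝ) (a : ℤ) (c : ℝ) :
    Tendsto (fun p : ℝ × ℤ => EE (qq a c p) - Est p) (xh K) (𝓝 0) := by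
  have hl2 : 0 < Real.log 2 := Real.log_pos (by norm_num)
  have hlam := lam_pos
  set C1 : ℝ := (|(a : ℝ)| * lam + |c|) / Real.log 2 + 1 with hC1
  have hC10 : 0 < C1 := by positivity
  -- the majorant
  have h1 := (((log_ratio K a c).sub_const (lam / 2)).norm).const_mul (|K| ^ 2 / (2 * Real.log 2 ^ 2))
  rw [sub_self, norm_zero, mul_zero] at h1
  have h2 : Tendsto (fun p : ℝ × ℤ => (2 * |K| * C1 / Real.log 2 + C1 ^ 2) / Real.sqrt (Real.log p.1))
      (xh K) (𝓝 0) := tendsto_const_nhds.div_atTop (xh_sqrt K)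
  have h3 := h1.add h2
  rw [add_zero] at h3
  refine squeeze_zero_norm' ?_ h3
  filter_upwards [xh_dev K, zz_ge K a c, (xh_log K).eventually (eventually_ge_atTop 1)] with p h4 h5 h6
  have hfl := Nat.floor_le (show 0 ≤ zz a c p by linarith)
  have hfl2 := Nat.lt_floor_add_one (zz a c p)
  have hEE : EE (qq a c p) = Real.exp (-((2 * ((p.2 : ℝ) - a) - (⌊zz a c p⌋₊ : ℝ)) ^ 2 /
      (2 * (⌊zz a c p⌋₊ : ℝ)))) := by
    unfold EE qq
    push_cast
    rw [neg_div]
  rw [hEE, Real.norm_eq_abs]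
  unfold Est
  have hd := dev_eq a c p
  set L := Real.log p.1 with hL
  set I : ℝ := (⌊zz a c p⌋₊ : ℝ) with hI
  set D : ℝ := p.2 * lam - L with hD
  have hL0 : 0 < L := by linarith
  have hIL : L ≤ I := by linarith
  have hI0 : 0 < I := by linarith
  have hr0 : 0 < Real.sqrt L := Real.sqrt_pos.2 hL0
  have hrr : Real.sqrt L * Real.sqrt L = L := Real.mul_self_sqrt hL0.le
  have hr1 : 1 ≤ Real.sqrt L := by
    rw [show (1 : ℝ) = Real.sqrt 1 by simp]
    exact Real.sqrt_le_sqrt h6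
  set e : ℝ := 2 * ((p.2 : ℝ) - a) - I - D / Real.log 2 with he
  have hDK : |D| ≤ |K| * Real.sqrt L := h4.trans (mul_le_mul_of_nonneg_right (le_abs_self K) hr0.le)
  have heC : |e| ≤ C1 := by
    have e1 : e = -(a * lam + c) / Real.log 2 + (zz a c p - I) := by
      have : 2 * ((p.2 : ℝ) - a) = zz a c p + (D - (a * lam + c)) / Real.log 2 := by linarith
      rw [he, this]
      field_simp
      ring
    rw [e1]
    refine (abs_add_le _ _).trans ?_
    rw [hC1]
    apply add_le_add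
    · rw [abs_div, abs_neg, abs_of_pos hl2]
      apply div_le_div_of_nonneg_right _ hl2.le
      refine (abs_add_le _ _).trans ?_
      rw [abs_mul, abs_of_pos hlam]
    · rw [abs_of_nonneg (by linarith)]
      linarith
  refine (exp_sub_le (by positivity) (by positivity)).trans ?_
  have e2 : 2 * ((p.2 : ℝ) - a) - I = D / Real.log 2 + e := by rw [he]; ring
  rw [e2]
  have e3 : (D / Real.log 2 + e) ^ 2 / (2 * I) - D ^ 2 * lam / (4 * Real.log 2 ^ 2 * L) =
      (D ^ 2 / L) / (2 * Real.log 2 ^ 2) * (L / I - lam / 2) + (2 * D * e / Real.log 2 + e ^ 2) / (2 * I) := by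
    field_simp
    ring
  rw [e3]
  refine (abs_add_le _ _).trans (add_le_add ?_ ?_)
  · rw [abs_mul, Real.norm_eq_abs]
    apply mul_le_mul_of_nonneg_right _ (abs_nonneg _)
    rw [abs_of_nonneg (by positivity)]
    apply div_le_div_of_nonneg_right _ (by positivity)
    rw [div_le_iff₀ hL0]
    have : |D| ^ 2 ≤ (|K| * Real.sqrt L) ^ 2 := pow_le_pow_left₀ (abs_nonneg D) hDK 2
    rw [sq_abs, mul_pow, Real.sq_sqrt hL0.le] at this
    exact this
  · rw [abs_div, abs_of_pos (by positivity : 0 < 2 * I), div_le_div_iff₀ (by positivity) hr0]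
    have k1 : |2 * D * e / Real.log 2 + e ^ 2| ≤ 2 * (|K| * Real.sqrt L) * C1 / Real.log 2 + C1 ^ 2 := by
      refine (abs_add_le _ _).trans (add_le_add ?_ ?_)
      · rw [abs_div, abs_of_pos hl2, abs_mul, abs_mul, abs_two]
        apply div_le_div_of_nonneg_right _ hl2.le
        apply mul_le_mul _ heC (abs_nonneg _) (by positivity)
        linarith
      · rw [abs_of_nonneg (by positivity)]
        have : |e| ^ 2 ≤ C1 ^ 2 := pow_le_pow_left₀ (abs_nonneg e) heC 2
        rwa [sq_abs] at this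
    have k2 : 2 * (|K| * Real.sqrt L) * C1 / Real.log 2 + C1 ^ 2 ≤
        (2 * |K| * C1 / Real.log 2 + C1 ^ 2) * Real.sqrt L := by
      have e4 : 2 * (|K| * Real.sqrt L) * C1 / Real.log 2 = 2 * |K| * C1 / Real.log 2 * Real.sqrt L := by ring
      rw [e4, add_mul]
      have : C1 ^ 2 ≤ C1 ^ 2 * Real.sqrt L := le_mul_of_one_le_right (by positivity) hr1
      linarith
    calc |2 * D * e / Real.log 2 + e ^ 2| * Real.sqrt L
        ≤ ((2 * |K| * C1 / Real.log 2 + C1 ^ 2) * Real.sqrt L) * Real.sqrt L :=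
          mul_le_mul_of_nonneg_right (k1.trans k2) hr0.le
      _ = (2 * |K| * C1 / Real.log 2 + C1 ^ 2) * L := by rw [mul_assoc, hrr]
      _ ≤ (2 * |K| * C1 / Real.log 2 + C1 ^ 2) * (2 * I) := by
        apply mul_le_mul_of_nonneg_left _ (by positivity)
        linarith

/-- the log-periodic factor -/
noncomputable def phi (z : ℝ) : ℝ := (2 : ℝ) ^ (-(Int.fract z))

theorem phi_pos (z : ℝ) : 0 < phi z := Real.rpow_pos_of_pos (by norm_num) _

theorem phi_le (z : ℝ) : phi z ≤ 1 := by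
  unfold phi
  apply Real.rpow_le_one_of_one_le_of_nonpos (by norm_num)
  linarith [Int.fract_nonneg z]

theorem phi_ge (z : ℝ) : 1 / 2 ≤ phi z := by
  unfold phi
  have h1 : (2 : ℝ) ^ (-1 : ℝ) ≤ (2 : ℝ) ^ (-(Int.fract z)) :=
    Real.rpow_le_rpow_of_exponent_le (by norm_num) (by linarith [Int.fract_lt_one z])
  rw [Real.rpow_neg_one] at h1
  linarith

theorem phi_int (z : ℝ) (m : ℤ) : phi (z + m) = phi z := by
  unfold phi
  rw [Int.fract_add_intCast]

theorem two_pow_floor {z : ℝ} (hz : 0 ≤ z) : (2 : ℝ) ^ ⌊z⌋₊ = Real.exp (z * Real.log 2) * phi z := by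
  unfold phi
  rw [Real.rpow_def_of_pos (by norm_num), ← Real.exp_add, ← Real.rpow_natCast,
    Real.rpow_def_of_pos (by norm_num)]
  congr 1
  have h1 : ((⌊z⌋₊ : ℕ) : ℝ) = (⌊z⌋ : ℝ) := by
    rw [← Int.floor_toNat, ← Int.cast_natCast, Int.toNat_of_nonneg (Int.floor_nonneg.2 hz)]
  have h2 := Int.self_sub_floor z
  rw [h1, ← h2]
  ring

/-- the asymptotic number for one first hit -/
theorem one_lim {N : ℕ → ℤ → ℝ} {u C : ℝ} (hu : 0 ≤ u)
    (hM0 : ∀ k o, 0 ≤ N k o * (3 : ℝ) ^ o / 2 ^ k) (hMC : ∀ k o, N k o * (3 : ℝ) ^ o / 2 ^ k ≤ C)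
    (h : Loc (fun k o => N k o * (3 : ℝ) ^ o / 2 ^ k) u) (a : ℤ) (c K : ℝ) :
    Tendsto (fun p : ℝ × ℤ => Real.sqrt (Real.log p.1) / p.1 * ∑ i ∈ range (⌊zz a c p⌋₊ + 1), N i (p.2 - a)
      - Real.sqrt (lam / 2) * Real.exp c * phi (zz a c p) * (2 * u) * Est p) (xh K) (𝓝 0) := by
  have hl2 : 0 < Real.log 2 := Real.log_pos (by norm_num)
  have hlam := lam_pos
  have h0 := geo hu hM0 hMC h (2 * |K| + 2)
  have h1 := h0.comp (qq_cen K a c)
  simp only [Function.comp_def] at h1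
  -- replace the profile
  have h2 := (EE_Est K a c).const_mul (2 * u)
  rw [mul_zero] at h2
  have h3 : Tendsto (fun p : ℝ × ℤ => Real.sqrt (qq a c p).1 *
      (∑ i ∈ range ((qq a c p).1 + 1), N i (qq a c p).2 * (3 : ℝ) ^ (qq a c p).2 / 2 ^ i * 2 ^ i /
        2 ^ (qq a c p).1) - 2 * u * Est p) (xh K) (𝓝 0) := by
    have := h1.add h2
    rw [add_zero] at this
    refine this.congr fun p => ?_
    ring
  -- the ratio of the square roots
  have h4 : Tendsto (fun p : ℝ × ℤ => Real.sqrt (Real.log p.1 / (⌊zz a c p⌋₊ : ℝ))) (xh K)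
      (𝓝 (Real.sqrt (lam / 2))) := (log_ratio K a c).sqrt
  have hb : ∀ p : ℝ × ℤ, 0 ≤ Real.exp c * phi (zz a c p) ∧ Real.exp c * phi (zz a c p) ≤ Real.exp c := by
    intro p
    exact ⟨mul_nonneg (Real.exp_pos _).le (phi_pos _).le,
      mul_le_of_le_one_right (Real.exp_pos _).le (phi_le _)⟩
  have hE0 : ∀ p : ℝ × ℤ, 0 < Est p := fun p => Real.exp_pos _
  have hE1 : ∀ᶠ p : ℝ × ℤ in xh K, Est p ≤ 1 := by
    filter_upwards [(xh_log K).eventually (eventually_gt_atTop 0)] with p hp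
    unfold Est
    rw [← Real.exp_zero]
    apply Real.exp_le_exp.2
    have : 0 ≤ (p.2 * lam - Real.log p.1) ^ 2 * lam / (4 * Real.log 2 ^ 2 * Real.log p.1) := by positivity
    linarith
  -- first error
  have h5 : Tendsto (fun p : ℝ × ℤ => Real.sqrt (Real.log p.1 / (⌊zz a c p⌋₊ : ℝ)) *
      (Real.exp c * phi (zz a c p)) * (Real.sqrt (qq a c p).1 *
      (∑ i ∈ range ((qq a c p).1 + 1), N i (qq a c p).2 * (3 : ℝ) ^ (qq a c p).2 / 2 ^ i * 2 ^ i /
        2 ^ (qq a c p).1) - 2 * u * Est p)) (xh K) (𝓝 0) := by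
    have h6 := ((h4.norm.mul_const (Real.exp c)).mul h3.norm)
    rw [norm_zero, mul_zero] at h6
    refine squeeze_zero_norm (fun p => ?_) h6
    rw [norm_mul, norm_mul]
    apply mul_le_mul_of_nonneg_right _ (norm_nonneg _)
    apply mul_le_mul_of_nonneg_left _ (norm_nonneg _)
    rw [Real.norm_eq_abs, abs_of_nonneg (hb p).1]
    exact (hb p).2
  -- second error
  have h7 : Tendsto (fun p : ℝ × ℤ => (Real.sqrt (Real.log p.1 / (⌊zz a c p⌋₊ : ℝ)) - Real.sqrt (lam / 2)) *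
      ((Real.exp c * phi (zz a c p)) * (2 * u * Est p))) (xh K) (𝓝 0) := by
    have h8 := ((h4.sub_const (Real.sqrt (lam / 2))).norm).mul_const (Real.exp c * (2 * u))
    rw [sub_self, norm_zero, zero_mul] at h8
    refine squeeze_zero_norm' ?_ h8
    filter_upwards [hE1] with p hp
    rw [norm_mul]
    apply mul_le_mul_of_nonneg_left _ (norm_nonneg _)
    have h9 : 0 ≤ 2 * u * Est p := by have := hE0 p; positivity
    rw [Real.norm_eq_abs, abs_of_nonneg (mul_nonneg (hb p).1 h9)]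
    apply mul_le_mul (hb p).2 _ h9 (Real.exp_pos _).le
    nlinarith [hE0 p]
  have h10 := h5.add h7
  rw [add_zero] at h10
  refine h10.congr' ?_
  filter_upwards [zz_ge K a c, (xh_log K).eventually (eventually_gt_atTop 0),
    (xh_fst K).eventually (eventually_gt_atTop 0)] with p hz hL hx
  have hz0 : 0 ≤ zz a c p := by linarith
  have hI1 : 0 < (⌊zz a c p⌋₊ : ℝ) := by
    have : 1 ≤ ⌊zz a c p⌋₊ := by
      rw [Nat.one_le_floor_iff]; linarith
    exact_mod_cast this
  have e1 : (qq a c p).1 = ⌊zz a c p⌋₊ := rfl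
  have e2 : (qq a c p).2 = p.2 - a := rfl
  rw [e1, e2]
  set I := ⌊zz a c p⌋₊ with hI
  set o := p.2 - a with ho
  have hs : 0 < Real.sqrt (I : ℝ) := Real.sqrt_pos.2 hI1
  have h3o : (0 : ℝ) < (3 : ℝ) ^ o := by positivity
  have e3 : ∑ i ∈ range (I + 1), N i o * (3 : ℝ) ^ o / 2 ^ i * 2 ^ i / 2 ^ I =
      (3 : ℝ) ^ o / 2 ^ I * ∑ i ∈ range (I + 1), N i o := by
    rw [mul_sum]
    apply sum_congr rfl
    intro i _
    field_simp
  have e4 : (2 : ℝ) ^ I = p.1 * (3 : ℝ) ^ o * (Real.exp c * phi (zz a c p)) := by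
    rw [hI, two_pow_floor hz0]
    have e5 : zz a c p * Real.log 2 = Real.log p.1 + ((o : ℤ) : ℝ) * Real.log 3 + c := by
      unfold zz
      rw [ho]
      push_cast
      field_simp
    rw [e5, Real.exp_add, Real.exp_add, Real.exp_log hx, mul_comm ((o : ℤ) : ℝ) (Real.log 3),
      ← Real.rpow_def_of_pos (by norm_num), Real.rpow_intCast]
    ring
  rw [e3, Real.sqrt_div hL.le]
  have hph := phi_pos (zz a c p)
  have hx' : p.1 ≠ 0 := hx.ne'
  have e6 : (3 : ℝ) ^ o / 2 ^ I = 1 / (p.1 * (Real.exp c * phi (zz a c p))) := by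
    rw [e4]
    field_simp
  rw [e6]
  have hec := Real.exp_pos c
  field_simp
  ring

end Pool.Agent.R468.LL
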