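import Pool.Agent.R468.LL.Brg
import Pool.Agent.TH977.LL.Typ
import Pool.Agent.TH977.LL.Main

/-!
Local limit law of the heights, part 10: the final form.
-/

set_option autoImplicit false

namespace Pool.Agent.R468.LL

open Filter Topology Finset
open Pool.Agent.H499R2.LT
open Pool.Agent.H499R2.ND (Td HD G pos mem_pos)
open Pool.Agent.Y966.LD (IsHeight)

/-- halving -/
noncomputable def hf (p : ℝ × ℤ) : ℝ × ℤ := (p.1 / 2, p.2)

theorem hf_xh (K : ℝ) : Tendsto hf (xh K) (xh (2 * |K| + 1)) := by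
  have hl2' := Real.log_two_lt_d9
  have hl2 : 0 < Real.log 2 := Real.log_pos (by norm_num)
  refine tendsto_inf.2 ⟨tendsto_comap_iff.2 ?_, tendsto_principal.2 ?_⟩
  · exact (xh_fst K).atTop_div_const (by norm_num)
  · filter_upwards [xh_dev K, (xh_fst K).eventually (eventually_gt_atTop 0),
      (xh_log K).eventually (eventually_ge_atTop 2)] with p h1 h2 h3
    change |p.2 * lam - Real.log (p.1 / 2)| ≤ (2 * |K| + 1) * Real.sqrt (Real.log (p.1 / 2))
    rw [Real.log_div h2.ne' (by norm_num)]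
    set L := Real.log p.1 with hL
    have h4 : 1 ≤ Real.sqrt (L - Real.log 2) := Real.one_le_sqrt.2 (by linarith)
    have h5 : Real.sqrt L ≤ 2 * Real.sqrt (L - Real.log 2) := by
      rw [show (2 : ℝ) = Real.sqrt 4 by rw [show (4 : ℝ) = 2 ^ 2 by norm_num]; exact (Real.sqrt_sq (by norm_num)).symm,
        ← Real.sqrt_mul (by norm_num)]
      apply Real.sqrt_le_sqrt
      have : Real.sqrt 4 = 2 := by rw [show (4 : ℝ) = 2 ^ 2 by norm_num]; exact Real.sqrt_sq (by norm_num)
      rw [this]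
      linarith
    have h6 : |p.2 * lam - (L - Real.log 2)| ≤ |p.2 * lam - L| + Real.log 2 := by
      have e : p.2 * lam - (L - Real.log 2) = (p.2 * lam - L) + Real.log 2 := by ring
      rw [e]
      refine (abs_add_le _ _).trans ?_
      rw [abs_of_pos hl2]
    have h7 : K * Real.sqrt L ≤ |K| * (2 * Real.sqrt (L - Real.log 2)) :=
      mul_le_mul (le_abs_self K) h5 (Real.sqrt_nonneg _) (abs_nonneg _)
    linarith

theorem zz_hf {p : ℝ × ℤ} (h : 0 < p.1) : qq 0 (-Real.log 2) p = qq 0 0 (hf p) := by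
  have e : zz 0 (-Real.log 2) p = zz 0 0 (hf p) := by
    unfold zz hf
    simp only
    rw [Real.log_div h.ne' (by norm_num)]
    congr 1
    ring
  unfold qq
  rw [e]
  rfl

theorem Est_hf (K : ℝ) : Tendsto (fun p : ℝ × ℤ => Est p - Est (hf p)) (xh K) (𝓝 0) := by
  have h1 := EE_Est K 0 (-Real.log 2)
  have h2 := (EE_Est (2 * |K| + 1) 0 0).comp (hf_xh K)
  have h3 := h2.sub h1
  rw [sub_zero] at h3
  refine h3.congr' ?_
  filter_upwards [(xh_fst K).eventually (eventually_gt_atTop 0)] with p hp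
  simp only [Function.comp_def]
  rw [zz_hf hp]
  ring

theorem sv_hf {p : ℝ × ℤ} (h : 0 < p.1) : sv (hf p) + 1 = sv p := by
  have hl2 : 0 < Real.log 2 := Real.log_pos (by norm_num)
  unfold sv hf
  simp only
  rw [Real.log_div h.ne' (by norm_num)]
  field_simp
  ring

theorem Est_bd {p : ℝ × ℤ} (h : 0 ≤ Real.log p.1) : 0 < Est p ∧ Est p ≤ 1 := by
  refine ⟨Real.exp_pos _, ?_⟩
  unfold Est
  apply Real.exp_le_one_iff.2
  have := lam_pos
  have : 0 ≤ (p.2 * lam - Real.log p.1) ^ 2 * lam / (4 * Real.log 2 ^ 2 * Real.log p.1) := by positivity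
  linarith

/-- the odd integers -/
theorem FO_lim {U : ℝ → ℝ} {B : ℝ} (hUB : ∀ s, |U s| ≤ B) (hUp : ∀ s, U (s + 1) = U s)
    (h : ∀ K : ℝ, Tendsto (fun p : ℝ × ℤ => Real.sqrt (Real.log p.1) / p.1 * FC p.1 p.2 - U (sv p) * Est p)
      (xh K) (𝓝 0)) (K : ℝ) :
    Tendsto (fun p : ℝ × ℤ => Real.sqrt (Real.log p.1) / p.1 * FO p.1 p.2 - 1 / 2 * (U (sv p) * Est p))
      (xh K) (𝓝 0) := by
  have hA := h K
  have hB := (h (2 * |K| + 1)).comp (hf_xh K)
  have hlogh : Tendsto (fun p : ℝ × ℤ => Real.log (hf p).1) (xh K) atTop := (xh_log (2 * |K| + 1)).comp (hf_xh K)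
  have hlogp := xh_log K
  -- the ratio of the logarithms
  have hR0 : Tendsto (fun p : ℝ × ℤ => Real.log p.1 / Real.log (hf p).1) (xh K) (𝓝 1) := by
    have h1 : Tendsto (fun p : ℝ × ℤ => 1 + Real.log 2 / Real.log (hf p).1) (xh K) (𝓝 (1 + 0)) :=
      tendsto_const_nhds.add (tendsto_const_nhds.div_atTop hlogh)
    rw [add_zero] at h1
    refine h1.congr' ?_
    filter_upwards [(xh_fst K).eventually (eventually_gt_atTop 0), hlogh.eventually (eventually_gt_atTop 0)]
      with p h2 h3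
    have e : Real.log (hf p).1 = Real.log p.1 - Real.log 2 := Real.log_div h2.ne' (by norm_num)
    have e2 : Real.log p.1 = Real.log (hf p).1 + Real.log 2 := by rw [e]; ring
    rw [e2, add_div, div_self h3.ne']
  have hR : Tendsto (fun p : ℝ × ℤ => Real.sqrt (Real.log p.1 / Real.log (hf p).1)) (xh K) (𝓝 1) := by
    have := (Real.continuous_sqrt.tendsto 1).comp hR0
    rwa [Real.sqrt_one] at this
  have hE := Est_hf K
  -- bounded factor times null
  have hBB : 0 ≤ B := (abs_nonneg _).trans (hUB 0)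
  have hnull : Tendsto (fun p : ℝ × ℤ => U (sv p) * ((Est p - Est (hf p)) +
      (1 - Real.sqrt (Real.log p.1 / Real.log (hf p).1)) * Est (hf p))) (xh K) (𝓝 0) := by
    have h1 : Tendsto (fun p : ℝ × ℤ => B * (|Est p - Est (hf p)| +
        |1 - Real.sqrt (Real.log p.1 / Real.log (hf p).1)|)) (xh K) (𝓝 (B * (|0| + |1 - 1|))) :=
      (hE.abs.add ((tendsto_const_nhds.sub hR).abs)).const_mul B
    rw [sub_self, abs_zero, add_zero, mul_zero] at h1
    refine squeeze_zero_norm' ?_ h1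
    filter_upwards [hlogh.eventually (eventually_ge_atTop 0)] with p hp
    obtain ⟨e1, e2⟩ := Est_bd hp
    rw [Real.norm_eq_abs, abs_mul]
    apply mul_le_mul (hUB _) _ (abs_nonneg _) hBB
    refine (abs_add_le _ _).trans ?_
    have e3 : |(1 - Real.sqrt (Real.log p.1 / Real.log (hf p).1)) * Est (hf p)| ≤
        |1 - Real.sqrt (Real.log p.1 / Real.log (hf p).1)| := by
      rw [abs_mul, abs_of_pos e1]
      exact mul_le_of_le_one_right (abs_nonneg _) e2
    linarith
  have hfin := (hA.sub ((hR.mul hB).const_mul (1 / 2))).add (hnull.const_mul (1 / 2))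
  have e0 : (0 : ℝ) - 1 / 2 * (1 * 0) + 1 / 2 * 0 = 0 := by norm_num
  rw [e0] at hfin
  refine hfin.congr' ?_
  filter_upwards [(xh_fst K).eventually (eventually_gt_atTop 0), hlogh.eventually (eventually_gt_atTop 0),
    hlogp.eventually (eventually_gt_atTop 0)] with p h2 h3 h4
  simp only [Function.comp_def]
  rw [FO_eq]
  have e1 : U (sv (hf p)) = U (sv p) := by rw [← sv_hf h2, hUp]
  rw [e1]
  have e2 : Real.sqrt (Real.log p.1 / Real.log (hf p).1) * Real.sqrt (Real.log (hf p).1) = Real.sqrt (Real.log p.1) := by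
    rw [← Real.sqrt_mul (by positivity), div_mul_cancel₀ _ h3.ne']
  have e3 : (hf p).1 = p.1 / 2 := rfl
  have e4 : (hf p).2 = p.2 := rfl
  set R := Real.sqrt (Real.log p.1 / Real.log (hf p).1) with hRdef
  set S' := Real.sqrt (Real.log (hf p).1) with hS'
  rw [← e2, e4]
  rw [e3]
  field_simp
  ring

theorem Est_low {K : ℝ} {p : ℝ × ℤ} (hK : |p.2 * lam - Real.log p.1| ≤ K * Real.sqrt (Real.log p.1))
    (h : 0 < Real.log p.1) : Real.exp (-(K ^ 2 * lam / (4 * Real.log 2 ^ 2))) ≤ Est p := by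
  have hl2 : 0 < Real.log 2 := Real.log_pos (by norm_num)
  have hlam := lam_pos
  unfold Est
  apply Real.exp_le_exp.2
  have h1 : (p.2 * lam - Real.log p.1) ^ 2 ≤ K ^ 2 * Real.log p.1 := by
    have h2 := pow_le_pow_left₀ (abs_nonneg _) hK 2
    rw [sq_abs, mul_pow, Real.sq_sqrt h.le] at h2
    exact h2
  have h3 : (p.2 * lam - Real.log p.1) ^ 2 * lam / (4 * Real.log 2 ^ 2 * Real.log p.1) ≤
      K ^ 2 * lam / (4 * Real.log 2 ^ 2) := by
    rw [div_le_div_iff₀ (by positivity) (by positivity)]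
    have h4 : 0 ≤ lam * (4 * Real.log 2 ^ 2) := by positivity
    calc (p.2 * lam - Real.log p.1) ^ 2 * lam * (4 * Real.log 2 ^ 2)
        = (p.2 * lam - Real.log p.1) ^ 2 * (lam * (4 * Real.log 2 ^ 2)) := by ring
      _ ≤ K ^ 2 * Real.log p.1 * (lam * (4 * Real.log 2 ^ 2)) := mul_le_mul_of_nonneg_right h1 h4
      _ = _ := by ring
  linarith

/-- the normal density of mean `μ log x` and variance `σ² log x` -/
noncomputable def gd (x : ℝ) (k : ℕ) : ℝ :=
  Real.exp (-(((k : ℝ) - 2 / Real.log (16 / 9) * Real.log x) ^ 2 /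
    (2 * (2 * Real.log 2 ^ 2 / Real.log (4 / 3) ^ 3 * Real.log x)))) /
    Real.sqrt (2 * Real.pi * (2 * Real.log 2 ^ 2 / Real.log (4 / 3) ^ 3 * Real.log x))

theorem mu_lam : 2 / Real.log (16 / 9) = 1 / lam := by
  have hlam := lam_pos
  have : Real.log (16 / 9) = 2 * lam := by
    unfold lam
    rw [show (16 : ℝ) / 9 = (4 / 3) ^ 2 by norm_num, Real.log_pow]
    push_cast; ring
  rw [this]
  field_simp

theorem gd_eq {x : ℝ} (hx : 0 < Real.log x) (k : ℕ) :
    gd x k = cst / (2 * Real.log 2) * Est (x, (k : ℤ)) / Real.sqrt (Real.log x) := by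
  have hl2 : 0 < Real.log 2 := Real.log_pos (by norm_num)
  have hlam := lam_pos
  have hpi := Real.pi_pos
  unfold gd
  rw [mu_lam]
  change Real.exp (-(((k : ℝ) - 1 / lam * Real.log x) ^ 2 / (2 * (2 * Real.log 2 ^ 2 / lam ^ 3 * Real.log x)))) /
    Real.sqrt (2 * Real.pi * (2 * Real.log 2 ^ 2 / lam ^ 3 * Real.log x)) = _
  have e1 : -(((k : ℝ) - 1 / lam * Real.log x) ^ 2 / (2 * (2 * Real.log 2 ^ 2 / lam ^ 3 * Real.log x))) =
      -((((k : ℤ) : ℝ) * lam - Real.log x) ^ 2 * lam / (4 * Real.log 2 ^ 2 * Real.log x)) := by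
    push_cast
    field_simp
    ring
  have e2 : Real.sqrt (2 * Real.pi * (2 * Real.log 2 ^ 2 / lam ^ 3 * Real.log x)) =
      2 * Real.log 2 / cst * Real.sqrt (Real.log x) := by
    rw [cst_eq]
    have hs1 := Real.mul_self_sqrt hlam.le
    have hs2 := Real.mul_self_sqrt hpi.le
    have hs3 := Real.mul_self_sqrt hx.le
    have hp1 := Real.sqrt_pos.2 hlam
    have hp2 := Real.sqrt_pos.2 hpi
    have hp3 := Real.sqrt_pos.2 hx
    rw [Real.sqrt_eq_iff_mul_self_eq (by positivity) (by positivity)]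
    have e3 : 2 * Real.log 2 / (lam * Real.sqrt lam / Real.sqrt Real.pi) * Real.sqrt (Real.log x) *
        (2 * Real.log 2 / (lam * Real.sqrt lam / Real.sqrt Real.pi) * Real.sqrt (Real.log x)) =
        (2 * Real.log 2) ^ 2 * (Real.sqrt Real.pi * Real.sqrt Real.pi) /
          (lam ^ 2 * (Real.sqrt lam * Real.sqrt lam)) * (Real.sqrt (Real.log x) * Real.sqrt (Real.log x)) := by
      field_simp
    rw [e3, hs1, hs2, hs3]
    field_simp
    try ring
  rw [e1, e2]
  have hcst := cst_pos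
  have hp3 := Real.sqrt_pos.2 hx
  unfold Est
  simp only
  field_simp

/-- the uniform upper bound -/
theorem N_upper : ∃ C : ℝ, 0 < C ∧ ∀ x : ℝ, 2 ≤ x → ∀ k : ℕ,
    ({m : ℕ | m % 2 = 1 ∧ (m : ℝ) ≤ x ∧ IsHeight m k}.ncard : ℝ) ≤ C * x / Real.sqrt (Real.log x) := by
  classical
  obtain ⟨C, hC, h⟩ := Pool.Agent.TH977.LL.cnt_upp (al := 1) (be := 0) (by norm_num)
  refine ⟨2 * C + 1, by positivity, fun x hx k => ?_⟩
  have hx0 : 0 < x := by linarith
  have hl0 : 0 < Real.log x := Real.log_pos (by linarith)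
  have hsub : {m : ℕ | m % 2 = 1 ∧ (m : ℝ) ≤ x ∧ IsHeight m k} ⊆
      ((insert 1 ((Pool.Agent.H499R2.ND.cls (Pool.Agent.TH977.LL.HS 1 0 k) 1 (2 * x) 0 1 0).image Int.toNat) :
        Finset ℕ) : Set ℕ) := by
    rintro m ⟨h1, h2, h3⟩
    rw [mem_coe, mem_insert]
    by_cases hm1 : m = 1
    · exact Or.inl hm1
    · right
      rw [mem_image]
      refine ⟨(m : ℤ), ?_, by simp⟩
      rw [Pool.Agent.H499R2.ND.mem_cls]
      have hm0 : 1 ≤ m := by omega
      have h4 : Pool.Agent.H499R2.ND.IsHt m k := by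
        refine ⟨h3.1.1, h3.1.2, ?_⟩
        intro j hj1 hj2 hj3
        have := h3.2 ⟨hj1, hj3⟩
        omega
      refine ⟨⟨by exact_mod_cast hm0, ?_⟩, ?_, (Pool.Agent.TH977.LL.ht_iff_HS hm1).1 h4, by simp⟩
      · push_cast
        linarith
      · exact_mod_cast Nat.odd_iff.2 h1
  have h1 : ({m : ℕ | m % 2 = 1 ∧ (m : ℝ) ≤ x ∧ IsHeight m k}.ncard : ℝ) ≤
      ((Pool.Agent.H499R2.ND.cls (Pool.Agent.TH977.LL.HS 1 0 k) 1 (2 * x) 0 1 0).card : ℝ) + 1 := by
    have h2 := Set.ncard_le_ncard hsub (Finset.finite_toSet _)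
    rw [Set.ncard_coe_finset] at h2
    have h3 := (h2.trans (card_insert_le _ _)).trans (Nat.add_le_add_right card_image_le 1)
    exact_mod_cast h3
  refine h1.trans ?_
  have h2 := h (2 * x) (by linarith) k
  have h3 : C * (2 * x) / Real.sqrt (Real.log (2 * x)) ≤ C * (2 * x) / Real.sqrt (Real.log x) := by
    apply div_le_div_of_nonneg_left (by positivity) (Real.sqrt_pos.2 hl0)
    apply Real.sqrt_le_sqrt
    exact Real.log_le_log hx0 (by linarith)
  have h4 : 1 ≤ x / Real.sqrt (Real.log x) := by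
    rw [le_div_iff₀ (Real.sqrt_pos.2 hl0), one_mul]
    rw [Real.sqrt_le_left (by linarith)]
    have := Real.log_le_sub_one_of_pos hx0
    nlinarith
  have h5 : (2 * C + 1) * x / Real.sqrt (Real.log x) = C * (2 * x) / Real.sqrt (Real.log x) + x / Real.sqrt (Real.log x) := by
    ring
  rw [h5]
  linarith

/-- THE LOCAL LIMIT LAW -/
theorem main : ∃ (δ : ℝ) (Ψ : ℝ → ℝ), 0 < δ ∧ δ ≤ 1 ∧
    (δ = 1 ↔ ∀ n : ℕ, 1 ≤ n → Pool.Agent.H499R2.ND.Bas n) ∧
    Pool.Agent.H499R2.ND.Dn Pool.Agent.H499R2.ND.Bas δ ∧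
    Continuous Ψ ∧ (∀ s, Ψ (s + 1) = Ψ s) ∧
    (∀ s, δ * Real.log 2 ≤ Ψ s ∧ Ψ s ≤ 2 * δ * Real.log 2) ∧
    (∫ s in (0 : ℝ)..1, Ψ s = δ) ∧
    ∀ K ε : ℝ, 0 < ε → ∃ X₀ : ℝ, ∀ x : ℝ, X₀ ≤ x → ∀ k : ℕ,
      |(k : ℝ) - 2 / Real.log (16 / 9) * Real.log x| ≤ K * Real.sqrt (Real.log x) →
      |({m : ℕ | m % 2 = 1 ∧ (m : ℝ) ≤ x ∧ IsHeight m k}.ncard : ℝ) / (x / 2 * gd x k) -
        Ψ (Real.logb 2 (3 ^ k * x))| ≤ ε := by
  obtain ⟨D, hD⟩ := dens_ex
  obtain ⟨δ, h0, h1, h2, h3⟩ := Pool.Agent.H499R2.ND.Bas_density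
  obtain rfl := dens_eq hD h3
  obtain ⟨U, hU1, hU2, hU3, hU4, hU5⟩ := profile hD
  have hl2 : 0 < Real.log 2 := Real.log_pos (by norm_num)
  have hcst := cst_pos
  have hlam := lam_pos
  set c : ℝ := 2 * Real.log 2 / cst with hc
  have hc0 : 0 < c := by positivity
  refine ⟨D, fun s => c * U s, h0, h1, h2, h3, continuous_const.mul hU1, ?_, ?_, ?_, ?_⟩
  · intro s
    simp only [hU2]
  · intro s
    obtain ⟨a, b⟩ := hU3 s
    constructor
    · have h4 := mul_le_mul_of_nonneg_left a hc0.le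
      have e : c * (cst * D / 2) = D * Real.log 2 := by rw [hc]; field_simp
      rw [e] at h4
      exact h4
    · have h4 := mul_le_mul_of_nonneg_left b hc0.le
      have e : c * (cst * D) = 2 * D * Real.log 2 := by rw [hc]; field_simp
      rw [e] at h4
      exact h4
  · rw [intervalIntegral.integral_const_mul, hU4, hc]
    field_simp
  · intro K ε hε
    have hUB : ∀ s, |U s| ≤ cst * D := by
      intro s
      obtain ⟨a, b⟩ := hU3 s
      rw [abs_of_nonneg (le_trans (by positivity) a)]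
      exact b
    have hlim := FO_lim hUB hU2 hU5 (K * lam)
    set e0 : ℝ := Real.exp (-((K * lam) ^ 2 * lam / (4 * Real.log 2 ^ 2))) with he0
    have he0' : 0 < e0 := Real.exp_pos _
    have hη : 0 < ε * e0 / (2 * c) := by positivity
    have hev := (Metric.tendsto_nhds.1 hlim) _ hη
    have hbig : ∀ᶠ p : ℝ × ℤ in xh (K * lam), 1 ≤ Real.log p.1 ∧ |K| < Real.sqrt (Real.log p.1) ∧ 1 ≤ p.1 :=
      ((xh_log _).eventually (eventually_ge_atTop 1)).and (((xh_sqrt _).eventually (eventually_gt_atTop _)).and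
        ((xh_fst _).eventually (eventually_ge_atTop 1)))
    have hk2 : ∀ᶠ p : ℝ × ℤ in xh (K * lam), 3 * lam ≤ (Real.sqrt (Real.log p.1)) :=
      (xh_sqrt _).eventually (eventually_ge_atTop _)
    have hk3 : ∀ᶠ p : ℝ × ℤ in xh (K * lam), |K| * lam + 1 ≤ (Real.sqrt (Real.log p.1)) :=
      (xh_sqrt _).eventually (eventually_ge_atTop _)
    have hall := hev.and (hbig.and (hk2.and hk3))
    unfold xh at hall
    rw [Filter.eventually_inf_principal, Filter.eventually_comap] at hall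
    obtain ⟨X₀, hX₀⟩ := eventually_atTop.1 hall
    refine ⟨max X₀ 2, ?_⟩
    intro x hx k hk
    have hx2 : 2 ≤ x := (le_max_right _ _).trans hx
    have hlx : 0 < Real.log x := Real.log_pos (by linarith)
    have hmem : |((k : ℤ) : ℝ) * lam - Real.log x| ≤ K * lam * Real.sqrt (Real.log x) := by
      rw [mu_lam] at hk
      have e : ((k : ℤ) : ℝ) * lam - Real.log x = ((k : ℝ) - 1 / lam * Real.log x) * lam := by
        push_cast; field_simp
      rw [e, abs_mul, abs_of_pos hlam]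
      calc _ ≤ K * Real.sqrt (Real.log x) * lam := mul_le_mul_of_nonneg_right hk hlam.le
        _ = _ := by ring
    obtain ⟨g1, ⟨g2, g3, g4⟩, g5, g6⟩ := hX₀ x ((le_max_left _ _).trans hx) (x, (k : ℤ)) rfl hmem
    simp only at g1 g2 g3 g4 g5 g6
    have hk2' : 2 ≤ k := by
      have h5 := (abs_le.1 hmem).1
      have h6 : K * lam * Real.sqrt (Real.log x) ≤ |K| * lam * Real.sqrt (Real.log x) := by
        apply mul_le_mul_of_nonneg_right _ (Real.sqrt_nonneg _)
        exact mul_le_mul_of_nonneg_right (le_abs_self K) hlam.le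
      have h7 : Real.sqrt (Real.log x) * Real.sqrt (Real.log x) = Real.log x := Real.mul_self_sqrt hlx.le
      have h8 : Real.sqrt (Real.log x) * (|K| * lam + 1) ≤ Real.sqrt (Real.log x) * Real.sqrt (Real.log x) :=
        mul_le_mul_of_nonneg_left g6 (Real.sqrt_nonneg _)
      rw [h7] at h8
      have h9 : Real.sqrt (Real.log x) ≤ ((k : ℤ) : ℝ) * lam := by
        linarith
      have h10 : 3 * lam ≤ (k : ℝ) * lam := by
        have : ((k : ℤ) : ℝ) = (k : ℝ) := by push_cast; rfl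
        rw [this] at h9
        linarith
      have h11 : (3 : ℝ) ≤ k := le_of_mul_le_mul_right h10 hlam
      have h12 : 3 ≤ k := by exact_mod_cast h11
      omega
    rw [N_eq x hk2', gd_eq hlx k]
    have hE := Est_low (K := K * lam) (p := (x, (k : ℤ))) hmem hlx
    have hE0 : 0 < Est (x, (k : ℤ)) := Real.exp_pos _
    have hsv : Real.logb 2 (3 ^ k * x) = sv (x, (k : ℤ)) := by
      unfold Real.logb sv
      rw [Real.log_mul (by positivity) (by linarith), Real.log_pow]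
      push_cast
      ring
    rw [hsv]
    have hs0 : 0 < Real.sqrt (Real.log x) := Real.sqrt_pos.2 hlx
    have hx0 : (0 : ℝ) < x := by linarith
    have hkey : FO x k / (x / 2 * (cst / (2 * Real.log 2) * Est (x, (k : ℤ)) / Real.sqrt (Real.log x))) -
        c * U (sv (x, (k : ℤ))) = 2 * c / Est (x, (k : ℤ)) *
        (Real.sqrt (Real.log x) / x * FO x k - 1 / 2 * (U (sv (x, (k : ℤ))) * Est (x, (k : ℤ)))) := by
      rw [hc]
      field_simp
    rw [hkey, abs_mul, abs_of_pos (by positivity)]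
    rw [Real.dist_eq, sub_zero] at g1
    calc 2 * c / Est (x, (k : ℤ)) * |Real.sqrt (Real.log x) / x * FO x k -
          1 / 2 * (U (sv (x, (k : ℤ))) * Est (x, (k : ℤ)))|
        ≤ 2 * c / e0 * (ε * e0 / (2 * c)) := by
          apply mul_le_mul _ g1.le (abs_nonneg _) (by positivity)
          exact div_le_div_of_nonneg_left (by positivity) he0' hE
      _ = ε := by field_simp

end Pool.Agent.R468.LL
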