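import Pool.Agent.H499R2.LT.H4

/-!
Local limit law of the heights, part 1: geometric sums of the normalised numbers in the central region.
-/

set_option autoImplicit false

namespace Pool.Agent.R468.LL

open Filter Topology Finset

/-- the central region -/
def cen (K : ℝ) : Filter (ℕ × ℤ) :=
  comap Prod.fst atTop ⊓ 𝓟 {p | |2 * (p.2 : ℝ) - p.1| ≤ K * Real.sqrt p.1}

/-- the normal profile -/
noncomputable def EE (p : ℕ × ℤ) : ℝ := Real.exp (-(2 * (p.2 : ℝ) - p.1) ^ 2 / (2 * p.1))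

theorem EE_pos (p : ℕ × ℤ) : 0 < EE p := Real.exp_pos _

theorem EE_le_one (p : ℕ × ℤ) : EE p ≤ 1 := by
  unfold EE
  rw [← Real.exp_zero]
  apply Real.exp_le_exp.2
  rw [neg_div]
  have : 0 ≤ (2 * (p.2 : ℝ) - p.1) ^ 2 / (2 * p.1) := by positivity
  linarith

theorem cen_fst (K : ℝ) : Tendsto (Prod.fst : ℕ × ℤ → ℕ) (cen K) atTop :=
  tendsto_comap.mono_left inf_le_left

theorem cen_dev (K : ℝ) : ∀ᶠ p : ℕ × ℤ in cen K, |2 * (p.2 : ℝ) - p.1| ≤ K * Real.sqrt p.1 :=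
  mem_inf_of_right (mem_principal_self _)

theorem tendsto_cen {α : Type*} {l : Filter α} {f : α → ℕ × ℤ} {K : ℝ}
    (h1 : Tendsto (fun a => (f a).1) l atTop)
    (h2 : ∀ᶠ a in l, |2 * ((f a).2 : ℝ) - (f a).1| ≤ K * Real.sqrt (f a).1) : Tendsto f l (cen K) :=
  tendsto_inf.2 ⟨tendsto_comap_iff.2 h1, tendsto_principal.2 h2⟩

theorem cen_real (K : ℝ) : Tendsto (fun p : ℕ × ℤ => (p.1 : ℝ)) (cen K) atTop :=
  tendsto_natCast_atTop_atTop.comp (cen_fst K)

theorem cen_sqrt (K : ℝ) : Tendsto (fun p : ℕ × ℤ => Real.sqrt (p.1 : ℝ)) (cen K) atTop :=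
  Real.tendsto_sqrt_atTop.comp (cen_real K)

/-- the local limit property -/
def Loc (M : ℕ → ℤ → ℝ) (u : ℝ) : Prop :=
  ∀ K : ℝ, Tendsto (fun p : ℕ × ℤ => Real.sqrt p.1 * M p.1 p.2 - u * EE p) (cen K) (𝓝 0)

theorem loc_of {M : ℕ → ℤ → ℝ} {u : ℝ}
    (h : ∀ K ε : ℝ, 0 < ε → ∃ k0 : ℕ, ∀ (k : ℕ) (o : ℤ), k0 ≤ k → |2 * (o : ℝ) - k| ≤ K * Real.sqrt k →
        |Real.sqrt k * M k o - u * Real.exp (-(2 * (o : ℝ) - k) ^ 2 / (2 * k))| ≤ ε) : Loc M u := by
  intro K
  rw [Metric.tendsto_nhds]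
  intro ε hε
  obtain ⟨k0, hk0⟩ := h K (ε / 2) (by linarith)
  filter_upwards [(cen_fst K).eventually (eventually_ge_atTop k0), cen_dev K] with p h1 h2
  have h3 := hk0 p.1 p.2 h1 h2
  rw [Real.dist_eq, sub_zero]
  unfold EE
  linarith

/-- the shift of the first index -/
theorem shift_cen (K : ℝ) (j : ℕ) :
    Tendsto (fun p : ℕ × ℤ => (p.1 - j, p.2)) (cen K) (cen (2 * |K| + 1)) := by
  apply tendsto_cen
  · exact (tendsto_sub_atTop_nat j).comp (cen_fst K)
  · have h4 : ∀ᶠ p : ℕ × ℤ in cen K, (2 * (j : ℝ) + 2 : ℝ) ≤ p.1 :=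
      (cen_real K).eventually (eventually_ge_atTop _)
    have h5 : ∀ᶠ p : ℕ × ℤ in cen K, (2 * (j : ℝ) + 2 : ℝ) ≤ Real.sqrt p.1 :=
      (cen_sqrt K).eventually (eventually_ge_atTop _)
    filter_upwards [cen_dev K, h4, h5] with p h1 h2 h3
    have hj : j ≤ p.1 := by
      have hj' : (j : ℝ) ≤ p.1 := by
        have : (0 : ℝ) ≤ j := Nat.cast_nonneg j
        linarith
      exact_mod_cast hj'
    have hj0 : (0 : ℝ) ≤ j := Nat.cast_nonneg j
    rw [Nat.cast_sub hj]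
    have h6 : (p.1 : ℝ) / 4 ≤ (p.1 : ℝ) - j := by linarith
    have h7 : Real.sqrt p.1 / 2 ≤ Real.sqrt ((p.1 : ℝ) - j) := by
      have e : Real.sqrt p.1 / 2 = Real.sqrt ((p.1 : ℝ) / 4) := by
        rw [Real.sqrt_div (Nat.cast_nonneg _), show (4 : ℝ) = 2 ^ 2 by norm_num,
          Real.sqrt_sq (by norm_num)]
      rw [e]
      exact Real.sqrt_le_sqrt h6
    have h8 : |2 * (p.2 : ℝ) - ((p.1 : ℝ) - j)| ≤ |2 * (p.2 : ℝ) - p.1| + j := by
      have : 2 * (p.2 : ℝ) - ((p.1 : ℝ) - j) = (2 * (p.2 : ℝ) - p.1) + j := by ring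
      rw [this]
      refine (abs_add_le _ _).trans ?_
      rw [abs_of_nonneg hj0]
    have h9 : |2 * (p.2 : ℝ) - p.1| ≤ |K| * Real.sqrt p.1 :=
      h1.trans (mul_le_mul_of_nonneg_right (le_abs_self K) (Real.sqrt_nonneg _))
    have hK := abs_nonneg K
    nlinarith [Real.sqrt_nonneg (p.1 : ℝ), Real.sqrt_nonneg ((p.1 : ℝ) - j)]

/-- the normal profile under a shift -/
theorem EE_shift (K : ℝ) (j : ℕ) :
    Tendsto (fun p : ℕ × ℤ => EE (p.1 - j, p.2) - EE p) (cen K) (𝓝 0) := by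
  -- the exponents differ by `o(1)`
  have hexp : Tendsto (fun p : ℕ × ℤ =>
      -(2 * (p.2 : ℝ) - ((p.1 - j : ℕ) : ℝ)) ^ 2 / (2 * ((p.1 - j : ℕ) : ℝ))
        - -(2 * (p.2 : ℝ) - p.1) ^ 2 / (2 * p.1)) (cen K) (𝓝 0) := by
    have hb : Tendsto (fun p : ℕ × ℤ => ((|K| + j) ^ 2 * j + (2 * |K| * j + j ^ 2) * 2) / Real.sqrt p.1)
        (cen K) (𝓝 0) := tendsto_const_nhds.div_atTop (cen_sqrt K)
    refine squeeze_zero_norm' ?_ hb
    have h4 : ∀ᶠ p : ℕ × ℤ in cen K, (2 * (j : ℝ) + 2 : ℝ) ≤ p.1 :=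
      (cen_real K).eventually (eventually_ge_atTop _)
    have h5 : ∀ᶠ p : ℕ × ℤ in cen K, (2 * (j : ℝ) + 2 : ℝ) ≤ Real.sqrt p.1 :=
      (cen_sqrt K).eventually (eventually_ge_atTop _)
    filter_upwards [cen_dev K, h4, h5] with p h1 h2 h3
    have hj0 : (0 : ℝ) ≤ j := Nat.cast_nonneg j
    have hj : j ≤ p.1 := by
      have hj' : (j : ℝ) ≤ p.1 := by linarith
      exact_mod_cast hj'
    rw [Nat.cast_sub hj, Real.norm_eq_abs]
    set a : ℝ := 2 * (p.2 : ℝ) - p.1 with ha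
    set n : ℝ := (p.1 : ℝ) with hn
    set r : ℝ := Real.sqrt n with hr
    have hn0 : 0 < n := by linarith
    have hr0 : 0 < r := by linarith
    have hrr : r * r = n := Real.mul_self_sqrt hn0.le
    have hnj : 0 < n - j := by linarith
    have hnj2 : n / 2 ≤ n - j := by linarith
    have e1 : 2 * (p.2 : ℝ) - (n - j) = a + j := by rw [ha]; ring
    rw [e1]
    have e2 : -(a + j) ^ 2 / (2 * (n - j)) - -a ^ 2 / (2 * n) =
        -((a ^ 2 * j + (2 * a * j + j ^ 2) * n) / (2 * n * (n - j))) := by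
      field_simp
      ring
    rw [e2, abs_neg, abs_div, abs_of_pos (by positivity : 0 < 2 * n * (n - j))]
    have hK := abs_nonneg K
    have ha1 : |a| ≤ |K| * r := h1.trans (mul_le_mul_of_nonneg_right (le_abs_self K) hr0.le)
    have ha2 : a ^ 2 ≤ |K| ^ 2 * n := by
      have : |a| ^ 2 ≤ (|K| * r) ^ 2 := pow_le_pow_left₀ (abs_nonneg a) ha1 2
      rw [sq_abs, mul_pow] at this
      rw [← hrr]; nlinarith
    have hnum : |a ^ 2 * j + (2 * a * j + j ^ 2) * n| ≤ |K| ^ 2 * n * j + (2 * (|K| * r) * j + j ^ 2) * n := by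
      have b1 : |a ^ 2 * j| ≤ |K| ^ 2 * n * j := by
        rw [abs_of_nonneg (by positivity)]
        exact mul_le_mul_of_nonneg_right ha2 hj0
      have b2 : |(2 * a * j + j ^ 2) * n| ≤ (2 * (|K| * r) * j + j ^ 2) * n := by
        rw [abs_mul, abs_of_pos hn0]
        apply mul_le_mul_of_nonneg_right _ hn0.le
        refine (abs_add_le _ _).trans ?_
        rw [abs_mul, abs_mul, abs_two, abs_of_nonneg hj0, abs_of_nonneg (by positivity : (0:ℝ) ≤ (j:ℝ) ^ 2)]
        have : 2 * |a| * j ≤ 2 * (|K| * r) * j := by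
          apply mul_le_mul_of_nonneg_right _ hj0
          linarith
        linarith
      exact (abs_add_le _ _).trans (add_le_add b1 b2)
    rw [div_le_div_iff₀ (by positivity) hr0]
    have hden : n * n ≤ 2 * n * (n - j) := by nlinarith
    have hr1 : 1 ≤ r := by linarith
    have hrn : r ≤ n := by rw [← hrr]; nlinarith
    set Q : ℝ := (|K| + j) ^ 2 * j + (2 * |K| * j + j ^ 2) * 2 with hQ
    have hQ0 : 0 ≤ Q := by positivity
    have k1 : |a ^ 2 * j + (2 * a * j + j ^ 2) * n| * r ≤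
        (|K| ^ 2 * n * j + (2 * (|K| * r) * j + j ^ 2) * n) * r :=
      mul_le_mul_of_nonneg_right hnum hr0.le
    have k2 : (|K| ^ 2 * n * j + (2 * (|K| * r) * j + j ^ 2) * n) * r ≤ Q * (n * n) := by
      have c1 : |K| ^ 2 * n * j * r ≤ (|K| + j) ^ 2 * j * (n * n) := by
        have d1 : |K| ^ 2 ≤ (|K| + j) ^ 2 := by nlinarith
        have d2 : n * r ≤ n * n := mul_le_mul_of_nonneg_left hrn hn0.le
        calc |K| ^ 2 * n * j * r = |K| ^ 2 * j * (n * r) := by ring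
          _ ≤ (|K| + j) ^ 2 * j * (n * n) := by
            apply mul_le_mul (mul_le_mul_of_nonneg_right d1 hj0) d2 (by positivity) (by positivity)
      have c2 : (2 * (|K| * r) * j + j ^ 2) * n * r ≤ (2 * |K| * j + j ^ 2) * 2 * (n * n) := by
        have d1 : (2 * (|K| * r) * j + j ^ 2) ≤ (2 * |K| * j + j ^ 2) * r := by nlinarith [sq_nonneg (j : ℝ)]
        calc (2 * (|K| * r) * j + j ^ 2) * n * r ≤ ((2 * |K| * j + j ^ 2) * r) * n * r := by
              apply mul_le_mul_of_nonneg_right _ hr0.le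
              exact mul_le_mul_of_nonneg_right d1 hn0.le
          _ = (2 * |K| * j + j ^ 2) * (n * n) := by rw [← hrr]; ring
          _ ≤ _ := by
            have : 0 ≤ (2 * |K| * j + j ^ 2) * (n * n) := by positivity
            linarith
      calc (|K| ^ 2 * n * j + (2 * (|K| * r) * j + j ^ 2) * n) * r
          = |K| ^ 2 * n * j * r + (2 * (|K| * r) * j + j ^ 2) * n * r := by ring
        _ ≤ (|K| + j) ^ 2 * j * (n * n) + (2 * |K| * j + j ^ 2) * 2 * (n * n) := add_le_add c1 c2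
        _ = Q * (n * n) := by rw [hQ]; ring
    exact k1.trans (k2.trans (mul_le_mul_of_nonneg_left hden hQ0))
  have h1 : Tendsto (fun p : ℕ × ℤ => Real.exp (
      -(2 * (p.2 : ℝ) - ((p.1 - j : ℕ) : ℝ)) ^ 2 / (2 * ((p.1 - j : ℕ) : ℝ))
        - -(2 * (p.2 : ℝ) - p.1) ^ 2 / (2 * p.1)) - 1) (cen K) (𝓝 (Real.exp 0 - 1)) :=
    ((Real.continuous_exp.tendsto 0).comp hexp).sub_const 1
  rw [Real.exp_zero, sub_self] at h1
  have h2 : ∀ p : ℕ × ℤ, EE (p.1 - j, p.2) - EE p = EE p * (Real.exp (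
      -(2 * (p.2 : ℝ) - ((p.1 - j : ℕ) : ℝ)) ^ 2 / (2 * ((p.1 - j : ℕ) : ℝ))
        - -(2 * (p.2 : ℝ) - p.1) ^ 2 / (2 * p.1)) - 1) := by
    intro p
    unfold EE
    rw [mul_sub, mul_one, ← Real.exp_add]
    congr 2
    simp only
    ring
  have h3 := h1.norm
  rw [norm_zero] at h3
  refine squeeze_zero_norm (fun p => ?_) h3
  rw [h2 p, norm_mul, Real.norm_eq_abs (EE p), abs_of_pos (EE_pos p)]
  exact mul_le_of_le_one_left (norm_nonneg _) (EE_le_one p)

/-- one term -/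
theorem term_lim {M : ℕ → ℤ → ℝ} {u : ℝ} (hu : 0 ≤ u) (h : Loc M u) (K : ℝ) (j : ℕ) :
    Tendsto (fun p : ℕ × ℤ => Real.sqrt p.1 * M (p.1 - j) p.2 - u * EE p) (cen K) (𝓝 0) := by
  have h1 : Tendsto (fun p : ℕ × ℤ => Real.sqrt ((p.1 - j : ℕ) : ℝ) * M (p.1 - j) p.2
      - u * EE (p.1 - j, p.2)) (cen K) (𝓝 0) := by
    have h0 := h (2 * |K| + 1)
    have h1 := h0.comp (shift_cen K j)
    simp only [Function.comp_def] at h1
    exact h1
  have h2 := (EE_shift K j).const_mul u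
  rw [mul_zero] at h2
  -- ratio of the square roots
  have h3 : Tendsto (fun p : ℕ × ℤ => Real.sqrt p.1 / Real.sqrt ((p.1 - j : ℕ) : ℝ)) (cen K) (𝓝 1) := by
    have h4 : Tendsto (fun n : ℕ => (n : ℝ) / ((n - j : ℕ) : ℝ)) atTop (𝓝 1) := by
      have h5 : Tendsto (fun n : ℕ => 1 + (j : ℝ) / ((n - j : ℕ) : ℝ)) atTop (𝓝 (1 + 0)) :=
        tendsto_const_nhds.add (tendsto_const_nhds.div_atTop
          (tendsto_natCast_atTop_atTop.comp (tendsto_sub_atTop_nat j)))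
      rw [add_zero] at h5
      refine h5.congr' ?_
      filter_upwards [eventually_gt_atTop j] with n hn
      have : (0 : ℝ) < ((n - j : ℕ) : ℝ) := by exact_mod_cast Nat.sub_pos_of_lt hn
      rw [Nat.cast_sub hn.le] at this ⊢
      field_simp
      ring
    have h5 : Tendsto (fun n : ℕ => Real.sqrt n / Real.sqrt ((n - j : ℕ) : ℝ)) atTop (𝓝 1) := by
      have h6 : Tendsto (fun n : ℕ => Real.sqrt ((n : ℝ) / ((n - j : ℕ) : ℝ))) atTop
          (𝓝 (Real.sqrt 1)) := h4.sqrt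
      rw [Real.sqrt_one] at h6
      have e6 : (fun n : ℕ => Real.sqrt n / Real.sqrt ((n - j : ℕ) : ℝ)) =
          fun n : ℕ => Real.sqrt ((n : ℝ) / ((n - j : ℕ) : ℝ)) := by
        funext n
        rw [Real.sqrt_div (Nat.cast_nonneg _)]
      rw [e6]
      exact h6
    exact h5.comp (cen_fst K)
  -- boundedness of the limit
  have h7 : Tendsto (fun p : ℕ × ℤ => (Real.sqrt p.1 / Real.sqrt ((p.1 - j : ℕ) : ℝ)) *
      (Real.sqrt ((p.1 - j : ℕ) : ℝ) * M (p.1 - j) p.2 - u * EE (p.1 - j, p.2))) (cen K) (𝓝 0) := by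
    have := h3.mul h1
    rwa [mul_zero] at this
  have h8 : Tendsto (fun p : ℕ × ℤ => (Real.sqrt p.1 / Real.sqrt ((p.1 - j : ℕ) : ℝ) - 1) *
      (u * EE (p.1 - j, p.2))) (cen K) (𝓝 0) := by
    have h9 : Tendsto (fun p : ℕ × ℤ => ‖Real.sqrt p.1 / Real.sqrt ((p.1 - j : ℕ) : ℝ) - 1‖ * u) (cen K)
        (𝓝 0) := by
      have := ((h3.sub_const 1).norm).mul_const u
      rwa [sub_self, norm_zero, zero_mul] at this
    refine squeeze_zero_norm (fun p => ?_) h9
    rw [norm_mul]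
    apply mul_le_mul_of_nonneg_left _ (norm_nonneg _)
    rw [Real.norm_eq_abs, abs_of_nonneg (mul_nonneg hu (EE_pos _).le)]
    exact mul_le_of_le_one_right hu (EE_le_one _)
  have h10 : Tendsto (fun p : ℕ × ℤ => (Real.sqrt p.1 / Real.sqrt ((p.1 - j : ℕ) : ℝ)) *
      (Real.sqrt ((p.1 - j : ℕ) : ℝ) * M (p.1 - j) p.2 - u * EE (p.1 - j, p.2)) +
      (Real.sqrt p.1 / Real.sqrt ((p.1 - j : ℕ) : ℝ) - 1) * (u * EE (p.1 - j, p.2)) +
      u * (EE (p.1 - j, p.2) - EE p)) (cen K) (𝓝 (0 + 0 + 0)) := (h7.add h8).add h2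
  have e0 : (0 : ℝ) + 0 + 0 = 0 := by norm_num
  rw [e0] at h10
  have h11 : ∀ᶠ p : ℕ × ℤ in cen K, j < p.1 := (cen_fst K).eventually (eventually_gt_atTop j)
  have h12 : (fun p : ℕ × ℤ => (Real.sqrt p.1 / Real.sqrt ((p.1 - j : ℕ) : ℝ)) *
      (Real.sqrt ((p.1 - j : ℕ) : ℝ) * M (p.1 - j) p.2 - u * EE (p.1 - j, p.2)) +
      (Real.sqrt p.1 / Real.sqrt ((p.1 - j : ℕ) : ℝ) - 1) * (u * EE (p.1 - j, p.2)) +
      u * (EE (p.1 - j, p.2) - EE p)) =ᶠ[cen K]
      (fun p : ℕ × ℤ => Real.sqrt p.1 * M (p.1 - j) p.2 - u * EE p) := by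
    filter_upwards [h11] with p hp
    have hs : 0 < Real.sqrt ((p.1 - j : ℕ) : ℝ) := Real.sqrt_pos.2 (by exact_mod_cast Nat.sub_pos_of_lt hp)
    generalize Real.sqrt ((p.1 - j : ℕ) : ℝ) = S at hs ⊢
    field_simp
    ring
  exact h10.congr' h12

/-- the geometric sums -/
theorem geo {M : ℕ → ℤ → ℝ} {u C : ℝ} (hu : 0 ≤ u) (hM0 : ∀ k o, 0 ≤ M k o) (hMC : ∀ k o, M k o ≤ C)
    (h : Loc M u) (K : ℝ) :
    Tendsto (fun p : ℕ × ℤ => Real.sqrt p.1 * (∑ i ∈ range (p.1 + 1), M i p.2 * 2 ^ i / 2 ^ p.1)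
      - 2 * u * EE p) (cen K) (𝓝 0) := by
  have hC : 0 ≤ C := (hM0 0 0).trans (hMC 0 0)
  set f : ℕ × ℤ → ℕ → ℝ := fun p j =>
    (if j ≤ p.1 then Real.sqrt p.1 * M (p.1 - j) p.2 else 0) / 2 ^ j - u * EE p / 2 ^ j with hf
  set bd : ℕ → ℝ := fun j => (3 * u + 2 + C * (j + 1)) / 2 ^ j with hbd
  have hsum : Summable bd := by
    have h1 : Summable (fun j : ℕ => (1 / 2 : ℝ) ^ j) := summable_geometric_two
    have h2 : Summable (fun j : ℕ => (j : ℝ) ^ 1 * (1 / 2 : ℝ) ^ j) :=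
      summable_pow_mul_geometric_of_norm_lt_one 1 (by norm_num)
    have h3 : Summable (fun j : ℕ => (3 * u + 2 + C) * (1 / 2 : ℝ) ^ j + C * ((j : ℝ) ^ 1 * (1 / 2 : ℝ) ^ j)) :=
      (h1.mul_left (3 * u + 2 + C)).add (h2.mul_left C)
    have e : bd = fun j : ℕ => (3 * u + 2 + C) * (1 / 2 : ℝ) ^ j + C * ((j : ℝ) ^ 1 * (1 / 2 : ℝ) ^ j) := by
      funext j
      rw [hbd]
      simp only [one_div, inv_pow, pow_one]
      field_simp
      ring
    rw [e]
    exact h3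
  have hlim : ∀ j, Tendsto (fun p => f p j) (cen K) (𝓝 0) := by
    intro j
    have h1 : Tendsto (fun p : ℕ × ℤ => (Real.sqrt p.1 * M (p.1 - j) p.2 - u * EE p) / 2 ^ j) (cen K)
        (𝓝 (0 / 2 ^ j)) := (term_lim hu h K j).div_const ((2 : ℝ) ^ j)
    rw [zero_div] at h1
    have h2 : (fun p : ℕ × ℤ => (Real.sqrt p.1 * M (p.1 - j) p.2 - u * EE p) / 2 ^ j) =ᶠ[cen K]
        (fun p => f p j) := by
      filter_upwards [(cen_fst K).eventually (eventually_ge_atTop j)] with p hp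
      rw [hf]
      simp only
      rw [if_pos hp, sub_div]
    exact h1.congr' h2
  have hbound : ∀ᶠ p in cen K, ∀ j, ‖f p j‖ ≤ bd j := by
    -- central values
    have hK1 := (Metric.tendsto_nhds.1 (h (2 * (|K| + 1)))) 1 one_pos
    unfold cen at hK1
    rw [eventually_inf_principal, eventually_comap] at hK1
    obtain ⟨k0, hk0⟩ := eventually_atTop.1 hK1
    have h4 : ∀ᶠ p : ℕ × ℤ in cen K, (2 * (k0 : ℝ) + 16 : ℝ) ≤ p.1 :=
      (cen_real K).eventually (eventually_ge_atTop _)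
    filter_upwards [cen_dev K, h4] with p h1 h2
    intro j
    have hj0 : (0 : ℝ) ≤ j := Nat.cast_nonneg j
    have h2j : (0 : ℝ) < 2 ^ j := by positivity
    rw [hf, hbd]
    simp only
    rw [← sub_div, norm_div, Real.norm_eq_abs, Real.norm_eq_abs, abs_of_pos h2j]
    apply div_le_div_of_nonneg_right _ h2j.le
    have hE : 0 ≤ u * EE p ∧ u * EE p ≤ u :=
      ⟨mul_nonneg hu (EE_pos _).le, mul_le_of_le_one_right hu (EE_le_one _)⟩
    set n : ℝ := (p.1 : ℝ) with hn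
    set r : ℝ := Real.sqrt n with hr
    have hk00 : (0 : ℝ) ≤ k0 := Nat.cast_nonneg k0
    have hn16 : 16 ≤ n := by linarith
    have hn0 : 0 < n := by linarith
    have hr0 : 0 < r := Real.sqrt_pos.2 hn0
    have hrr : r * r = n := Real.mul_self_sqrt hn0.le
    have hr4 : 4 ≤ r := by
      rw [hr]
      apply Real.le_sqrt_of_sq_le
      linarith
    by_cases hjn : j ≤ p.1
    · rw [if_pos hjn]
      have hMM := hM0 (p.1 - j) p.2
      have hpos : 0 ≤ r * M (p.1 - j) p.2 := mul_nonneg hr0.le hMM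
      have key : r * M (p.1 - j) p.2 ≤ 2 * u + 2 + C * (j + 1) := by
        by_cases hjr : (j : ℝ) ≤ r
        · -- central
          have hsub : ((p.1 - j : ℕ) : ℝ) = n - j := by rw [Nat.cast_sub hjn]
          have h5 : n / 4 ≤ n - j := by nlinarith
          have h6 : r / 2 ≤ Real.sqrt (n - j) := by
            have e : r / 2 = Real.sqrt (n / 4) := by
              rw [Real.sqrt_div hn0.le, show (4 : ℝ) = 2 ^ 2 by norm_num, Real.sqrt_sq (by norm_num)]
            rw [e]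
            exact Real.sqrt_le_sqrt h5
          have h7 : k0 ≤ p.1 - j := by
            have : (k0 : ℝ) ≤ ((p.1 - j : ℕ) : ℝ) := by rw [hsub]; nlinarith
            exact_mod_cast this
          have h8 : |2 * (p.2 : ℝ) - ((p.1 - j : ℕ) : ℝ)| ≤ 2 * (|K| + 1) * Real.sqrt ((p.1 - j : ℕ) : ℝ) := by
            rw [hsub]
            have e1 : 2 * (p.2 : ℝ) - (n - j) = (2 * (p.2 : ℝ) - n) + j := by ring
            rw [e1]
            have a1 : |2 * (p.2 : ℝ) - n| ≤ |K| * r :=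
              h1.trans (mul_le_mul_of_nonneg_right (le_abs_self K) hr0.le)
            refine (abs_add_le _ _).trans ?_
            rw [abs_of_nonneg hj0]
            have hK := abs_nonneg K
            nlinarith
          have h9 := hk0 (p.1 - j) h7 (p.1 - j, p.2) rfl h8
          rw [Real.dist_eq, sub_zero] at h9
          simp only at h9
          rw [hsub] at h9
          have h10 := (abs_lt.1 h9).2
          have h11 : u * EE (p.1 - j, p.2) ≤ u := mul_le_of_le_one_right hu (EE_le_one _)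
          have h12 : Real.sqrt (n - j) * M (p.1 - j) p.2 ≤ u + 1 := by linarith
          have h13 : r * M (p.1 - j) p.2 ≤ 2 * (Real.sqrt (n - j) * M (p.1 - j) p.2) := by nlinarith
          have : 0 ≤ C * (j + 1) := by positivity
          linarith
        · push Not at hjr
          have h5 : r * M (p.1 - j) p.2 ≤ (j + 1) * C :=
            mul_le_mul (by linarith) (hMC _ _) hMM (by positivity)
          nlinarith
      rw [abs_le]
      constructor <;> linarith [hE.1, hE.2]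
    · rw [if_neg hjn, zero_sub, abs_neg, abs_of_nonneg hE.1]
      have : 0 ≤ C * (j + 1) := by positivity
      linarith [hE.2]
  have h1 := tendsto_tsum_of_dominated_convergence hsum hlim hbound
  simp only [tsum_zero] at h1
  refine h1.congr fun p => ?_
  -- evaluation of the series
  have h2 : HasSum (fun j : ℕ => (if j ≤ p.1 then Real.sqrt p.1 * M (p.1 - j) p.2 else 0) / 2 ^ j)
      (∑ j ∈ range (p.1 + 1), (if j ≤ p.1 then Real.sqrt p.1 * M (p.1 - j) p.2 else 0) / 2 ^ j) := by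
    apply hasSum_sum_of_ne_finset_zero
    intro j hj
    rw [mem_range, not_lt] at hj
    rw [if_neg (by omega), zero_div]
  have h3 : HasSum (fun j : ℕ => u * EE p / 2 ^ j) (u * EE p * 2) := by
    have h3' := hasSum_geometric_two.mul_left (u * EE p)
    have e3 : (fun j : ℕ => u * EE p / 2 ^ j) = fun j : ℕ => u * EE p * (1 / 2) ^ j := by
      funext j
      rw [one_div, inv_pow]
      rfl
    rw [e3]
    exact h3'
  have h4 := (h2.sub h3).tsum_eq
  rw [hf]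
  simp only
  rw [h4]
  have h5 : ∑ j ∈ range (p.1 + 1), (if j ≤ p.1 then Real.sqrt p.1 * M (p.1 - j) p.2 else 0) / 2 ^ j =
      Real.sqrt p.1 * ∑ i ∈ range (p.1 + 1), M i p.2 * 2 ^ i / 2 ^ p.1 := by
    rw [← Finset.sum_flip (fun i => M i p.2 * 2 ^ i / 2 ^ p.1), mul_sum]
    apply sum_congr rfl
    intro j hj
    have hj' : j ≤ p.1 := by rw [mem_range] at hj; omega
    rw [if_pos hj']
    have : (2 : ℝ) ^ p.1 = 2 ^ (p.1 - j) * 2 ^ j := by rw [← pow_add, Nat.sub_add_cancel hj']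
    rw [this]
    field_simp
  rw [h5]
  ring

end Pool.Agent.R468.LL
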