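import Pool.Agent.R468.LL.Thin

/-!
Local limit law of the heights, part 6: the levels and the masses.
-/

set_option autoImplicit false

namespace Pool.Agent.R468.LL

open Filter Topology Finset
open Pool.Agent.H499R2.LT
open Pool.Agent.H499R2.ND (Td HD G pos mem_pos)
open Pool.Agent.H319R2.Lln (mu)
open Pool.Agent.H499R2.ND (c0)

theorem log3_gt : 1 < Real.log 3 := by
  rw [Real.lt_log_iff_exp_lt (by norm_num)]
  linarith [Real.exp_one_lt_d9]

theorem cY_self {Y : ℕ} {g : ℤ} (hg : 1 ≤ g) (hgY : g ≤ Y) (δ : ℤ → ℝ) :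
    cY 1 (FY Y) g Y δ = g * δ g := by
  classical
  have hmem : g ∈ FY Y := mem_FY.2 ⟨by omega, hgY⟩
  have hit0 : Hit 1 (FY Y) g g 0 := ⟨rfl, hmem, fun i hi => absurd hi (by omega)⟩
  have h1 : GS 1 (FY Y) g Y = {g} := by
    ext x
    rw [mem_GS, mem_singleton]
    constructor
    · rintro ⟨h1, _, i, hi⟩
      rcases Nat.eq_zero_or_pos i with rfl | h0
      · exact hi.1
      · exact absurd h1 (hi.2.2 0 h0)
    · rintro rfl
      exact ⟨hmem, by omega, 0, hit0⟩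
  have hgR : (0 : ℝ) < g := by exact_mod_cast (by omega : 0 < g)
  unfold cY
  rw [h1, sum_singleton]
  unfold kap
  rw [hi_spec hit0]
  have h2 : -(((0 : ℕ) : ℝ) * Real.log 2 - (od 1 0 g : ℝ) * Real.log 3 - Real.log (g : ℝ)) = Real.log g := by
    unfold od
    push_cast
    ring
  rw [h2, Real.exp_log hgR]

/-- the limiting constant -/
noncomputable def cst : ℝ := Real.sqrt (lam / 2) * (2 * (Real.log 3 * gz 0))

theorem cst_pos : 0 < cst := by
  unfold cst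
  have h1 := lam_pos
  have h2 := gz_pos 0
  have h3 := log3_gt
  have h4 : 0 < Real.sqrt (lam / 2) := Real.sqrt_pos.2 (by linarith)
  have h5 : 0 < Real.log 3 := by linarith
  positivity

theorem log3_gz : Real.log 3 * gz 0 = lam / Real.sqrt (2 * Real.pi) := by
  have h3 := log3_gt
  have h3' : Real.log 3 ≠ 0 := by positivity
  have hlam := lam_pos
  unfold gz c0
  have h2 : 2 * mu = lam := by
    unfold mu lam
    ring
  rw [h2]
  norm_num
  field_simp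

theorem cst_eq : cst = lam * Real.sqrt lam / Real.sqrt Real.pi := by
  unfold cst
  rw [log3_gz, Real.sqrt_div lam_pos.le, Real.sqrt_mul (by norm_num : (0 : ℝ) ≤ 2)]
  have h2 : Real.sqrt 2 * Real.sqrt 2 = 2 := Real.mul_self_sqrt (by norm_num)
  have h3 : Real.sqrt 2 ≠ 0 := by positivity
  have h4 : Real.sqrt Real.pi ≠ 0 := by
    have := Real.pi_pos
    positivity
  have h5 : Real.sqrt 2 ^ 2 = 2 := Real.sq_sqrt (by norm_num)
  field_simp
  rw [h5]

/-- the radius at a level -/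
noncomputable def rad (C : ℝ) (Y : ℕ) : ℝ := C / (Y : ℝ) ^ (1 / 25 : ℝ)

theorem rad_lim (C : ℝ) : Tendsto (rad C) atTop (𝓝 0) :=
  Tendsto.div_atTop tendsto_const_nhds ((tendsto_rpow_atTop (by norm_num)).comp tendsto_natCast_atTop_atTop)

/-- the data at all levels -/
theorem fam : ∃ (C : ℝ) (Y0 : ℕ) (u δ : ℕ → ℤ → ℝ), 0 < C ∧ 3 ≤ Y0 ∧ ∀ Y : ℕ, Y0 ≤ Y →
    Lvl Y (rad C Y) (u Y) (δ Y) ∧ 0 < rad C Y ∧ rad C Y ≤ 1 / 10 ∧
    ∀ g ∈ GG Y, cst * (Real.exp (-rad C Y) * (1 - 2 * rad C Y)) * δ Y g ≤ bw (u Y) g ∧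
      bw (u Y) g ≤ cst * (Real.exp (rad C Y) * (1 + 2 * rad C Y)) * δ Y g := by
  obtain ⟨C, Y0, hC, hY0, hp⟩ := path_log odd_one isCoprime_one_left
  choose u hu0 hloc hlev using fun (Y : ℕ) (g : ℤ) => local_limit odd_one isCoprime_one_left (FY Y) g
  choose δ hδ using fun (Y : ℕ) (g : ℤ) => hd_exists odd_one isCoprime_one_left (FY Y) g
  obtain ⟨Y1, hY1⟩ := eventually_atTop.1 ((rad_lim C).eventually (gt_mem_nhds (show (0 : ℝ) < 1 / 10 by norm_num)))
  refine ⟨C, max (max Y0 Y1) 3, u, δ, hC, le_max_right _ _, ?_⟩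
  intro Y hY
  have h0 : Y0 ≤ Y := (le_max_left _ _).trans ((le_max_left _ _).trans hY)
  have h1 : Y1 ≤ Y := (le_max_right _ _).trans ((le_max_left _ _).trans hY)
  have h3 : 3 ≤ Y := (le_max_right _ _).trans hY
  have hYR : (3 : ℝ) ≤ Y := by exact_mod_cast h3
  have hr0 : 0 < rad C Y := by
    unfold rad
    have : (0 : ℝ) < (Y : ℝ) ^ (1 / 25 : ℝ) := Real.rpow_pos_of_pos (by linarith) _
    positivity
  have hr1 := (hY1 Y h1).le
  have hl3 := log3_gt
  have hhit : ∀ (x g : ℤ) (j : ℕ), x ≠ 0 → Hit 1 (FY Y) g x j →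
      g ≠ 0 ∧ |Real.log (x : ℝ) + od 1 j x * Real.log 3 - j * Real.log 2 - Real.log (g : ℝ)| ≤ rad C Y := by
    intro x g j hx hh
    exact hp Y h0 x g j hx hh
  refine ⟨⟨by omega, hr0.le, hhit, hu0 Y, fun g => loc_of (hloc Y g), hδ Y⟩, hr0, hr1, ?_⟩
  intro g hg
  rw [mem_GG] at hg
  have hgR : (0 : ℝ) < g := by exact_mod_cast (by omega : 0 < g)
  obtain ⟨h5, h6⟩ := hlev Y g (Finset.Subset.refl _) hr0 (by linarith) hhit (hδ Y)
  rw [cY_self hg.1.1 hg.1.2] at h5 h6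
  have hgz := gz_pos 0
  have hδ0 := hd_nonneg (hδ Y g)
  have hs0 : 0 < Real.sqrt (lam / 2) := Real.sqrt_pos.2 (by have := lam_pos; linarith)
  have hw : bw (u Y) g = Real.sqrt (lam / 2) * 2 * (u Y g / g) := by
    unfold bw
    rw [Real.exp_neg, Real.exp_log hgR]
    field_simp
  have hE := Real.exp_pos (rad C Y)
  have hE' := Real.exp_pos (-rad C Y)
  rw [hw]
  have hq : 0 ≤ gz 0 * δ Y g := by positivity
  constructor
  · have h7 : Real.exp (-rad C Y) * (1 - 2 * rad C Y) * (Real.log 3 * gz 0) * δ Y g ≤ u Y g / g := by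
      rw [le_div_iff₀ hgR]
      refine le_trans ?_ h5
      have h8 : (1 - 2 * rad C Y) * Real.log 3 ≤ Real.log 3 - 2 * rad C Y := by nlinarith
      calc Real.exp (-rad C Y) * (1 - 2 * rad C Y) * (Real.log 3 * gz 0) * δ Y g * g
          = ((1 - 2 * rad C Y) * Real.log 3) * (Real.exp (-rad C Y) * (gz 0 * δ Y g) * g) := by ring
        _ ≤ (Real.log 3 - 2 * rad C Y) * (Real.exp (-rad C Y) * (gz 0 * δ Y g) * g) :=
            mul_le_mul_of_nonneg_right h8 (by positivity)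
        _ = _ := by ring
    calc cst * (Real.exp (-rad C Y) * (1 - 2 * rad C Y)) * δ Y g
        = Real.sqrt (lam / 2) * 2 * (Real.exp (-rad C Y) * (1 - 2 * rad C Y) * (Real.log 3 * gz 0) * δ Y g) := by
          unfold cst; ring
      _ ≤ _ := mul_le_mul_of_nonneg_left h7 (by positivity)
  · have h7 : u Y g / g ≤ Real.exp (rad C Y) * (1 + 2 * rad C Y) * (Real.log 3 * gz 0) * δ Y g := by
      rw [div_le_iff₀ hgR]
      refine le_trans h6 ?_
      have h8 : Real.log 3 + 2 * rad C Y ≤ (1 + 2 * rad C Y) * Real.log 3 := by nlinarith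
      calc Real.exp (rad C Y) * (Real.log 3 + 2 * rad C Y) * ((g : ℝ) * δ Y g) * gz 0
          = (Real.log 3 + 2 * rad C Y) * (Real.exp (rad C Y) * (gz 0 * δ Y g) * g) := by ring
        _ ≤ ((1 + 2 * rad C Y) * Real.log 3) * (Real.exp (rad C Y) * (gz 0 * δ Y g) * g) :=
            mul_le_mul_of_nonneg_right h8 (by positivity)
        _ = _ := by ring
    calc Real.sqrt (lam / 2) * 2 * (u Y g / g)
        ≤ Real.sqrt (lam / 2) * 2 * (Real.exp (rad C Y) * (1 + 2 * rad C Y) * (Real.log 3 * gz 0) * δ Y g) :=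
          mul_le_mul_of_nonneg_left h7 (by positivity)
      _ = _ := by unfold cst; ring

/-- the masses add up to the density -/
theorem mass {Y : ℕ} (hY : 1 ≤ Y) {δ : ℤ → ℝ} (hδ : ∀ g, HD 1 (PF 1 (FY Y) g) (δ g)) {D : ℝ}
    (hD : HD 1 P1 D) : ∑ g ∈ GG Y, δ g = D := by
  classical
  have hlim : Tendsto (fun N : ℕ => ∑ g ∈ GG Y, G (PF 1 (FY Y) g) (N : ℝ) / (N : ℝ)) atTop (𝓝 (∑ g ∈ GG Y, δ g)) :=
    tendsto_finsetSum _ fun g _ => hd_nat (hδ g)
  refine tendsto_nhds_unique hlim ?_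
  refine (hd_nat hD).congr fun N => ?_
  rw [← sum_div]
  congr 1
  have hdisj : ∀ g ∈ GG Y, ∀ g' ∈ GG Y, g ≠ g' → Disjoint (pos (PF 1 (FY Y) g) (N : ℝ)) (pos (PF 1 (FY Y) g') (N : ℝ)) := by
    intro g _ g' _ hne
    rw [Finset.disjoint_left]
    intro n hn hn'
    obtain ⟨_, _, i, hi⟩ := pos_le hn
    obtain ⟨_, _, i', hi'⟩ := pos_le hn'
    exact hne (Hit_unique hi hi').1
  have h1 : ∑ g ∈ GG Y, G (PF 1 (FY Y) g) (N : ℝ) =
      (((GG Y).biUnion (fun g => pos (PF 1 (FY Y) g) (N : ℝ))).card : ℝ) := by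
    rw [card_biUnion hdisj]
    push_cast
    rfl
  rw [h1]
  unfold G
  congr 2
  ext n
  rw [mem_biUnion]
  constructor
  · intro hn
    have hn0 := hn
    rw [mem_pos] at hn0
    obtain ⟨⟨hn1, hnN⟩, k, hk⟩ := hn0
    obtain ⟨i, _, g, hg, h2, h3⟩ := hit_split (one_mem_FY hY) hk
    refine ⟨g, ?_, ?_⟩
    · rw [mem_GG]
      have hg' := mem_FY.1 hg
      have hg0 : 0 < g := by rw [← h2.1]; exact iter_pos (by omega) i
      exact ⟨⟨by omega, hg'.2⟩, ⟨_, h3⟩⟩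
    · rw [mem_pos]
      exact ⟨⟨hn1, hnN⟩, i, h2⟩
  · rintro ⟨g, hg, hn⟩
    rw [mem_pos] at hn ⊢
    obtain ⟨⟨hn1, hnN⟩, i, hi⟩ := hn
    rw [mem_GG] at hg
    obtain ⟨j, hj⟩ := hg.2
    exact ⟨⟨hn1, hnN⟩, _, hit_join (one_mem_FY hY) hi hj⟩

theorem dens_ex : ∃ D : ℝ, HD 1 P1 D := hd_exists odd_one isCoprime_one_left F1 1

end Pool.Agent.R468.LL
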