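import Pool.Agent.R468.LL.Osc

/-!
Local limit law of the heights, part 8: the limiting profile.
-/

set_option autoImplicit false

namespace Pool.Agent.R468.LL

open Filter Topology Finset
open Pool.Agent.H499R2.LT
open Pool.Agent.H499R2.ND (Td HD G pos mem_pos)

/-- the path on which `log_2 (3^h x)` is `s` modulo one -/
noncomputable def pth (s : ℝ) (h : ℕ) : ℝ × ℤ := (Real.exp (s * Real.log 2 + h * lam), (h : ℤ))

theorem pth_lin (s : ℝ) : Tendsto (fun h : ℕ => s * Real.log 2 + h * lam) atTop atTop :=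
  tendsto_atTop_add_const_left _ _ (tendsto_natCast_atTop_atTop.atTop_mul_const lam_pos)

theorem pth_xh (s : ℝ) : Tendsto (pth s) atTop (xh 1) := by
  have hlin := pth_lin s
  refine tendsto_inf.2 ⟨tendsto_comap_iff.2 ?_, tendsto_principal.2 ?_⟩
  · exact Real.tendsto_exp_atTop.comp hlin
  · have h1 := (Real.tendsto_sqrt_atTop.comp hlin).eventually (eventually_ge_atTop (|s| * Real.log 2))
    filter_upwards [h1] with h hh
    change |((h : ℤ) : ℝ) * lam - Real.log (Real.exp (s * Real.log 2 + h * lam))| ≤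
      1 * Real.sqrt (Real.log (Real.exp (s * Real.log 2 + h * lam)))
    rw [Real.log_exp]
    have e : ((h : ℤ) : ℝ) * lam - (s * Real.log 2 + h * lam) = -(s * Real.log 2) := by push_cast; ring
    rw [e, abs_neg, abs_mul, abs_of_pos (Real.log_pos (by norm_num : (1 : ℝ) < 2)), one_mul]
    exact hh

theorem sv_pth (s : ℝ) (h : ℕ) : sv (pth s h) = s + ((2 * h : ℤ) : ℝ) := by
  have hl2 : 0 < Real.log 2 := Real.log_pos (by norm_num)
  unfold sv pth
  simp only [Real.log_exp]
  rw [lam_eq]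
  push_cast
  field_simp
  ring

theorem Est_pth (s : ℝ) : Tendsto (fun h : ℕ => Est (pth s h)) atTop (𝓝 1) := by
  have hl2 : 0 < Real.log 2 := Real.log_pos (by norm_num)
  have h1 : Tendsto (fun h : ℕ => -((s * Real.log 2) ^ 2 * lam / (4 * Real.log 2 ^ 2) /
      (s * Real.log 2 + h * lam))) atTop (𝓝 (-0)) :=
    (tendsto_const_nhds.div_atTop (pth_lin s)).neg
  rw [neg_zero] at h1
  have h2 := (Real.continuous_exp.tendsto 0).comp h1
  rw [Real.exp_zero] at h2
  refine h2.congr fun h => ?_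
  unfold Est pth
  simp only [Function.comp_def, Real.log_exp]
  congr 1
  have e : ((h : ℤ) : ℝ) * lam - (s * Real.log 2 + h * lam) = -(s * Real.log 2) := by push_cast; ring
  rw [e, neg_sq, div_div]

theorem UY_int (u : ℤ → ℝ) (Y : ℕ) (r s : ℝ) (m : ℤ) : UY u Y r (s + m) = UY u Y r s := by
  unfold UY
  apply sum_congr rfl
  intro g _
  rw [show s + (m : ℝ) - (lV g - r) / Real.log 2 = (s - (lV g - r) / Real.log 2) + m by ring, phi_int]

theorem lo_le_up {Y Y' : ℕ} {r r' : ℝ} {u δ u' δ' : ℤ → ℝ} (L : Lvl Y r u δ) (L' : Lvl Y' r' u' δ') (s : ℝ) :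
    UY u Y (-r) s ≤ UY u' Y' r' s := by
  apply le_of_forall_pos_le_add
  intro ε hε
  have h1 := (pth_xh s).eventually (sandwich L 1 (show 0 < ε / 2 by linarith))
  have h2 := (pth_xh s).eventually (sandwich L' 1 (show 0 < ε / 2 by linarith))
  have h3 : ∀ᶠ h : ℕ in atTop, UY u Y (-r) s * Est (pth s h) - ε / 2 ≤ UY u' Y' r' s * Est (pth s h) + ε / 2 := by
    filter_upwards [h1, h2] with h h1 h2
    simp only [sv_pth, UY_int] at h1 h2
    linarith [h1.1, h2.2]
  have hE := Est_pth s
  have h4 : Tendsto (fun h : ℕ => UY u Y (-r) s * Est (pth s h) - ε / 2) atTop (𝓝 (UY u Y (-r) s * 1 - ε / 2)) :=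
    (hE.const_mul _).sub_const _
  have h5 : Tendsto (fun h : ℕ => UY u' Y' r' s * Est (pth s h) + ε / 2) atTop (𝓝 (UY u' Y' r' s * 1 + ε / 2)) :=
    (hE.const_mul _).add_const _
  have h6 := le_of_tendsto_of_tendsto h4 h5 h3
  linarith

/-! ### the integral of `phi` -/

theorem phi_meas : Measurable phi := by
  unfold phi
  have : Measurable (fun z : ℝ => -(Int.fract z)) := measurable_fract.neg
  exact Measurable.pow measurable_const this

theorem phi_intble (a b c : ℝ) : IntervalIntegrable (fun s => phi (s - c)) MeasureTheory.volume a b := by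
  have h1 : IntervalIntegrable (fun _ : ℝ => (1 : ℝ)) MeasureTheory.volume a b := intervalIntegrable_const
  refine h1.mono_fun ?_ ?_
  · exact (phi_meas.comp (measurable_id.sub_const c)).aestronglyMeasurable
  · refine Filter.Eventually.of_forall fun s => ?_
    simp only [Real.norm_eq_abs, abs_one]
    rw [abs_of_pos (phi_pos _)]
    exact phi_le _

theorem phi_base : ∫ s in (0 : ℝ)..1, phi s = 1 / (2 * Real.log 2) := by
  have hl2 : 0 < Real.log 2 := Real.log_pos (by norm_num)
  have h1 : ∫ s in (0 : ℝ)..1, phi s = ∫ s in (0 : ℝ)..1, Real.exp ((-Real.log 2) * s) := by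
    apply intervalIntegral.integral_congr_ae
    have h0 : ∀ᵐ x : ℝ ∂MeasureTheory.volume, x ≠ 1 := by
      rw [MeasureTheory.ae_iff]
      simp
    filter_upwards [h0] with x hx hx'
    rw [Set.uIoc_of_le (by norm_num)] at hx'
    have hx1 : x < 1 := lt_of_le_of_ne hx'.2 hx
    unfold phi
    rw [Int.fract_eq_self.2 ⟨hx'.1.le, hx1⟩, Real.rpow_def_of_pos (by norm_num)]
    congr 1; ring
  rw [h1, intervalIntegral.integral_comp_mul_left (fun x => Real.exp x) (by linarith : -Real.log 2 ≠ 0), integral_exp,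
    mul_one, mul_zero, Real.exp_neg, Real.exp_log (by norm_num), Real.exp_zero, smul_eq_mul]
  field_simp
  norm_num

theorem phi_integral (c : ℝ) : ∫ s in (0 : ℝ)..1, phi (s - c) = 1 / (2 * Real.log 2) := by
  have hper : Function.Periodic phi 1 := by
    intro z
    have := phi_int z 1
    push_cast at this
    exact this
  rw [intervalIntegral.integral_comp_sub_right (fun x => phi x) c, ← phi_base]
  have h := hper.intervalIntegral_add_eq (0 - c) 0
  rw [zero_add] at h
  rw [show (1 : ℝ) - c = 0 - c + 1 by ring]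
  exact h

theorem UY_integral (u : ℤ → ℝ) (Y : ℕ) (r : ℝ) : ∫ s in (0 : ℝ)..1, UY u Y r s =
    (∑ g ∈ GG Y, bw u g) * Real.exp r * (1 / (2 * Real.log 2)) := by
  unfold UY
  rw [intervalIntegral.integral_finsetSum]
  · rw [sum_mul, sum_mul]
    apply sum_congr rfl
    intro g _
    rw [intervalIntegral.integral_const_mul, intervalIntegral.integral_const_mul, phi_integral]
    ring
  · intro g _
    exact ((phi_intble 0 1 _).const_mul _).const_mul _

theorem UY_intble (u : ℤ → ℝ) (Y : ℕ) (r : ℝ) : IntervalIntegrable (UY u Y r) MeasureTheory.volume 0 1 := by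
  unfold UY
  have : (fun s => ∑ g ∈ GG Y, bw u g * (Real.exp r * phi (s - (lV g - r) / Real.log 2))) =
      ∑ g ∈ GG Y, (fun s => bw u g * (Real.exp r * phi (s - (lV g - r) / Real.log 2))) := by
    ext s
    rw [Finset.sum_apply]
  rw [this]
  apply IntervalIntegrable.sum
  intro g _
  exact ((phi_intble 0 1 _).const_mul _).const_mul _

/-- THE PROFILE -/
theorem profile {D : ℝ} (hD : HD 1 P1 D) : ∃ U : ℝ → ℝ, Continuous U ∧ (∀ s, U (s + 1) = U s) ∧
    (∀ s, cst * D / 2 ≤ U s ∧ U s ≤ cst * D) ∧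
    (∫ s in (0 : ℝ)..1, U s = cst * D / (2 * Real.log 2)) ∧
    ∀ K : ℝ, Tendsto (fun p : ℝ × ℤ => Real.sqrt (Real.log p.1) / p.1 * FC p.1 p.2 - U (sv p) * Est p)
      (xh K) (𝓝 0) := by
  have hl2 : 0 < Real.log 2 := Real.log_pos (by norm_num)
  obtain ⟨Y0, C, u, δ, η, H⟩ := dat_exists hD
  have hD0 : 0 ≤ D := hd_nn hD
  have hcst := cst_pos
  set lo : ℕ → ℝ → ℝ := fun Y s => UY (u Y) Y (-rad C Y) s with hlo
  set up : ℕ → ℝ → ℝ := fun Y s => UY (u Y) Y (rad C Y) s with hup
  have hle : ∀ Y, Y0 ≤ Y → ∀ Y', Y0 ≤ Y' → ∀ s, lo Y s ≤ up Y' s := fun Y hY Y' hY' s =>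
    lo_le_up (H.lvl Y hY) (H.lvl Y' hY') s
  set U : ℝ → ℝ := fun s => ⨆ n : ℕ, lo (Y0 + n) s with hU
  have hbdd : ∀ s, BddAbove (Set.range fun n : ℕ => lo (Y0 + n) s) := by
    intro s
    refine ⟨up Y0 s, ?_⟩
    rintro _ ⟨n, rfl⟩
    exact hle _ (Nat.le_add_right _ _) _ le_rfl s
  have hU1 : ∀ Y, Y0 ≤ Y → ∀ s, lo Y s ≤ U s := by
    intro Y hY s
    obtain ⟨n, rfl⟩ := Nat.exists_eq_add_of_le hY
    exact le_ciSup (hbdd s) n
  have hU2 : ∀ Y, Y0 ≤ Y → ∀ s, U s ≤ up Y s := by
    intro Y hY s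
    exact ciSup_le fun n => hle _ (Nat.le_add_right _ _) _ hY s
  have hosc : ∀ Y, Y0 ≤ Y → ∀ s s' : ℝ, |s' - s| * Real.log 2 ≤ rad C Y → up Y s' - lo Y s ≤ η Y :=
    fun Y hY s s' h => H.osc Y hY s s' h
  have hosc0 : ∀ Y, Y0 ≤ Y → ∀ s : ℝ, up Y s - lo Y s ≤ η Y := by
    intro Y hY s
    apply hosc Y hY s s
    rw [sub_self, abs_zero, zero_mul]
    exact (H.rpos Y hY).le
  -- masses
  have hmassup : ∀ Y, Y0 ≤ Y → ∑ g ∈ GG Y, bw (u Y) g ≤ cst * (Real.exp (rad C Y) * (1 + 2 * rad C Y)) * D := by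
    intro Y hY
    rw [← H.sum Y hY, mul_sum]
    exact sum_le_sum (H.up Y hY)
  have hmasslo : ∀ Y, Y0 ≤ Y → cst * (Real.exp (-rad C Y) * (1 - 2 * rad C Y)) * D ≤ ∑ g ∈ GG Y, bw (u Y) g := by
    intro Y hY
    rw [← H.sum Y hY, mul_sum]
    exact sum_le_sum (H.lo Y hY)
  have hr := rad_lim C
  -- limits of the factors
  have hfup : Tendsto (fun Y => cst * (Real.exp (rad C Y) * (1 + 2 * rad C Y)) * D * Real.exp (rad C Y)) atTop
      (𝓝 (cst * D)) := by
    have h1 : Tendsto (fun Y => Real.exp (rad C Y)) atTop (𝓝 (Real.exp 0)) := (Real.continuous_exp.tendsto 0).comp hr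
    rw [Real.exp_zero] at h1
    have h2 := (((h1.mul ((hr.const_mul 2).const_add 1)).const_mul cst).mul_const D).mul h1
    refine h2.trans (le_of_eq ?_)
    congr 1; ring
  have hflo : Tendsto (fun Y => cst * (Real.exp (-rad C Y) * (1 - 2 * rad C Y)) * D * Real.exp (-rad C Y)) atTop
      (𝓝 (cst * D)) := by
    have h1 : Tendsto (fun Y => Real.exp (-rad C Y)) atTop (𝓝 (Real.exp (-0))) :=
      (Real.continuous_exp.tendsto (-0)).comp hr.neg
    rw [neg_zero, Real.exp_zero] at h1
    have h2 := (((h1.mul ((hr.const_mul 2).const_sub 1)).const_mul cst).mul_const D).mul h1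
    refine h2.trans (le_of_eq ?_)
    congr 1; ring
  -- continuity
  have hcont : Continuous U := by
    rw [Metric.continuous_iff]
    intro s ε hε
    obtain ⟨Y, hY1, hY2⟩ := ((H.eta.eventually (gt_mem_nhds hε)).and (eventually_ge_atTop Y0)).exists
    refine ⟨rad C Y / Real.log 2, div_pos (H.rpos Y hY2) hl2, ?_⟩
    intro s' hs'
    rw [Real.dist_eq] at hs'
    have h1 : |s' - s| * Real.log 2 ≤ rad C Y := by
      rw [lt_div_iff₀ hl2] at hs'
      exact hs'.le
    have h2 : |s - s'| * Real.log 2 ≤ rad C Y := by rw [abs_sub_comm]; exact h1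
    have h3 := hosc Y hY2 s s' h1
    have h4 := hosc Y hY2 s' s h2
    rw [Real.dist_eq, abs_lt]
    constructor
    · linarith [hU1 Y hY2 s', hU2 Y hY2 s]
    · linarith [hU1 Y hY2 s, hU2 Y hY2 s']
  refine ⟨U, hcont, ?_, ?_, ?_, ?_⟩
  · intro s
    have h1 : ∀ n : ℕ, lo (Y0 + n) (s + 1) = lo (Y0 + n) s := by
      intro n
      have := UY_int (u (Y0 + n)) (Y0 + n) (-rad C (Y0 + n)) s 1
      push_cast at this
      exact this
    change ⨆ n : ℕ, lo (Y0 + n) (s + 1) = ⨆ n : ℕ, lo (Y0 + n) s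
    congr 1
    funext n
    exact h1 n
  · intro s
    constructor
    · have h1 : ∀ᶠ Y in atTop, cst * (Real.exp (-rad C Y) * (1 - 2 * rad C Y)) * D * Real.exp (-rad C Y) / 2 ≤ U s := by
        filter_upwards [eventually_ge_atTop Y0] with Y hY
        refine le_trans ?_ (hU1 Y hY s)
        have hE := Real.exp_pos (-rad C Y)
        have h2 : (∑ g ∈ GG Y, bw (u Y) g) * (Real.exp (-rad C Y) / 2) ≤ lo Y s := by
          rw [sum_mul]
          apply sum_le_sum
          intro g _
          apply mul_le_mul_of_nonneg_left _ (bw_nonneg (H.lvl Y hY).u0 g)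
          have := phi_ge (s - (lV g - -rad C Y) / Real.log 2)
          nlinarith
        refine le_trans ?_ h2
        have h3 := mul_le_mul_of_nonneg_right (hmasslo Y hY) (show 0 ≤ Real.exp (-rad C Y) / 2 by positivity)
        linarith
      exact le_of_tendsto (hflo.div_const 2) h1
    · have h1 : ∀ᶠ Y in atTop, U s ≤ cst * (Real.exp (rad C Y) * (1 + 2 * rad C Y)) * D * Real.exp (rad C Y) := by
        filter_upwards [eventually_ge_atTop Y0] with Y hY
        refine le_trans (hU2 Y hY s) ?_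
        have hE := Real.exp_pos (rad C Y)
        have h2 : up Y s ≤ (∑ g ∈ GG Y, bw (u Y) g) * Real.exp (rad C Y) := by
          rw [sum_mul]
          apply sum_le_sum
          intro g _
          apply mul_le_mul_of_nonneg_left _ (bw_nonneg (H.lvl Y hY).u0 g)
          have := phi_le (s - (lV g - rad C Y) / Real.log 2)
          nlinarith
        exact h2.trans (mul_le_mul_of_nonneg_right (hmassup Y hY) hE.le)
      exact ge_of_tendsto hfup h1
  · have hUi : IntervalIntegrable U MeasureTheory.volume 0 1 := hcont.intervalIntegrable 0 1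
    apply le_antisymm
    · have h1 : ∀ᶠ Y in atTop, ∫ s in (0 : ℝ)..1, U s ≤
          cst * (Real.exp (rad C Y) * (1 + 2 * rad C Y)) * D * Real.exp (rad C Y) * (1 / (2 * Real.log 2)) := by
        filter_upwards [eventually_ge_atTop Y0] with Y hY
        have h2 : ∫ s in (0 : ℝ)..1, U s ≤ ∫ s in (0 : ℝ)..1, up Y s :=
          intervalIntegral.integral_mono_on (by norm_num) hUi (UY_intble _ _ _) fun s _ => hU2 Y hY s
        have h3 : ∫ s in (0 : ℝ)..1, up Y s = _ := UY_integral (u Y) Y (rad C Y)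
        rw [h3] at h2
        refine h2.trans ?_
        apply mul_le_mul_of_nonneg_right _ (by positivity)
        exact mul_le_mul_of_nonneg_right (hmassup Y hY) (Real.exp_pos _).le
      have h2 := ge_of_tendsto (hfup.mul_const (1 / (2 * Real.log 2))) h1
      refine h2.trans (le_of_eq ?_)
      ring
    · have h1 : ∀ᶠ Y in atTop, cst * (Real.exp (-rad C Y) * (1 - 2 * rad C Y)) * D * Real.exp (-rad C Y) *
          (1 / (2 * Real.log 2)) ≤ ∫ s in (0 : ℝ)..1, U s := by
        filter_upwards [eventually_ge_atTop Y0] with Y hY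
        have h2 : ∫ s in (0 : ℝ)..1, lo Y s ≤ ∫ s in (0 : ℝ)..1, U s :=
          intervalIntegral.integral_mono_on (by norm_num) (UY_intble _ _ _) hUi fun s _ => hU1 Y hY s
        have h3 : ∫ s in (0 : ℝ)..1, lo Y s = _ := UY_integral (u Y) Y (-rad C Y)
        rw [h3] at h2
        refine le_trans ?_ h2
        apply mul_le_mul_of_nonneg_right _ (by positivity)
        exact mul_le_mul_of_nonneg_right (hmasslo Y hY) (Real.exp_pos _).le
      have h2 := le_of_tendsto (hflo.mul_const (1 / (2 * Real.log 2))) h1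
      refine le_trans (le_of_eq ?_) h2
      ring
  · intro K
    rw [Metric.tendsto_nhds]
    intro ε hε
    obtain ⟨Y, hY1, hY2⟩ := ((H.eta.eventually (gt_mem_nhds (show 0 < ε / 3 by linarith))).and
      (eventually_ge_atTop Y0)).exists
    filter_upwards [sandwich (H.lvl Y hY2) K (show 0 < ε / 3 by linarith),
      (xh_log K).eventually (eventually_gt_atTop 0)] with p h1 h2
    have hE0 : 0 < Est p := Real.exp_pos _
    have hE1 : Est p ≤ 1 := by
      unfold Est
      apply Real.exp_le_one_iff.2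
      have := lam_pos
      have : 0 ≤ (p.2 * lam - Real.log p.1) ^ 2 * lam / (4 * Real.log 2 ^ 2 * Real.log p.1) := by positivity
      linarith
    have h3 := hU1 Y hY2 (sv p)
    have h4 := hU2 Y hY2 (sv p)
    have h5 := hosc0 Y hY2 (sv p)
    change UY (u Y) Y (-rad C Y) (sv p) ≤ U (sv p) at h3
    change U (sv p) ≤ UY (u Y) Y (rad C Y) (sv p) at h4
    change UY (u Y) Y (rad C Y) (sv p) - UY (u Y) Y (-rad C Y) (sv p) ≤ η Y at h5
    have h6 : (UY (u Y) Y (rad C Y) (sv p) - UY (u Y) Y (-rad C Y) (sv p)) * Est p ≤ ε / 3 := by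
      have h7 : (UY (u Y) Y (rad C Y) (sv p) - UY (u Y) Y (-rad C Y) (sv p)) * Est p ≤
          (UY (u Y) Y (rad C Y) (sv p) - UY (u Y) Y (-rad C Y) (sv p)) * 1 :=
        mul_le_mul_of_nonneg_left hE1 (by linarith)
      linarith
    have h8 := mul_le_mul_of_nonneg_right h3 hE0.le
    have h9 := mul_le_mul_of_nonneg_right h4 hE0.le
    rw [Real.dist_eq, sub_zero, abs_lt]
    constructor
    · linarith [h1.1]
    · linarith [h1.2]

end Pool.Agent.R468.LL
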